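import Pool.Agent.Lib.MP_90dd8d_pr.Defs

/-!
# MP_90dd8d_pr: basic facts on payoffs of mixed strategies
-/

set_option autoImplicit false

open MeasureTheory

namespace Pool.Agent.MP_90dd8d_pr

variable {n w : ℕ}

theorem measurable_infCoord (k : ℕ) : Measurable (fun x : InfPath n => x.1 k) :=
  (measurable_pi_apply k).comp measurable_subtype_coe

theorem measurable_searchCoord (k : ℕ) : Measurable (fun y : SearchPath n w => y.1 k) :=
  (measurable_pi_apply k).comp measurable_subtype_coe

theorem meetings_eq_sum (x y : ℕ → ℕ) (T : ℕ) :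
    meetings x y T = ∑ k ∈ Finset.range T, (if 1 ≤ k ∧ x k = y k then 1 else 0) := by
  unfold meetings
  rw [Finset.card_filter]

theorem meetings_succ (x y : ℕ → ℕ) (T : ℕ) :
    meetings x y (T + 1) = meetings x y T + (if 1 ≤ T ∧ x T = y T then 1 else 0) := by
  rw [meetings_eq_sum, meetings_eq_sum, Finset.sum_range_succ]

theorem meetings_succ_hit {x y : ℕ → ℕ} {T : ℕ} (hT : 1 ≤ T) (h : x T = y T) :
    meetings x y (T + 1) = meetings x y T + 1 := by
  rw [meetings_succ, if_pos ⟨hT, h⟩]

theorem meetings_succ_miss {x y : ℕ → ℕ} {T : ℕ} (h : x T ≠ y T) :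
    meetings x y (T + 1) = meetings x y T := by
  rw [meetings_succ, if_neg (fun h' => h h'.2), add_zero]

theorem meetings_mono (x y : ℕ → ℕ) {S T : ℕ} (h : S ≤ T) : meetings x y S ≤ meetings x y T := by
  unfold meetings
  apply Finset.card_le_card
  apply Finset.filter_subset_filter
  exact Finset.range_mono h

theorem meetings_one (x y : ℕ → ℕ) : meetings x y 1 = 0 := by
  rw [meetings_eq_sum]; simp

theorem measurable_meetings (T : ℕ) :
    Measurable (fun p : InfPath n × SearchPath n w => meetings p.1.1 p.2.1 T) := by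
  simp only [meetings_eq_sum]
  refine Finset.measurable_sum _ (fun k _ => ?_)
  refine Measurable.ite ?_ measurable_const measurable_const
  by_cases hk : 1 ≤ k
  · simp only [hk, true_and]
    exact measurableSet_eq_fun ((measurable_infCoord k).comp measurable_fst)
      ((measurable_searchCoord k).comp measurable_snd)
  · simp [hk]

open Classical in
theorem measurable_winGiven (lam : ℝ) :
    Measurable (fun p : InfPath n × SearchPath n w => winGiven lam p.1 p.2) := by
  have hT : ∀ T, MeasurableSet {p : InfPath n × SearchPath n w | p.1.1 T = n + 1} := fun T =>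
    (measurable_infCoord T).comp measurable_fst (measurableSet_singleton (n + 1))
  have hE : MeasurableSet {p : InfPath n × SearchPath n w | ∃ T, p.1.1 T = n + 1} := by
    have : {p : InfPath n × SearchPath n w | ∃ T, p.1.1 T = n + 1}
        = ⋃ T, {p : InfPath n × SearchPath n w | p.1.1 T = n + 1} := by
      ext p; simp
    rw [this]
    exact MeasurableSet.iUnion hT
  let P : ℕ → (InfPath n × SearchPath n w) → Prop := fun T p =>
    p.1.1 T = n + 1 ∨ ¬ ∃ T, p.1.1 T = n + 1
  have hP : ∀ p, ∃ T, P T p := by
    intro p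
    by_cases h : ∃ T, p.1.1 T = n + 1
    · obtain ⟨T, hT⟩ := h; exact ⟨T, Or.inl hT⟩
    · exact ⟨0, Or.inr h⟩
  let f : ℕ → (InfPath n × SearchPath n w) → ℝ := fun T p =>
    if ∃ T, p.1.1 T = n + 1 then lam ^ meetings p.1.1 p.2.1 T else 0
  have hf : ∀ T, Measurable (f T) := by
    intro T
    refine Measurable.ite hE ?_ measurable_const
    exact (measurable_from_top (f := fun m : ℕ => lam ^ m)).comp (measurable_meetings T)
  have hPm : ∀ T, MeasurableSet {p | P T p} := by
    intro T
    exact (hT T).union hE.compl
  have h := Measurable.find hf hPm hP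
  have heq : (fun p : InfPath n × SearchPath n w => winGiven lam p.1 p.2)
      = fun p => f (Nat.find (hP p)) p := by
    funext p
    unfold winGiven
    by_cases h : ∃ T, p.1.1 T = n + 1
    · simp only [h, dif_pos, f, if_true]
      congr 1
      congr 1
      symm
      rw [Nat.find_eq_iff]
      refine ⟨Or.inl (Nat.find_spec h), ?_⟩
      intro m hm
      have := Nat.find_min h hm
      simp only [P, not_or, not_not]
      exact ⟨this, h⟩
    · simp only [h, f, if_false, dif_neg, not_false_eq_true]
  rw [heq]
  exact h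

theorem winGiven_nonneg {lam : ℝ} (h0 : 0 ≤ lam) (x : InfPath n) (y : SearchPath n w) :
    0 ≤ winGiven lam x y := by
  unfold winGiven
  split_ifs
  · exact pow_nonneg h0 _
  · exact le_refl _

theorem winGiven_le_one {lam : ℝ} (h0 : 0 ≤ lam) (h1 : lam ≤ 1) (x : InfPath n)
    (y : SearchPath n w) : winGiven lam x y ≤ 1 := by
  unfold winGiven
  split_ifs
  · exact pow_le_one₀ h0 h1
  · exact zero_le_one

theorem winGiven_eq {lam : ℝ} (x : InfPath n) (y : SearchPath n w) {T : ℕ}
    (hT : x.1 T = n + 1) (hT' : ∀ k, k < T → x.1 k ≠ n + 1) :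
    winGiven lam x y = lam ^ meetings x.1 y.1 T := by
  have h : ∃ T, x.1 T = n + 1 := ⟨T, hT⟩
  unfold winGiven
  rw [dif_pos h]
  congr 2
  rw [Nat.find_eq_iff]
  exact ⟨hT, hT'⟩

/-- The payoff is at most `lam` to the number of meetings up to any time before arrival. -/
theorem winGiven_le_of_not_arrived {lam : ℝ} (h0 : 0 ≤ lam) (h1 : lam ≤ 1) (x : InfPath n)
    (y : SearchPath n w) {T : ℕ} (hT : ∀ k, k < T → x.1 k ≠ n + 1) :
    winGiven lam x y ≤ lam ^ meetings x.1 y.1 T := by
  unfold winGiven
  split_ifs with h
  · apply pow_le_pow_of_le_one h0 h1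
    apply meetings_mono
    by_contra hcon
    push Not at hcon
    exact hT _ hcon (Nat.find_spec h)
  · exact pow_nonneg h0 _

theorem integrable_winGiven {lam : ℝ} (h0 : 0 ≤ lam) (h1 : lam ≤ 1)
    (μ : Measure (InfPath n)) (ν : Measure (SearchPath n w)) [IsProbabilityMeasure μ]
    [IsProbabilityMeasure ν] :
    Integrable (fun p : InfPath n × SearchPath n w => winGiven lam p.1 p.2) (μ.prod ν) := by
  refine Integrable.of_bound (measurable_winGiven lam).aestronglyMeasurable 1 ?_
  refine Filter.Eventually.of_forall (fun p => ?_)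
  rw [Real.norm_eq_abs, abs_of_nonneg (winGiven_nonneg h0 _ _)]
  exact winGiven_le_one h0 h1 _ _

section Mix

variable {ι α : Type} [MeasurableSpace α]

theorem isProbabilityMeasure_mix [Countable ι] {p : ι → ℝ} (hp : ∀ i, 0 ≤ p i)
    (hsum : HasSum p 1) (path : ι → α) : IsProbabilityMeasure (mix p path) := by
  constructor
  unfold mix
  rw [Measure.sum_apply _ MeasurableSet.univ]
  simp only [Measure.smul_apply, smul_eq_mul, measure_univ, mul_one]
  rw [← ENNReal.ofReal_tsum_of_nonneg hp hsum.summable, hsum.tsum_eq, ENNReal.ofReal_one]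

theorem integral_mix [Countable ι] {p : ι → ℝ} (hp : ∀ i, 0 ≤ p i) (hsum : HasSum p 1)
    (path : ι → α) {f : α → ℝ} (hf : Measurable f) (hb : ∀ a, |f a| ≤ 1) :
    ∫ a, f a ∂(mix p path) = ∑' i, p i * f (path i) := by
  have hprob := isProbabilityMeasure_mix hp hsum path
  unfold mix at hprob ⊢
  have hint : Integrable f (Measure.sum fun i => ENNReal.ofReal (p i) • Measure.dirac (path i)) :=
    Integrable.of_bound hf.aestronglyMeasurable 1
      (Filter.Eventually.of_forall (fun a => by rw [Real.norm_eq_abs]; exact hb a))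
  rw [integral_sum_measure hint]
  refine tsum_congr (fun i => ?_)
  rw [integral_smul_measure, integral_dirac' _ _ hf.stronglyMeasurable,
    ENNReal.toReal_ofReal (hp i), smul_eq_mul]

end Mix

/-- If a mixture of infiltrator paths gives at least `v` against every searcher path, then it
guarantees `v`. -/
theorem le_winProb_mix {ι : Type} [Countable ι] {lam v : ℝ} (h0 : 0 ≤ lam) (h1 : lam ≤ 1)
    {p : ι → ℝ} (hp : ∀ i, 0 ≤ p i) (hsum : HasSum p 1) (path : ι → InfPath n)
    (h : ∀ y : SearchPath n w, v ≤ ∑' i, p i * winGiven lam (path i) y)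
    (ν : Measure (SearchPath n w)) [IsProbabilityMeasure ν] :
    v ≤ winProb lam (mix p path) ν := by
  have hprob := isProbabilityMeasure_mix hp hsum path
  have hint := integrable_winGiven h0 h1 (mix p path) ν
  unfold winProb
  rw [integral_prod_symm _ hint]
  have h2 : ∀ y : SearchPath n w, v ≤ ∫ x, winGiven lam x y ∂(mix p path) := by
    intro y
    have h3 : Measurable (fun x : InfPath n => winGiven lam x y) :=
      (measurable_winGiven lam).comp (measurable_id.prodMk measurable_const)
    rw [integral_mix hp hsum path h3 (fun x => by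
      rw [abs_of_nonneg (winGiven_nonneg h0 _ _)]
      exact winGiven_le_one h0 h1 _ _)]
    exact h y
  calc v = ∫ _y, v ∂ν := by simp
    _ ≤ ∫ y, ∫ x, winGiven lam x y ∂(mix p path) ∂ν := by
        apply integral_mono (integrable_const v) hint.integral_prod_right
        intro y
        exact h2 y

/-- If a mixture of searcher paths gives at most `v` against every infiltrator path, then it
guarantees `v`. -/
theorem winProb_mix_le {ι : Type} [Countable ι] {lam v : ℝ} (h0 : 0 ≤ lam) (h1 : lam ≤ 1)
    {q : ι → ℝ} (hq : ∀ i, 0 ≤ q i) (hsum : HasSum q 1) (path : ι → SearchPath n w)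
    (h : ∀ x : InfPath n, ∑' i, q i * winGiven lam x (path i) ≤ v)
    (μ : Measure (InfPath n)) [IsProbabilityMeasure μ] :
    winProb lam μ (mix q path) ≤ v := by
  have hprob := isProbabilityMeasure_mix hq hsum path
  have hint := integrable_winGiven h0 h1 μ (mix q path)
  unfold winProb
  rw [integral_prod _ hint]
  have h2 : ∀ x : InfPath n, ∫ y, winGiven lam x y ∂(mix q path) ≤ v := by
    intro x
    have h3 : Measurable (fun y : SearchPath n w => winGiven lam x y) :=
      (measurable_winGiven lam).comp (measurable_const.prodMk measurable_id)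
    rw [integral_mix hq hsum path h3 (fun y => by
      rw [abs_of_nonneg (winGiven_nonneg h0 _ _)]
      exact winGiven_le_one h0 h1 _ _)]
    exact h x
  calc ∫ x, ∫ y, winGiven lam x y ∂(mix q path) ∂μ ≤ ∫ _x, v ∂μ := by
        apply integral_mono hint.integral_prod_left (integrable_const v)
        intro x
        exact h2 x
    _ = v := by simp

end Pool.Agent.MP_90dd8d_pr
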