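import Mathlib

/-!
# MP_90dd8d_pr: the discrete infiltration game, definitions

Cells `1, …, n` and the target `n + 1`. Both players start at cell `1` at time `0`. The
infiltrator has speed `1`, the searcher has speed `w`. In every time unit in which both are in
the same cell, capture occurs with probability `1 - lam`, independently of everything else.
-/

set_option autoImplicit false

open MeasureTheory

namespace Pool.Agent.MP_90dd8d_pr

/-- Pure strategies of the infiltrator: paths `x 0 = 1, x 1, x 2, …` in `{1, …, n + 1}` with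
`|x (k + 1) - x k| ≤ 1`. -/
abbrev InfPath (n : ℕ) : Type :=
  {x : ℕ → ℕ // x 0 = 1 ∧
    ∀ k, (1 ≤ x (k + 1) ∧ x (k + 1) ≤ n + 1) ∧ (x (k + 1) ≤ x k + 1 ∧ x k ≤ x (k + 1) + 1)}

/-- Pure strategies of the searcher: paths `y 0 = 1, y 1, y 2, …` in `{1, …, n}` with
`|y (k + 1) - y k| ≤ w`. -/
abbrev SearchPath (n w : ℕ) : Type :=
  {y : ℕ → ℕ // y 0 = 1 ∧
    ∀ k, (1 ≤ y (k + 1) ∧ y (k + 1) ≤ n) ∧ (y (k + 1) ≤ y k + w ∧ y k ≤ y (k + 1) + w)}

variable {n w : ℕ}

/-- The number of time units `1 ≤ k < T` in which both players are in the same cell. -/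
def meetings (x y : ℕ → ℕ) (T : ℕ) : ℕ :=
  ((Finset.range T).filter (fun k => 1 ≤ k ∧ x k = y k)).card

open Classical in
/-- The infiltrator's winning probability when the players use the paths `x` and `y`: if the
infiltrator first reaches the target `n + 1` at time `T`, then it is `lam` to the number of time
units before `T` in which the players are in the same cell; if he never reaches it, it is `0`. -/
noncomputable def winGiven (lam : ℝ) (x : InfPath n) (y : SearchPath n w) : ℝ :=
  if h : ∃ T, x.1 T = n + 1 then lam ^ meetings x.1 y.1 (Nat.find h) else 0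

/-- The infiltrator's winning probability when he draws his path from `μ` and the searcher draws
his path, independently, from `ν`. -/
noncomputable def winProb (lam : ℝ) (μ : Measure (InfPath n)) (ν : Measure (SearchPath n w)) :
    ℝ :=
  ∫ p, winGiven lam p.1 p.2 ∂(μ.prod ν)

/-- The game with parameters `n`, `w`, `lam` has value `v`, the mixed strategy `μ` is optimal for
the infiltrator and the mixed strategy `ν` is optimal for the searcher. -/
def IsSolution (n w : ℕ) (lam v : ℝ) (μ : Measure (InfPath n)) (ν : Measure (SearchPath n w)) :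
    Prop :=
  IsProbabilityMeasure μ ∧ IsProbabilityMeasure ν ∧
    (∀ ν' : Measure (SearchPath n w), IsProbabilityMeasure ν' → v ≤ winProb lam μ ν') ∧
    (∀ μ' : Measure (InfPath n), IsProbabilityMeasure μ' → winProb lam μ' ν ≤ v)

/-- The mixed strategy that uses `path i` with probability `p i`. -/
noncomputable def mix {ι α : Type} [MeasurableSpace α] (p : ι → ℝ) (path : ι → α) : Measure α :=
  Measure.sum fun i => ENNReal.ofReal (p i) • Measure.dirac (path i)

/-- The infiltrator waits in cell `1` for `d` time units and then moves one cell per time unit to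
the target: `1, …, 1, 2, 3, …, n + 1`. -/
def dash (n : ℕ) (d : ℕ) : InfPath n :=
  ⟨fun t => min (t - d + 1) (n + 1), by
    refine ⟨by simp, fun k => ⟨⟨?_, ?_⟩, ?_, ?_⟩⟩ <;> simp only <;> omega⟩

/-- The searcher waits in cell `1` for `k` time units, then moves one cell per time unit to cell
`n`, and stays there: `1, …, 1, 2, 3, …, n, n, …`. -/
def sweep (n w : ℕ) (hn : 1 ≤ n) (hw : 1 ≤ w) (k : ℕ) : SearchPath n w :=
  ⟨fun t => min (t - k + 1) n, by
    refine ⟨?_, fun j => ⟨⟨?_, ?_⟩, ?_, ?_⟩⟩ <;> simp only <;> omega⟩

/-- The smaller root `v` of `lam * v ^ 2 - B * v + lam = 0`, where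
`B = 1 + lam - (1 - lam) * lam ^ (n - 1)`. -/
noncomputable def rootVal (n : ℕ) (lam : ℝ) : ℝ :=
  ((1 + lam - (1 - lam) * lam ^ (n - 1))
    - Real.sqrt ((1 + lam - (1 - lam) * lam ^ (n - 1)) ^ 2 - 4 * lam ^ 2)) / (2 * lam)

/-- The ratio of the geometric distribution of the infiltrator's delay. -/
noncomputable def infRatio (n : ℕ) (lam : ℝ) : ℝ := (1 - rootVal n lam) / (1 - lam * rootVal n lam)

/-- The ratio of the geometric distribution of the searcher's delay. -/
noncomputable def searchRatio (n : ℕ) (lam : ℝ) : ℝ :=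
  (lam - rootVal n lam) / (lam * (1 - rootVal n lam))

/-- The infiltrator's strategy: a dash after a geometric delay of ratio `r`. -/
noncomputable def geomDash (n : ℕ) (r : ℝ) : Measure (InfPath n) :=
  mix (fun d : ℕ => (1 - r) * r ^ d) (dash n)

/-- The searcher's strategy: a sweep after a geometric delay of ratio `s`. -/
noncomputable def geomSweep (n w : ℕ) (hn : 1 ≤ n) (hw : 1 ≤ w) (s : ℝ) :
    Measure (SearchPath n w) :=
  mix (fun k : ℕ => (1 - s) * s ^ k) (sweep n w hn hw)

end Pool.Agent.MP_90dd8d_pr
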