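import Pool.Agent.Lib.MP_90dd8d_pr.ThrUpper

/-!
# MP_90dd8d_pr: the infiltrator's strategy against a fast searcher
-/

set_option autoImplicit false

open MeasureTheory Filter

namespace Pool.Agent.MP_90dd8d_pr

variable {n m w : ℕ} {b : ℝ}

theorem fastG_zero : fastG m b 0 = 0 := by simp [fastG]

theorem fastG_nonneg (hb : 0 ≤ b) (j : ℕ) : 0 ≤ fastG m b j := by
  unfold fastG; positivity

theorem fastG_mono (hb : 0 ≤ b) {i j : ℕ} (h : i ≤ j) : fastG m b i ≤ fastG m b j := by
  unfold fastG
  have h1 : (i : ℝ) ≤ j := by exact_mod_cast h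
  have h2 : ((min i m : ℕ) : ℝ) ≤ ((min j m : ℕ) : ℝ) := by
    exact_mod_cast (show min i m ≤ min j m by omega)
  have h3 : 0 ≤ b ^ 2 := by positivity
  nlinarith [mul_le_mul_of_nonneg_left h1 hb, mul_le_mul_of_nonneg_left h2 h3]

theorem fastG_last (hn : 2 ≤ n) (hm : m ≤ n - 2) (hb : m * b ^ 2 + ((n : ℝ) - 1) * b = 1) :
    fastG m b (n - 1) = 1 := by
  unfold fastG
  have e : min (n - 1) m = m := by omega
  rw [e, Nat.cast_sub (by omega)]
  push_cast
  linarith

theorem fastG_le_one (hn : 2 ≤ n) (hm : m ≤ n - 2) (hb0 : 0 ≤ b)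
    (hb : m * b ^ 2 + ((n : ℝ) - 1) * b = 1) {j : ℕ} (hj : j ≤ n - 1) : fastG m b j ≤ 1 := by
  rw [← fastG_last hn hm hb]
  exact fastG_mono hb0 hj

theorem fastG_succ_low {j : ℕ} (h : j + 1 ≤ m) :
    fastG m b (j + 1) = fastG m b j + b * (1 + b) := by
  unfold fastG
  have e1 : min (j + 1) m = j + 1 := by omega
  have e2 : min j m = j := by omega
  rw [e1, e2]
  push_cast
  ring

theorem fastG_succ_high {j : ℕ} (h : m ≤ j) : fastG m b (j + 1) = fastG m b j + b := by
  unfold fastG
  have e1 : min (j + 1) m = m := by omega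
  have e2 : min j m = m := by omega
  rw [e1, e2]
  push_cast
  ring

/-- The basic inequality `(n - 2) (b + b ^ 2) ≤ 1`. -/
theorem fast_ineq (hn : 2 ≤ n) (hb0 : 0 ≤ b) (hb : m * b ^ 2 + ((n : ℝ) - 1) * b = 1) :
    ((n : ℝ) - 2) * (b + b ^ 2) ≤ 1 := by
  have h1 : (2 : ℝ) ≤ n := by exact_mod_cast hn
  have h2 : (0 : ℝ) ≤ m := Nat.cast_nonneg m
  have h3 : 0 ≤ m * b ^ 2 := by positivity
  have h4 : ((n : ℝ) - 1) * b ≤ 1 := by linarith
  have h5 : ((n : ℝ) - 1) * b * b ≤ 1 * b := mul_le_mul_of_nonneg_right h4 hb0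
  nlinarith [sq_nonneg b]

theorem fast_b_le_one (hn : 2 ≤ n) (hb0 : 0 ≤ b) (hb : m * b ^ 2 + ((n : ℝ) - 1) * b = 1) :
    b ≤ 1 := by
  have h1 : (2 : ℝ) ≤ n := by exact_mod_cast hn
  have h3 : 0 ≤ m * b ^ 2 := by positivity
  nlinarith

theorem min_div_step {t j i : ℕ} (hi : 1 ≤ i) :
    min 1 ((j : ℝ) / ((t : ℝ) + 1)) ≤ min 1 (((j + i : ℕ) : ℝ) / (((t + 1 : ℕ) : ℝ) + 1)) := by
  apply le_min (min_le_left _ _)
  have h1 : (1 : ℝ) ≤ i := by exact_mod_cast hi
  push_cast
  rcases Nat.lt_or_ge (t + 1) j with h | h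
  · refine le_trans (min_le_left _ _) ?_
    rw [le_div_iff₀ (by positivity)]
    have : (t : ℝ) + 1 < j := by exact_mod_cast h
    linarith
  · refine le_trans (min_le_right _ _) ?_
    have : (j : ℝ) ≤ (t : ℝ) + 1 := by exact_mod_cast h
    rw [div_le_div_iff₀ (by positivity) (by positivity)]
    have h0 : (0 : ℝ) ≤ (t : ℝ) + 1 := by positivity
    nlinarith

theorem min_div_mono {t j i : ℕ} (hi : j ≤ i) :
    min 1 ((j : ℝ) / ((t : ℝ) + 1)) ≤ min 1 ((i : ℝ) / ((t : ℝ) + 1)) := by
  apply min_le_min_left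
  apply div_le_div_of_nonneg_right _ (by positivity)
  exact_mod_cast hi

theorem min_div_anti (t j : ℕ) :
    min 1 ((j : ℝ) / (((t + 1 : ℕ) : ℝ) + 1)) ≤ min 1 ((j : ℝ) / ((t : ℝ) + 1)) := by
  apply min_le_min_left
  apply div_le_div_of_nonneg_left (by positivity) (by positivity)
  push_cast
  linarith

theorem isCdf_fastI (hn : 2 ≤ n) (hm : m ≤ n - 2) (hb0 : 0 ≤ b)
    (hb : m * b ^ 2 + ((n : ℝ) - 1) * b = 1) : IsCdf 1 (fastI n m b) := by
  have hb1 := fast_b_le_one hn hb0 hb
  have hr0 : 0 ≤ 1 - b := by linarith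
  have hr1 : 1 - b ≤ 1 := by linarith
  have hlast := fastG_last hn hm hb
  refine ⟨?_, ?_, ?_, ?_⟩
  · intro j hj
    unfold fastI
    split_ifs with h
    · apply min_eq_left
      push_cast
      rw [zero_add, div_one]
      exact_mod_cast hj
    · have e1 : 0 - (n - 2) - (j + 1 - n) = 0 := by omega
      have e2 : min j (n - 1) = n - 1 := by omega
      rw [e1, e2, hlast, pow_zero, one_mul]
  · intro t j
    unfold fastI
    split_ifs with h
    · exact min_div_mono (by omega)
    · apply mul_le_mul (pow_le_pow_of_le_one hr0 hr1 (by omega))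
        (fastG_mono hb0 (by omega)) (fastG_nonneg hb0 _) (pow_nonneg hr0 _)
  · intro t j
    unfold fastI
    by_cases h : t < n - 2
    · rw [if_pos h]
      by_cases h' : t + 1 < n - 2
      · rw [if_pos h']
        exact min_div_anti t j
      · rw [if_neg h']
        have ht : t + 1 = n - 2 := by omega
        have e1 : t + 1 - (n - 2) - (j + 1 - n) = 0 := by omega
        rw [e1, pow_zero, one_mul]
        apply le_min
        · exact fastG_le_one hn hm hb0 hb (by omega)
        · have htr : (t : ℝ) + 1 = (n : ℝ) - 2 := by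
            have : ((t + 1 : ℕ) : ℝ) = ((n - 2 : ℕ) : ℝ) := by rw [ht]
            rw [Nat.cast_sub hn] at this
            push_cast at this
            exact this
          rw [htr]
          have hpos : (0 : ℝ) < (n : ℝ) - 2 := by rw [← htr]; positivity
          rw [le_div_iff₀ hpos]
          refine le_trans (mul_le_mul_of_nonneg_right
            (fastG_mono (m := m) hb0 (show min j (n - 1) ≤ j by omega)) hpos.le) ?_
          have h5 := fast_ineq hn hb0 hb
          unfold fastG
          have h6 : ((min j m : ℕ) : ℝ) ≤ j := by exact_mod_cast (show min j m ≤ j by omega)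
          have h7 : b ^ 2 * ((min j m : ℕ) : ℝ) ≤ b ^ 2 * j :=
            mul_le_mul_of_nonneg_left h6 (by positivity)
          have h8 : (0 : ℝ) ≤ j := Nat.cast_nonneg j
          calc (b * j + b ^ 2 * ((min j m : ℕ) : ℝ)) * ((n : ℝ) - 2)
              ≤ (b * j + b ^ 2 * j) * ((n : ℝ) - 2) :=
                mul_le_mul_of_nonneg_right (by linarith) hpos.le
            _ = (((n : ℝ) - 2) * (b + b ^ 2)) * j := by ring
            _ ≤ 1 * j := mul_le_mul_of_nonneg_right h5 h8
            _ = j := one_mul _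
    · rw [if_neg h, if_neg (by omega)]
      apply mul_le_mul_of_nonneg_right _ (fastG_nonneg hb0 _)
      exact pow_le_pow_of_le_one hr0 hr1 (by omega)
  · intro t j
    unfold fastI
    by_cases h : t < n - 2
    · rw [if_pos h]
      by_cases h' : t + 1 < n - 2
      · rw [if_pos h']
        exact min_div_step le_rfl
      · rw [if_neg h']
        have ht : t + 1 = n - 2 := by omega
        have e1 : t + 1 - (n - 2) - (j + 1 + 1 - n) = 0 := by omega
        rw [e1, pow_zero, one_mul]
        have htr : (t : ℝ) + 1 = (n : ℝ) - 2 := by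
          have : ((t + 1 : ℕ) : ℝ) = ((n - 2 : ℕ) : ℝ) := by rw [ht]
          rw [Nat.cast_sub hn] at this
          push_cast at this
          exact this
        have hpos : (0 : ℝ) < (n : ℝ) - 2 := by rw [← htr]; positivity
        by_cases hj : j + 1 ≤ n - 1
        · have e2 : min (j + 1) (n - 1) = j + 1 := by omega
          rw [e2]
          refine le_trans (min_le_right _ _) ?_
          rw [htr, div_le_iff₀ hpos]
          -- `1 - G (j + 1) ≤ (n - 2 - j) (b + b ^ 2)`
          have h5 := fast_ineq hn hb0 hb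
          have h6 : ((m : ℝ) - ((min (j + 1) m : ℕ) : ℝ)) ≤ (n : ℝ) - 2 - j := by
            have : m + (j + 2) ≤ n + min (j + 1) m := by omega
            have : (m : ℝ) + (j + 2) ≤ n + ((min (j + 1) m : ℕ) : ℝ) := by exact_mod_cast this
            linarith
          have h7 : 1 - fastG m b (j + 1) ≤ ((n : ℝ) - 2 - j) * (b + b ^ 2) := by
            unfold fastG
            push_cast at h6 ⊢
            have h8 : b ^ 2 * ((m : ℝ) - min ((j : ℝ) + 1) m) ≤ b ^ 2 * ((n : ℝ) - 2 - j) :=
              mul_le_mul_of_nonneg_left h6 (by positivity)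
            nlinarith
          have h9 : 0 ≤ (n : ℝ) - 2 - j := by
            have : j + 2 ≤ n := by omega
            have : (j : ℝ) + 2 ≤ n := by exact_mod_cast this
            linarith
          have h10 : (1 - fastG m b (j + 1)) * ((n : ℝ) - 2)
              ≤ (((n : ℝ) - 2 - j) * (b + b ^ 2)) * ((n : ℝ) - 2) :=
            mul_le_mul_of_nonneg_right h7 hpos.le
          have h11 : (((n : ℝ) - 2 - j) * (b + b ^ 2)) * ((n : ℝ) - 2)
              ≤ ((n : ℝ) - 2 - j) * 1 := by
            rw [mul_assoc]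
            apply mul_le_mul_of_nonneg_left _ h9
            linarith
          linarith
        · have e2 : min (j + 1) (n - 1) = n - 1 := by omega
          rw [e2, hlast]
          exact min_le_left _ _
    · rw [if_neg h, if_neg (by omega)]
      by_cases hj : j + 1 ≤ n - 1
      · have e1 : t - (n - 2) - (j + 1 - n) = t - (n - 2) := by omega
        have e2 : t + 1 - (n - 2) - (j + 1 + 1 - n) = (t - (n - 2)) + 1 := by omega
        have e3 : min j (n - 1) = j := by omega
        have e4 : min (j + 1) (n - 1) = j + 1 := by omega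
        rw [e1, e2, e3, e4, pow_succ, mul_assoc]
        apply mul_le_mul_of_nonneg_left _ (pow_nonneg hr0 _)
        have h5 := fastG_le_one hn hm hb0 hb hj
        rcases Nat.lt_or_ge j m with h6 | h6
        · rw [fastG_succ_low (by omega)] at h5 ⊢
          have : b * (fastG m b j + b * (1 + b)) ≤ b * 1 := mul_le_mul_of_nonneg_left h5 hb0
          nlinarith
        · rw [fastG_succ_high h6] at h5 ⊢
          have : b * (fastG m b j + b) ≤ b * 1 := mul_le_mul_of_nonneg_left h5 hb0
          nlinarith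
      · have e3 : min j (n - 1) = n - 1 := by omega
        have e4 : min (j + 1) (n - 1) = n - 1 := by omega
        have e1 : t + 1 - (n - 2) - (j + 1 + 1 - n) = t - (n - 2) - (j + 1 - n) := by omega
        rw [e3, e4, e1]

theorem fastI_nonneg (hn : 2 ≤ n) (hb0 : 0 ≤ b)
    (hb : m * b ^ 2 + ((n : ℝ) - 1) * b = 1) (t j : ℕ) : 0 ≤ fastI n m b t j := by
  have hb1 := fast_b_le_one hn hb0 hb
  have hr0 : 0 ≤ 1 - b := by linarith
  unfold fastI
  split_ifs
  · apply le_min zero_le_one
    positivity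
  · exact mul_nonneg (pow_nonneg hr0 _) (fastG_nonneg hb0 _)

theorem fastI_le_one (hn : 2 ≤ n) (hm : m ≤ n - 2) (hb0 : 0 ≤ b)
    (hb : m * b ^ 2 + ((n : ℝ) - 1) * b = 1) (t j : ℕ) : fastI n m b t j ≤ 1 := by
  have hb1 := fast_b_le_one hn hb0 hb
  have hr0 : 0 ≤ 1 - b := by linarith
  unfold fastI
  split_ifs
  · exact min_le_left _ _
  · calc (1 - b) ^ (t - (n - 2) - (j + 1 - n)) * fastG m b (min j (n - 1)) ≤ 1 * 1 := by
          apply mul_le_mul (pow_le_one₀ hr0 (by linarith))
            (fastG_le_one hn hm hb0 hb (by omega)) (fastG_nonneg hb0 _) zero_le_one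
      _ = 1 := one_mul 1

theorem fastI_zero (t : ℕ) : fastI n m b t 0 = 0 := by
  unfold fastI
  split_ifs
  · simp
  · have e : min 0 (n - 1) = 0 := by omega
    rw [e, fastG_zero, mul_zero]

/-- An upper bound for the expected number of future meetings. -/
noncomputable def phiF (n m : ℕ) (b : ℝ) (t j : ℕ) : ℝ :=
  if t < n - 2 then early (n - 2) t + 1 + b
  else if j ≤ m then (1 - b) ^ (t - (n - 2) + 1) * (1 + b) else (1 - b) ^ (t - (n - 2))

theorem phiF_nonneg (hn : 2 ≤ n) (hb0 : 0 ≤ b)
    (hb : m * b ^ 2 + ((n : ℝ) - 1) * b = 1) (t j : ℕ) : 0 ≤ phiF n m b t j := by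
  have hb1 := fast_b_le_one hn hb0 hb
  have hr0 : 0 ≤ 1 - b := by linarith
  unfold phiF
  have := early_nonneg (n - 2) t
  split_ifs
  · positivity
  · positivity
  · positivity

theorem phiF_step (hn : 2 ≤ n) (hm : m ≤ n - 2) (hb0 : 0 ≤ b)
    (hb : m * b ^ 2 + ((n : ℝ) - 1) * b = 1) {t j j' : ℕ} (hj1' : 1 ≤ j') (hjn' : j' ≤ n)
    (hlow : j ≤ m → j' ≤ n - 1) :
    fastI n m b (t + 1) j' - fastI n m b (t + 1) (j' - 1) + phiF n m b (t + 1) j'
      ≤ phiF n m b t j := by
  have hb1 := fast_b_le_one hn hb0 hb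
  have hr0 : 0 ≤ 1 - b := by linarith
  have hlast := fastG_last hn hm hb
  -- masses after the early phase
  have hmass : ¬ t + 1 < n - 2 → j' ≤ n - 1 →
      fastI n m b (t + 1) j' - fastI n m b (t + 1) (j' - 1)
        = (1 - b) ^ (t + 1 - (n - 2)) * (if j' ≤ m then b * (1 + b) else b) := by
    intro h1 h2
    unfold fastI
    rw [if_neg h1, if_neg h1]
    have e1 : t + 1 - (n - 2) - (j' + 1 - n) = t + 1 - (n - 2) := by omega
    have e2 : t + 1 - (n - 2) - (j' - 1 + 1 - n) = t + 1 - (n - 2) := by omega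
    have e3 : min j' (n - 1) = j' := by omega
    have e4 : min (j' - 1) (n - 1) = j' - 1 := by omega
    rw [e1, e2, e3, e4, ← mul_sub]
    congr 1
    obtain ⟨i, rfl⟩ : ∃ i, j' = i + 1 := ⟨j' - 1, by omega⟩
    simp only [Nat.add_sub_cancel]
    split_ifs with h3
    · rw [fastG_succ_low h3]; ring
    · rw [fastG_succ_high (by omega)]; ring
  have hmassn : ¬ t + 1 < n - 2 → j' = n →
      fastI n m b (t + 1) j' - fastI n m b (t + 1) (j' - 1)
        = (1 - b) ^ (t + 1 - (n - 2) - 1) - (1 - b) ^ (t + 1 - (n - 2)) := by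
    intro h1 h2
    unfold fastI
    rw [if_neg h1, if_neg h1]
    have e1 : t + 1 - (n - 2) - (j' + 1 - n) = t + 1 - (n - 2) - 1 := by omega
    have e2 : t + 1 - (n - 2) - (j' - 1 + 1 - n) = t + 1 - (n - 2) := by omega
    have e3 : min j' (n - 1) = n - 1 := by omega
    have e4 : min (j' - 1) (n - 1) = n - 1 := by omega
    rw [e1, e2, e3, e4, hlast, mul_one, mul_one]
  by_cases ht : t + 1 < n - 2
  · -- early phase
    unfold phiF
    rw [if_pos ht, if_pos (show t < n - 2 by omega),
      early_step (k := n - 2) (t := t) (by omega)]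
    have h5 : fastI n m b (t + 1) j' - fastI n m b (t + 1) (j' - 1) ≤ 1 / ((t : ℝ) + 2) := by
      unfold fastI
      rw [if_pos ht, if_pos ht]
      have e : ((t + 1 : ℕ) : ℝ) + 1 = (t : ℝ) + 2 := by push_cast; ring
      rw [e, Nat.cast_sub hj1']
      have hpos : (0 : ℝ) < (t : ℝ) + 2 := by positivity
      have h6 : ((j' : ℝ) - ((1 : ℕ) : ℝ)) / ((t : ℝ) + 2)
          = (j' : ℝ) / ((t : ℝ) + 2) - 1 / ((t : ℝ) + 2) := by push_cast; ring
      rw [h6]
      have h7 : 0 < 1 / ((t : ℝ) + 2) := by positivity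
      rcases le_total 1 ((j' : ℝ) / ((t : ℝ) + 2) - 1 / ((t : ℝ) + 2)) with h8 | h8
      · rw [min_eq_left h8]
        have := min_le_left 1 ((j' : ℝ) / ((t : ℝ) + 2))
        linarith
      · rw [min_eq_right h8]
        have := min_le_right 1 ((j' : ℝ) / ((t : ℝ) + 2))
        linarith
    linarith
  · by_cases ht2 : t < n - 2
    · -- the end of the early phase
      have e : t + 1 - (n - 2) = 0 := by omega
      have h0 : early (n - 2) t = 0 := early_zero (by omega)
      rcases Nat.lt_or_ge j' n with h1 | h1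
      · rw [hmass ht (by omega)]
        unfold phiF
        rw [if_neg ht, if_pos ht2, e, h0]
        split_ifs with h3
        · apply le_of_eq; ring
        · apply le_of_eq; ring
      · rw [hmassn ht (by omega)]
        unfold phiF
        rw [if_neg ht, if_pos ht2, e, h0, if_neg (by omega)]
        simp only [Nat.zero_sub, pow_zero]
        linarith
    · have e : t + 1 - (n - 2) = (t - (n - 2)) + 1 := by omega
      have hp : 0 ≤ (1 - b) ^ (t - (n - 2)) := pow_nonneg hr0 _
      have hp1 : 0 ≤ (1 - b) ^ (t - (n - 2)) * b := mul_nonneg hp hb0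
      have hp2 : 0 ≤ (1 - b) ^ (t - (n - 2)) * b * b := mul_nonneg hp1 hb0
      rcases Nat.lt_or_ge j' n with h1 | h1
      · rw [hmass ht (by omega)]
        unfold phiF
        rw [if_neg ht, if_neg ht2, e]
        split_ifs with h3 h4 h4
        · apply le_of_eq; ring
        · calc (1 - b) ^ (t - (n - 2) + 1) * (b * (1 + b))
                + (1 - b) ^ (t - (n - 2) + 1 + 1) * (1 + b)
              = (1 - b) ^ (t - (n - 2)) - (1 - b) ^ (t - (n - 2)) * b * b := by ring
            _ ≤ _ := by linarith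
        · apply le_of_eq; ring
        · calc (1 - b) ^ (t - (n - 2) + 1) * b + (1 - b) ^ (t - (n - 2) + 1)
              = (1 - b) ^ (t - (n - 2)) - (1 - b) ^ (t - (n - 2)) * b * b := by ring
            _ ≤ _ := by linarith
      · have hj : ¬ j ≤ m := by
          intro hcon
          have := hlow hcon
          omega
        rw [hmassn ht (by omega)]
        unfold phiF
        rw [if_neg ht, if_neg ht2, if_neg hj, if_neg (by omega), e, Nat.add_sub_cancel]
        apply le_of_eq
        ring

/-- The constant of the fast case. -/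
noncomputable def fastC (n : ℕ) (b : ℝ) : ℝ :=
  if n = 2 then 1 else early (n - 2) 0 + 1 + b

theorem sum_fastI_le (hn : 2 ≤ n) (hm : m ≤ n - 2) (hmw : m = 0 ∨ m + w ≤ n - 1) (hb0 : 0 ≤ b)
    (hb : m * b ^ 2 + ((n : ℝ) - 1) * b = 1) (y : SearchPath n w) (T : ℕ) :
    ∑ t ∈ Finset.Ico 1 T, (fastI n m b t (y.1 t) - fastI n m b t (y.1 t - 1)) ≤ fastC n b := by
  have hn1 : 1 ≤ n := by omega
  have key : ∀ S : ℕ, ∑ t ∈ Finset.Ico 1 (S + 1),
      (fastI n m b t (y.1 t) - fastI n m b t (y.1 t - 1))
      + phiF n m b S (y.1 S) ≤ fastC n b := by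
    intro S
    induction S with
    | zero =>
      rw [y.2.1]
      unfold phiF fastC
      by_cases h2 : n = 2
      · rw [if_pos h2, if_neg (by omega), if_neg (by omega)]
        have e : 0 - (n - 2) = 0 := by omega
        rw [e]
        simp
      · rw [if_neg h2, if_pos (by omega)]
        simp
    | succ S ih =>
      rw [Finset.sum_Ico_succ_top (by omega)]
      have h2 := phiF_step hn hm hb0 hb (t := S) (j := y.1 S) (j' := y.1 (S + 1))
        (search_pos y (S + 1)) (search_le hn1 y (S + 1)) (by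
          intro h3
          have h4 := (y.2.2 S).2.1
          have h5 := search_pos y S
          rcases hmw with h6 | h6 <;> omega)
      linarith
  rcases Nat.eq_zero_or_pos T with h | h
  · subst h
    have := key 0
    have h2 := phiF_nonneg (m := m) hn hb0 hb 0 (y.1 0)
    simp at this ⊢
    linarith
  · have h2 := key (T - 1)
    rw [Nat.sub_add_cancel h] at h2
    have h3 := phiF_nonneg (m := m) hn hb0 hb (T - 1) (y.1 (T - 1))
    linarith

end Pool.Agent.MP_90dd8d_pr
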