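import Pool.Agent.Lib.MP_90dd8d_pr.FastLower

/-!
# MP_90dd8d_pr: the strategy of a fast searcher
-/

set_option autoImplicit false

open MeasureTheory Filter

namespace Pool.Agent.MP_90dd8d_pr

variable {n m w : ℕ} {b c s : ℝ}

/-- The relations between the parameters. -/
structure FastPar (n m w : ℕ) (b c s : ℝ) : Prop where
  hn : 2 ≤ n
  hm : m ≤ n - 2
  hw : 1 ≤ w
  hmw : m + w = n - 1 ∨ (m = 0 ∧ n - 1 ≤ w)
  hb0 : 0 ≤ b
  hc0 : 0 ≤ c
  hs : s = m * c
  hs1 : s < 1
  hsum : ((n : ℝ) - 2) * c + s + b = 1
  hcb : c + b * s = b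
  hmc : (m : ℝ) - 1 ≤ ((n : ℝ) - 2) * c * m

theorem FastPar.s0 (h : FastPar n m w b c s) : 0 ≤ s := by
  rw [h.hs]; exact mul_nonneg (Nat.cast_nonneg m) h.hc0

theorem FastPar.nc (h : FastPar n m w b c s) : ((n : ℝ) - 2) * c ≤ 1 := by
  have := h.s0; have := h.hb0; have := h.hsum; linarith

theorem FastPar.cj (h : FastPar n m w b c s) {j : ℕ} (hj : j ≤ n - 2) : c * j ≤ 1 := by
  have h1 : (j : ℝ) + 2 ≤ n := by exact_mod_cast (show j + 2 ≤ n by have := h.hn; omega)
  have h2 := h.nc
  have h3 : c * j ≤ c * ((n : ℝ) - 2) := mul_le_mul_of_nonneg_left (by linarith) h.hc0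
  linarith

/-- The key inequality for the long jumps. -/
theorem FastPar.jump (h : FastPar n m w b c s) {j : ℕ} (hj : j + w ≤ n - 2) :
    (j : ℝ) ≤ s * ((j : ℝ) + w) ∧ (j : ℝ) ≤ ((n : ℝ) - 2) * c * ((j : ℝ) + w) := by
  have hn := h.hn
  have hw1 := h.hw
  have hmw : m + w = n - 1 := by
    rcases h.hmw with h1 | h1
    · exact h1
    · omega
  have hm1 : 1 ≤ m := by omega
  have hjm : j + 1 ≤ m := by omega
  have hwr : (w : ℝ) = (n : ℝ) - 1 - m := by
    have : m + w + 1 = n := by omega
    have : (m : ℝ) + w + 1 = n := by exact_mod_cast this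
    linarith
  have hm1' : (1 : ℝ) ≤ m := by exact_mod_cast hm1
  have hjm' : (j : ℝ) + 1 ≤ m := by exact_mod_cast hjm
  have hj0 : (0 : ℝ) ≤ j := Nat.cast_nonneg j
  have hw0 : (1 : ℝ) ≤ w := by exact_mod_cast hw1
  have hN : (m : ℝ) ≤ (n : ℝ) - 2 := by
    have : m + 2 ≤ n := by have := h.hm; omega
    have : (m : ℝ) + 2 ≤ n := by exact_mod_cast this
    linarith
  have hN0 : 0 < (n : ℝ) - 2 := by linarith
  -- `(j + w) (m - 1) ≥ j (n - 2)`
  have h1 : (j : ℝ) * ((n : ℝ) - 2) ≤ ((j : ℝ) + w) * ((m : ℝ) - 1) := by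
    have : 0 ≤ (w : ℝ) * ((m : ℝ) - 1 - j) := mul_nonneg (by linarith) (by linarith)
    have h2 : ((j : ℝ) + w) * ((m : ℝ) - 1) - (j : ℝ) * ((n : ℝ) - 2)
        = (w : ℝ) * ((m : ℝ) - 1 - j) := by rw [hwr]; ring
    linarith
  have h2 : ((j : ℝ) + w) * ((m : ℝ) - 1) ≤ ((j : ℝ) + w) * (((n : ℝ) - 2) * c * m) :=
    mul_le_mul_of_nonneg_left h.hmc (by linarith)
  have h3 : (j : ℝ) * ((n : ℝ) - 2) ≤ (s * ((j : ℝ) + w)) * ((n : ℝ) - 2) := by
    rw [h.hs]; linarith
  constructor
  · exact le_of_mul_le_mul_right h3 hN0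
  · have h4 : (j : ℝ) * m ≤ (((n : ℝ) - 2) * c * ((j : ℝ) + w)) * m := by
      have : (j : ℝ) * m ≤ (j : ℝ) * ((n : ℝ) - 2) := mul_le_mul_of_nonneg_left hN hj0
      linarith
    exact le_of_mul_le_mul_right h4 (by linarith)

theorem isCdf_fastS (h : FastPar n m w b c s) : IsCdf w (fastS n c s) := by
  have hn := h.hn
  have hs0 := h.s0
  have hs1 := h.hs1.le
  have hc0 := h.hc0
  have hw1 := h.hw
  refine ⟨?_, ?_, ?_, ?_⟩
  · intro j hj
    unfold fastS
    split_ifs with h1 h2 h3
    · apply min_eq_left
      push_cast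
      rw [zero_add, div_one]
      exact_mod_cast hj
    · omega
    · have e : 0 - (n - 2) = 0 := by omega
      rw [e, pow_zero]
    · rfl
  · intro t j
    unfold fastS
    by_cases h1 : t < n - 2
    · rw [if_pos h1, if_pos h1]
      exact min_div_mono (by omega)
    · rw [if_neg h1, if_neg h1]
      have hp : 0 ≤ s ^ (t - (n - 2)) := pow_nonneg hs0 _
      have hp1 : s ^ (t - (n - 2)) ≤ 1 := pow_le_one₀ hs0 hs1
      by_cases h2 : j + 1 ≤ n - 2
      · rw [if_pos (by omega), if_pos h2]
        apply mul_le_mul_of_nonneg_right _ hp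
        apply mul_le_mul_of_nonneg_left _ hc0
        push_cast
        linarith
      · rw [if_neg h2]
        by_cases h3 : j + 1 = n - 1
        · rw [if_pos h3, if_pos (by omega)]
          calc c * j * s ^ (t - (n - 2)) ≤ 1 * s ^ (t - (n - 2)) :=
                mul_le_mul_of_nonneg_right (h.cj (by omega)) hp
            _ = _ := one_mul _
        · rw [if_neg h3, if_neg (by omega)]
          split_ifs
          · exact hp1
          · exact le_rfl
  · intro t j
    unfold fastS
    by_cases h1 : t < n - 2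
    · rw [if_pos h1]
      by_cases h1' : t + 1 < n - 2
      · rw [if_pos h1']
        exact min_div_anti t j
      · rw [if_neg h1']
        have e : t + 1 - (n - 2) = 0 := by omega
        have htr : (t : ℝ) + 1 = (n : ℝ) - 2 := by
          have : ((t + 1 : ℕ) : ℝ) = ((n - 2 : ℕ) : ℝ) := by
            rw [show t + 1 = n - 2 by omega]
          rw [Nat.cast_sub hn] at this
          push_cast at this
          exact this
        have hpos : (0 : ℝ) < (n : ℝ) - 2 := by rw [← htr]; positivity
        rw [e, pow_zero, htr]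
        split_ifs with h2 h3
        · apply le_min
          · rw [mul_one]; exact h.cj h2
          · rw [mul_one, le_div_iff₀ hpos]
            have h4 := h.nc
            have h5 : (0 : ℝ) ≤ j := Nat.cast_nonneg j
            calc c * j * ((n : ℝ) - 2) = (((n : ℝ) - 2) * c) * j := by ring
              _ ≤ 1 * j := mul_le_mul_of_nonneg_right h4 h5
              _ = j := one_mul _
        · apply le_min le_rfl
          rw [le_div_iff₀ hpos, one_mul]
          have : n ≤ j + 2 := by omega
          have : (n : ℝ) ≤ (j : ℝ) + 2 := by exact_mod_cast this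
          linarith
        · apply le_min le_rfl
          rw [le_div_iff₀ hpos, one_mul]
          have : n ≤ j + 2 := by omega
          have : (n : ℝ) ≤ (j : ℝ) + 2 := by exact_mod_cast this
          linarith
    · rw [if_neg h1, if_neg (by omega)]
      have hle : s ^ (t + 1 - (n - 2)) ≤ s ^ (t - (n - 2)) :=
        pow_le_pow_of_le_one hs0 hs1 (by omega)
      split_ifs with h2 h3
      · apply mul_le_mul_of_nonneg_left hle
        positivity
      · exact hle
      · exact le_rfl
  · intro t j
    unfold fastS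
    by_cases h1 : t < n - 2
    · rw [if_pos h1]
      by_cases h1' : t + 1 < n - 2
      · rw [if_pos h1']
        exact min_div_step hw1
      · rw [if_neg h1']
        have e : t + 1 - (n - 2) = 0 := by omega
        have htr : (t : ℝ) + 1 = (n : ℝ) - 2 := by
          have : ((t + 1 : ℕ) : ℝ) = ((n - 2 : ℕ) : ℝ) := by
            rw [show t + 1 = n - 2 by omega]
          rw [Nat.cast_sub hn] at this
          push_cast at this
          exact this
        have hpos : (0 : ℝ) < (n : ℝ) - 2 := by rw [← htr]; positivity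
        rw [e, pow_zero, htr]
        split_ifs with h2 h3
        · refine le_trans (min_le_right _ _) ?_
          rw [div_le_iff₀ hpos]
          have := (h.jump h2).2
          push_cast
          linarith
        · exact min_le_left _ _
        · exact min_le_left _ _
    · rw [if_neg h1, if_neg (by omega : ¬ t + 1 < n - 2)]
      have hp : 0 ≤ s ^ (t - (n - 2)) := pow_nonneg hs0 _
      have hp1 : s ^ (t - (n - 2)) ≤ 1 := pow_le_one₀ hs0 hs1
      have e : t + 1 - (n - 2) = (t - (n - 2)) + 1 := by omega
      rw [e]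
      by_cases h2 : j + w ≤ n - 2
      · rw [if_pos h2, if_pos (by omega), pow_succ]
        have h3 := (h.jump h2).1
        push_cast
        have h4 : c * j * s ^ (t - (n - 2)) ≤ c * (s * ((j : ℝ) + w)) * s ^ (t - (n - 2)) :=
          mul_le_mul_of_nonneg_right (mul_le_mul_of_nonneg_left h3 hc0) hp
        linarith
      · rw [if_neg h2]
        by_cases h3 : j + w = n - 1
        · rw [if_pos h3, if_pos (by omega)]
          have h4 : j = m := by
            rcases h.hmw with h5 | h5 <;> omega
          rw [h4, pow_succ, h.hs]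
          apply le_of_eq
          ring
        · rw [if_neg h3]
          split_ifs with h4 h5
          · calc c * j * s ^ (t - (n - 2)) ≤ 1 * 1 :=
                  mul_le_mul (h.cj h4) hp1 hp zero_le_one
              _ = 1 := one_mul 1
          · exact hp1
          · exact le_rfl

theorem fastS_nonneg (h : FastPar n m w b c s) (t j : ℕ) : 0 ≤ fastS n c s t j := by
  have hs0 := h.s0
  have hc0 := h.hc0
  unfold fastS
  split_ifs
  · apply le_min zero_le_one
    positivity
  · positivity
  · positivity
  · exact zero_le_one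

theorem fastS_le_one (h : FastPar n m w b c s) (t j : ℕ) : fastS n c s t j ≤ 1 := by
  have hs0 := h.s0
  have hc0 := h.hc0
  have hs1 := h.hs1.le
  have hp : 0 ≤ s ^ (t - (n - 2)) := pow_nonneg hs0 _
  have hp1 : s ^ (t - (n - 2)) ≤ 1 := pow_le_one₀ hs0 hs1
  unfold fastS
  split_ifs with h1 h2 h3
  · exact min_le_left _ _
  · calc c * j * s ^ (t - (n - 2)) ≤ 1 * 1 := mul_le_mul (h.cj h2) hp1 hp zero_le_one
      _ = 1 := one_mul 1
  · exact hp1
  · exact le_rfl

theorem fastS_zero (t : ℕ) : fastS n c s t 0 = 0 := by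
  unfold fastS
  split_ifs with h1 h2 h3
  · simp
  · simp
  · omega
  · omega

/-- A lower bound for the expected number of future meetings up to the first visit to cell `n`. -/
noncomputable def psiF (n : ℕ) (b s : ℝ) (t j : ℕ) : ℝ :=
  if t < n - 2 then early (n - 2) t + 1 + b
  else if j ≤ n - 2 then 1 + b * s ^ (t - (n - 2) + 1) else 1 - s ^ (t - (n - 2) + 1)

theorem psiF_step (h : FastPar n m w b c s) {t j j' : ℕ} (hj1' : 1 ≤ j') (hjt' : j' ≤ t + 2)
    (hjn' : j' < n) :
    psiF n b s t j ≤ smass n (fastS n c s) (t + 1) j' + psiF n b s (t + 1) j' := by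
  have hn := h.hn
  have hs0 := h.s0
  have hb0 := h.hb0
  have hs1 := h.hs1.le
  unfold smass
  rw [if_pos hjn']
  -- masses after the early phase
  have hmass1 : ¬ t + 1 < n - 2 → j' ≤ n - 2 →
      fastS n c s (t + 1) j' - fastS n c s (t + 1) (j' - 1) = c * s ^ (t + 1 - (n - 2)) := by
    intro h1 h2
    unfold fastS
    rw [if_neg h1, if_neg h1, if_pos h2, if_pos (by omega), Nat.cast_sub hj1']
    push_cast
    ring
  have hmass2 : ¬ t + 1 < n - 2 → j' = n - 1 →
      fastS n c s (t + 1) j' - fastS n c s (t + 1) (j' - 1)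
        = (s + b) * s ^ (t + 1 - (n - 2)) := by
    intro h1 h2
    unfold fastS
    rw [if_neg h1, if_neg h1, if_neg (by omega), if_pos h2, if_pos (by omega),
      Nat.cast_sub hj1', h2, Nat.cast_sub (by omega)]
    push_cast
    have h3 : s + b = 1 - ((n : ℝ) - 2) * c := by have := h.hsum; linarith
    rw [h3]
    ring
  by_cases ht : t + 1 < n - 2
  · unfold psiF
    rw [if_pos ht, if_pos (show t < n - 2 by omega),
      early_step (k := n - 2) (t := t) (by omega)]
    have h5 : fastS n c s (t + 1) j' - fastS n c s (t + 1) (j' - 1) = 1 / ((t : ℝ) + 2) := by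
      unfold fastS
      rw [if_pos ht, if_pos ht]
      have e : ((t + 1 : ℕ) : ℝ) + 1 = (t : ℝ) + 2 := by push_cast; ring
      have hpos : (0 : ℝ) < (t : ℝ) + 2 := by positivity
      have h6 : (j' : ℝ) ≤ (t : ℝ) + 2 := by exact_mod_cast hjt'
      rw [e, Nat.cast_sub hj1', min_eq_right (by rw [div_le_one hpos]; exact h6),
        min_eq_right (by rw [div_le_one hpos]; push_cast; linarith)]
      push_cast
      ring
    rw [h5]
    apply le_of_eq
    ring
  · by_cases ht2 : t < n - 2
    · have e : t + 1 - (n - 2) = 0 := by omega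
      have h0 : early (n - 2) t = 0 := early_zero (by omega)
      by_cases h1 : j' ≤ n - 2
      · rw [hmass1 ht h1]
        unfold psiF
        rw [if_neg ht, if_pos ht2, e, h0, if_pos h1]
        have := h.hcb
        apply le_of_eq
        simp only [zero_add, pow_zero, pow_one, mul_one]
        linarith
      · rw [hmass2 ht (by omega)]
        unfold psiF
        rw [if_neg ht, if_pos ht2, e, h0, if_neg h1]
        apply le_of_eq
        simp only [zero_add, pow_zero, pow_one, mul_one]
        ring
    · have e : t + 1 - (n - 2) = (t - (n - 2)) + 1 := by omega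
      have hp : 0 ≤ s ^ (t - (n - 2) + 1) := pow_nonneg hs0 _
      have hp1 : 0 ≤ b * s ^ (t - (n - 2) + 1) := mul_nonneg hb0 hp
      have hlow : psiF n b s t j ≤ 1 + b * s ^ (t - (n - 2) + 1) := by
        unfold psiF
        rw [if_neg ht2]
        split_ifs
        · exact le_rfl
        · linarith
      refine le_trans hlow ?_
      by_cases h1 : j' ≤ n - 2
      · rw [hmass1 ht h1]
        unfold psiF
        rw [if_neg ht, e, if_pos h1, pow_succ (n := t - (n - 2) + 1)]
        have := h.hcb
        apply le_of_eq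
        calc 1 + b * s ^ (t - (n - 2) + 1) = 1 + (c + b * s) * s ^ (t - (n - 2) + 1) := by
              rw [this]
          _ = _ := by ring
      · rw [hmass2 ht (by omega)]
        unfold psiF
        rw [if_neg ht, e, if_neg h1, pow_succ (n := t - (n - 2) + 1)]
        apply le_of_eq
        ring

theorem psiF_last (hn : 2 ≤ n) {t : ℕ} (hjt : n - 1 ≤ t + 1) :
    psiF n b s t (n - 1) ≤ smass n (fastS n c s) (t + 1) n := by
  unfold smass psiF fastS
  rw [if_neg (by omega), if_neg (by omega), if_neg (by omega), if_neg (by omega),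
    if_neg (by omega), if_pos rfl]
  have e : t + 1 - (n - 2) = t - (n - 2) + 1 := by omega
  rw [e]

theorem le_sum_smass_fast (h : FastPar n m w b c s) (x : InfPath n) (T : ℕ) (hT : x.1 T = n)
    (hlt : ∀ u, u < T → x.1 u < n) :
    fastC n b ≤ ∑ t ∈ Finset.Ico 1 (T + 1), smass n (fastS n c s) t (x.1 t) := by
  have hn := h.hn
  have hT1 : 1 ≤ T := by
    rcases Nat.eq_zero_or_pos T with h1 | h1
    · rw [h1, x.2.1] at hT; omega
    · exact h1
  have key : ∀ S : ℕ, S < T → fastC n b
      ≤ ∑ t ∈ Finset.Ico 1 (S + 1), smass n (fastS n c s) t (x.1 t) + psiF n b s S (x.1 S) := by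
    intro S
    induction S with
    | zero =>
      intro _
      rw [x.2.1]
      unfold psiF fastC
      by_cases h2 : n = 2
      · have hm0 : m = 0 := by have := h.hm; omega
        have hs : s = 0 := by rw [h.hs, hm0]; simp
        rw [if_pos h2, if_neg (by omega), if_neg (by omega), hs]
        simp
      · rw [if_neg h2, if_pos (by omega)]
        simp
    | succ S ih =>
      intro hS
      have h1 := ih (by omega)
      rw [Finset.sum_Ico_succ_top (by omega)]
      have h2 := psiF_step h (t := S) (j := x.1 S) (j' := x.1 (S + 1))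
        (inf_pos x (S + 1)) (by have := inf_le_time x (S + 1); omega) (hlt (S + 1) hS)
      linarith
  have h1 := key (T - 1) (by omega)
  rw [Nat.sub_add_cancel hT1] at h1
  rw [Finset.sum_Ico_succ_top hT1]
  have h3 : x.1 (T - 1) = n - 1 := by
    have h4 := (x.2.2 (T - 1)).2.1
    rw [Nat.sub_add_cancel hT1, hT] at h4
    have h5 := hlt (T - 1) (by omega)
    omega
  have h4 := inf_le_time x (T - 1)
  rw [h3] at h1 h4
  have h5 := psiF_last (b := b) (c := c) (s := s) hn (t := T - 1) h4
  rw [Nat.sub_add_cancel hT1] at h5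
  rw [hT]
  linarith

end Pool.Agent.MP_90dd8d_pr
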