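import Pool.Agent.Lib.MP_90dd8d_pr.Defs

/-!
# MP_90dd8d_pr: definitions for the first-order solution
-/

set_option autoImplicit false

open MeasureTheory

namespace Pool.Agent.MP_90dd8d_pr

/-- The position at time `t` of the path with parameter `u`, for the distribution functions
`F`, with `N + 1` cells: for `0 < u < 1` it is one plus the number of `j` in `1, …, N` with
`F t j ≤ u`. -/
noncomputable def qpos (N : ℕ) (F : ℕ → ℕ → ℝ) (u : ℝ) (t : ℕ) : ℕ :=
  1 + ((Finset.Icc 1 N).filter (fun j => F t j ≤ u ∧ u < 1)).card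

/-- The uniform distribution on `(0, 1)`. -/
noncomputable def unif : Measure ℝ := volume.restrict (Set.Ioo 0 1)

open Classical in
/-- The infiltrator draws `u` uniformly from `(0, 1)` and uses the path `qpos n F u`. (If this is
not an admissible path, he dashes; this does not happen below.) -/
noncomputable def infLaw (n : ℕ) (F : ℕ → ℕ → ℝ) : Measure (InfPath n) :=
  unif.map fun u =>
    if h : qpos n F u 0 = 1 ∧ ∀ k, (1 ≤ qpos n F u (k + 1) ∧ qpos n F u (k + 1) ≤ n + 1) ∧
        (qpos n F u (k + 1) ≤ qpos n F u k + 1 ∧ qpos n F u k ≤ qpos n F u (k + 1) + 1)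
    then ⟨qpos n F u, h⟩ else dash n 0

open Classical in
/-- The searcher draws `u` uniformly from `(0, 1)` and uses the path `qpos (n - 1) F u`. (If this
is not an admissible path, he sweeps; this does not happen below.) -/
noncomputable def searchLaw (n w : ℕ) (hn : 1 ≤ n) (hw : 1 ≤ w) (F : ℕ → ℕ → ℝ) :
    Measure (SearchPath n w) :=
  unif.map fun u =>
    if h : qpos (n - 1) F u 0 = 1 ∧
        ∀ k, (1 ≤ qpos (n - 1) F u (k + 1) ∧ qpos (n - 1) F u (k + 1) ≤ n) ∧
        (qpos (n - 1) F u (k + 1) ≤ qpos (n - 1) F u k + w ∧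
          qpos (n - 1) F u k ≤ qpos (n - 1) F u (k + 1) + w)
    then ⟨qpos (n - 1) F u, h⟩ else sweep n w hn hw 0

/-- Distribution functions for speed one: `thr k r t j` is the probability of being in one of the
cells `1, …, j` at time `t`. -/
noncomputable def thr (k : ℕ) (r : ℝ) (t j : ℕ) : ℝ :=
  if j < k then r ^ (t + 1 - k) * min 1 ((j : ℝ) / ((min (t + 1) k : ℕ) : ℝ)) else r ^ (t + 1 - j)

/-- The distribution function of the infiltrator at time `n - 2` against a fast searcher. -/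
noncomputable def fastG (m : ℕ) (b : ℝ) (j : ℕ) : ℝ := b * j + b ^ 2 * ((min j m : ℕ) : ℝ)

/-- The infiltrator's distribution functions against a fast searcher. -/
noncomputable def fastI (n m : ℕ) (b : ℝ) (t j : ℕ) : ℝ :=
  if t < n - 2 then min 1 ((j : ℝ) / ((t : ℝ) + 1))
  else (1 - b) ^ (t - (n - 2) - (j + 1 - n)) * fastG m b (min j (n - 1))

/-- The distribution functions of a fast searcher. -/
noncomputable def fastS (n : ℕ) (c s : ℝ) (t j : ℕ) : ℝ :=
  if t < n - 2 then min 1 ((j : ℝ) / ((t : ℝ) + 1))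
  else if j ≤ n - 2 then c * j * s ^ (t - (n - 2))
  else if j = n - 1 then s ^ (t - (n - 2)) else 1

/-- The positive root `z` of `z ^ 2 = (k - 1) z + k (n - k)`. -/
noncomputable def slowRoot (n k : ℕ) : ℝ :=
  (((k : ℝ) - 1) + Real.sqrt (((k : ℝ) - 1) ^ 2 + 4 * k * ((n : ℝ) - k))) / 2

/-- The positive root `b` of `m b ^ 2 + (n - 1) b = 1`. -/
noncomputable def fastRoot (n m : ℕ) : ℝ :=
  2 / (((n : ℝ) - 1) + Real.sqrt (((n : ℝ) - 1) ^ 2 + 4 * m))

/-- The distribution functions of the infiltrator's strategy. -/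
noncomputable def infCdf (n w : ℕ) : ℕ → ℕ → ℝ :=
  if (n - 1 - w) ^ 2 ≤ n - 2 then fastI n (n - 1 - w) (fastRoot n (n - 1 - w))
  else thr ((n + 1) / 3) (slowRoot n ((n + 1) / 3) / (1 + slowRoot n ((n + 1) / 3)))

/-- The distribution functions of the searcher's strategy. -/
noncomputable def searchCdf (n w : ℕ) : ℕ → ℕ → ℝ :=
  if (n - 1 - w) ^ 2 ≤ n - 2 then
    fastS n
      (fastRoot n (n - 1 - w) / (1 + ((n - 1 - w : ℕ) : ℝ) * fastRoot n (n - 1 - w)))
      (((n - 1 - w : ℕ) : ℝ) *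
        (fastRoot n (n - 1 - w) / (1 + ((n - 1 - w : ℕ) : ℝ) * fastRoot n (n - 1 - w))))
  else
    thr ((n + 1) / 3)
      (1 - slowRoot n ((n + 1) / 3) / ((((n + 1) / 3 : ℕ) : ℝ) * ((n : ℝ) - ((n + 1) / 3 : ℕ))))

/-- The first-order coefficient of the value. -/
noncomputable def coeff (n w : ℕ) : ℝ :=
  if (n - 1 - w) ^ 2 ≤ n - 2 then (harmonic (n - 2) : ℝ) + fastRoot n (n - 1 - w)
  else (harmonic ((n + 1) / 3) : ℝ) - 1 + slowRoot n ((n + 1) / 3) / (((n + 1) / 3 : ℕ) : ℝ)

end Pool.Agent.MP_90dd8d_pr
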