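import Pool.Agent.Lib.MP_90dd8d_pr.Root

/-!
# MP_90dd8d_pr: the case of five cells and speed one
-/

set_option autoImplicit false

open MeasureTheory

namespace Pool.Agent.MP_90dd8d_pr

variable {n : ℕ} {lam : ℝ}

theorem five_v_ge (h0 : 0 < lam) (h1 : lam < 1) : lam ^ 2 ≤ rootVal 5 lam := by
  apply le_root h0 h1 (by norm_num) (by nlinarith)
  have : lam * (lam ^ 2) ^ 2 - (1 + lam - (1 - lam) * lam ^ (5 - 1)) * lam ^ 2 + lam
      = lam * ((1 - lam) * (1 - lam ^ 2) * (1 - lam ^ 3)) := by norm_num; ring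
  rw [this]
  have h2 : lam ^ 2 < 1 := pow_lt_one₀ h0.le h1 (by norm_num)
  have h3 : lam ^ 3 < 1 := pow_lt_one₀ h0.le h1 (by norm_num)
  have h4 : 0 < 1 - lam := by linarith
  have h5 : 0 < 1 - lam ^ 2 := by linarith
  have h6 : 0 < 1 - lam ^ 3 := by linarith
  positivity

theorem five_ratio (h0 : 0 < lam) (h1 : lam < 1)
    (hlam : 1 + lam + lam ^ 7 + lam ^ 8 ≤ lam ^ 3 + 2 * lam ^ 4 + 2 * lam ^ 5) :
    infRatio 5 lam ≤ lam ^ (5 - 3) := by
  obtain ⟨hq, hv0, hvl⟩ := root_props h0 h1 (by norm_num : 3 ≤ 5)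
  -- `(1 + lam) / (1 + lam + lam ^ 2) ≤ v`
  have hc : 0 < 1 + lam + lam ^ 2 := by positivity
  have hv3 : (1 + lam) / (1 + lam + lam ^ 2) ≤ rootVal 5 lam := by
    apply le_root h0 h1 (by norm_num)
    · rw [div_lt_one hc]; nlinarith
    · have : lam * ((1 + lam) / (1 + lam + lam ^ 2)) ^ 2
          - (1 + lam - (1 - lam) * lam ^ (5 - 1)) * ((1 + lam) / (1 + lam + lam ^ 2)) + lam
          = (lam ^ 3 + 2 * lam ^ 4 + 2 * lam ^ 5 - (1 + lam + lam ^ 7 + lam ^ 8))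
            / (1 + lam + lam ^ 2) ^ 2 := by
        field_simp; norm_num; ring
      rw [this]
      apply div_nonneg _ (by positivity)
      linarith
  norm_num
  unfold infRatio
  rw [div_le_iff₀ (by nlinarith)]
  rw [div_le_iff₀ hc] at hv3
  have h4 : 0 < 1 - lam := by linarith
  have h5 : (1 - lam) * (1 + lam) ≤ (1 - lam) * (rootVal 5 lam * (1 + lam + lam ^ 2)) :=
    mul_le_mul_of_nonneg_left hv3 h4.le
  nlinarith

section Algebra

variable {s : ℝ}

theorem five_s (h0 : 0 < lam) (h1 : lam < 1)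
    (hv2 : lam ^ 2 ≤ lam ^ 4 * (1 - s) + s) : lam ^ 2 ≤ s * (1 + lam ^ 2) := by
  have h2 : lam ^ 2 < 1 := pow_lt_one₀ h0.le h1 (by norm_num)
  have h5 : (1 - lam ^ 2) * (lam ^ 2) ≤ (1 - lam ^ 2) * (s * (1 + lam ^ 2)) := by
    nlinarith
  exact le_of_mul_le_mul_left h5 (by linarith)

theorem five_key1 (h0 : 0 < lam) (hs0 : 0 < s) (hsl : lam ^ 2 ≤ s * (1 + lam ^ 2)) :
    lam ^ 2 ≤ s + s ^ 2 * ((1 + lam) * (1 + lam ^ 2)) := by
  have h3 : lam ^ 2 * s ≤ s ^ 2 * (1 + lam ^ 2) := by nlinarith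
  have h4 : s ^ 2 * (1 + lam ^ 2) ≤ s ^ 2 * ((1 + lam) * (1 + lam ^ 2)) := by
    have : 0 ≤ s ^ 2 * (1 + lam ^ 2) * lam := by positivity
    nlinarith
  nlinarith

theorem five_B (h1 : lam < 1) (hs1 : s < 1) {a : ℝ}
    (ha : a ≤ s + s ^ 2 * ((1 + lam) * (1 + lam ^ 2))) :
    (1 - lam) * (1 - s) * a
      ≤ (1 - lam) * (1 - s) * (s + s ^ 2 * ((1 + lam) * (1 + lam ^ 2))) :=
  mul_le_mul_of_nonneg_left ha (mul_nonneg (by linarith) (by linarith))

end Algebra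

/-- The function `K` for five cells. -/
noncomputable def K5 (lam s v : ℝ) (m : ℕ) : ℝ :=
  if m = 2 then v
  else if m = 3 then
    max (lam ^ 3 * (1 - s) + s) (lam * (1 - s) + s * (lam ^ 4 * (1 - s) + s))
  else 1

theorem five_hF {s v : ℝ} (h0 : 0 < lam) (h1 : lam < 1) (hs0 : 0 < s) (hs1 : s < 1)
    (hv : v = lam ^ 4 * (1 - s) + s) (hv2 : lam ^ 2 ≤ v) (j m : ℕ) (hj : 2 ≤ j) (hjm : j ≤ m)
    (hm : m ≤ 4) :
    lam ^ (m - j + 2) * (1 - s) + s * K5 lam s v m ≤ lam ^ (6 - j) * (1 - s) + s := by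
  have hsl : lam ^ 2 ≤ s * (1 + lam ^ 2) := five_s h0 h1 (by rw [← hv]; exact hv2)
  have hl3 : lam ^ 3 ≤ lam ^ 2 := by nlinarith [sq_nonneg lam]
  have h1s : 0 < 1 - s := by linarith
  have h1l : 0 < 1 - lam := by linarith
  have key1 := five_key1 h0 hs0 hsl
  have key2 : lam ^ 2 ≤ s * (1 + lam + lam ^ 2) := by nlinarith
  have hmax : ∀ a b c d : ℝ, a + s * c ≤ b → a + s * d ≤ b → a + s * max c d ≤ b := by
    intro a b c d ha hb
    rcases max_choice c d with h | h <;> rw [h] <;> assumption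
  have hA : ∀ a : ℝ, a ≤ s * (1 + lam + lam ^ 2) →
      (1 - lam) * (1 - s) * a ≤ (1 - lam) * (1 - s) * (s * (1 + lam + lam ^ 2)) := fun a ha =>
    mul_le_mul_of_nonneg_left ha (mul_nonneg h1l.le h1s.le)
  unfold K5
  interval_cases m <;> interval_cases j
  · norm_num
    rw [← hv]
    nlinarith
  · norm_num
    apply hmax
    · have := hA (lam ^ 3) (by linarith)
      linarith
    · have := five_B h1 hs1 (le_trans hl3 key1)
      linarith
  · norm_num
    apply hmax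
    · have := hA (lam ^ 2) key2
      linarith
    · have := five_B h1 hs1 key1
      linarith
  · norm_num
  · norm_num
  · norm_num

/-- The case `n = 5`, `w = 1`. -/
theorem isSolution_five_one (h0 : 0 < lam) (h1 : lam < 1)
    (hlam : 1 + lam + lam ^ 7 + lam ^ 8 ≤ lam ^ 3 + 2 * lam ^ 4 + 2 * lam ^ 5) :
    IsSolution 5 1 lam (rootVal 5 lam) (geomDash 5 (infRatio 5 lam))
      (geomSweep 5 1 (by omega) le_rfl (searchRatio 5 lam)) := by
  obtain ⟨hq, hv0, hvl⟩ := root_props h0 h1 (by norm_num : 3 ≤ 5)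
  obtain ⟨hs0, hs1, hsv1, hsv2⟩ := search_ratio_props h0 h1 (by norm_num : 3 ≤ 5)
  have hv2 := five_v_ge h0 h1
  have hF := five_hF h0 h1 hs0 hs1 hsv2 hv2
  refine isSolution_root h0 h1 (by norm_num) (five_ratio h0 h1 hlam)
    (K5 lam (searchRatio 5 lam) (rootVal 5 lam)) rfl ?_ ?_ ?_
  · intro m h2 h3
    have h4 : m = 3 ∨ m = 4 := by omega
    rcases h4 with rfl | rfl
    · exact le_max_left _ _
    · have : lam ^ 2 ≤ 1 := pow_le_one₀ h0.le h1.le
      show lam ^ 2 * (1 - searchRatio 5 lam) + searchRatio 5 lam ≤ 1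
      nlinarith
  · intro m h2 h3
    have h4 : m = 3 ∨ m = 4 := by omega
    rcases h4 with rfl | rfl
    · exact le_max_right _ _
    · have h4 : lam ^ 3 ≤ 1 := pow_le_one₀ h0.le h1.le
      have h5 : lam ^ 3 * (1 - searchRatio 5 lam) + searchRatio 5 lam ≤ 1 := by nlinarith
      show lam * (1 - searchRatio 5 lam)
        + searchRatio 5 lam * (lam ^ 3 * (1 - searchRatio 5 lam) + searchRatio 5 lam) ≤ 1
      nlinarith
  · intro j m hj hjm hm
    exact hF j m hj hjm hm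

end Pool.Agent.MP_90dd8d_pr
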