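import Pool.Agent.Lib.MP_90dd8d_pr.Defs

/-!
# MP_90dd8d_pr: optimal strategies on four cells against a fast searcher, definitions
-/

set_option autoImplicit false

open MeasureTheory

namespace Pool.Agent.MP_90dd8d_pr

/-- The infiltrator's paths `1, 2, 2, 3, 4, 5`, then `1, 1, 2, 2, 3, 4, 5` and
`1, 2, 1, 2, 3, 4, 5` (positions at times `0, 1, 2, …`). -/
def detour : Fin 3 → InfPath 4
  | 0 => ⟨fun t => match t with
      | 0 => 1 | 1 => 2 | 2 => 2 | 3 => 3 | 4 => 4 | _ => 5, by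
      refine ⟨rfl, fun k => ?_⟩
      match k with
      | 0 | 1 | 2 | 3 | 4 => simp
      | k + 5 => simp⟩
  | 1 => ⟨fun t => match t with
      | 0 => 1 | 1 => 1 | 2 => 2 | 3 => 2 | 4 => 3 | 5 => 4 | _ => 5, by
      refine ⟨rfl, fun k => ?_⟩
      match k with
      | 0 | 1 | 2 | 3 | 4 | 5 => simp
      | k + 6 => simp⟩
  | 2 => ⟨fun t => match t with
      | 0 => 1 | 1 => 2 | 2 => 1 | 3 => 2 | 4 => 3 | 5 => 4 | _ => 5, by
      refine ⟨rfl, fun k => ?_⟩
      match k with
      | 0 | 1 | 2 | 3 | 4 | 5 => simp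
      | k + 6 => simp⟩

/-- The seven paths used by the infiltrator on four cells: dashes with delay `0, 1, 2, 3` and the
three detours. -/
def infPaths4 : Fin 7 → InfPath 4 :=
  ![dash 4 0, dash 4 1, dash 4 2, dash 4 3, detour 0, detour 1, detour 2]

/-- The probabilities of the seven paths `infPaths4`. -/
noncomputable def infWeights4 (lam : ℝ) : Fin 7 → ℝ :=
  ![(1 + lam) ^ 2 / (7 + 4 * lam + lam ^ 2),
    (1 + lam + lam ^ 2) / (7 + 4 * lam + lam ^ 2),
    (1 + lam ^ 2 + lam ^ 3) / (7 + 4 * lam + lam ^ 2),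
    (1 + lam) ^ 2 * (1 - lam) / (7 + 4 * lam + lam ^ 2),
    1 / (7 + 4 * lam + lam ^ 2),
    (1 - lam ^ 2) / (7 + 4 * lam + lam ^ 2),
    1 / (7 + 4 * lam + lam ^ 2)]

/-- The searcher (of speed at least `3`, on four cells) searches cell `a + 1` in the first time
unit, cell `b + 1` in the second one, and cell `4` ever after. -/
def ambush4 (w : ℕ) (hw : 3 ≤ w) (a b : Fin 3) : SearchPath 4 w :=
  ⟨fun t => if t = 0 then 1 else if t = 1 then a + 1 else if t = 2 then b + 1 else 4, by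
    have ha := a.2
    have hb := b.2
    refine ⟨by simp, fun k => ?_⟩
    match k with
    | 0 => simp; omega
    | 1 => simp; omega
    | k + 2 =>
      simp only [Nat.add_eq_zero_iff, and_false, if_false, Nat.add_eq_right, reduceCtorEq,
        OfNat.ofNat_ne_zero]
      split_ifs <;> omega⟩

/-- The five paths used by the searcher on four cells: he searches cells
`(1, 1)`, `(1, 2)`, `(1, 3)`, `(2, 1)`, `(2, 2)` in the first two time units. -/
def searchPaths4 (w : ℕ) (hw : 3 ≤ w) : Fin 5 → SearchPath 4 w :=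
  ![ambush4 w hw 0 0, ambush4 w hw 0 1, ambush4 w hw 0 2, ambush4 w hw 1 0, ambush4 w hw 1 1]

/-- The probabilities of the five paths `searchPaths4`. -/
noncomputable def searchWeights4 (lam : ℝ) : Fin 5 → ℝ :=
  ![1 / (7 + 4 * lam + lam ^ 2),
    1 / (7 + 4 * lam + lam ^ 2),
    (1 + lam) ^ 2 / (7 + 4 * lam + lam ^ 2),
    (2 + lam) / (7 + 4 * lam + lam ^ 2),
    (2 + lam) / (7 + 4 * lam + lam ^ 2)]

end Pool.Agent.MP_90dd8d_pr
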