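import Pool.Agent.Lib.MP_90dd8d_pr.Three
import Pool.Agent.Lib.MP_90dd8d_pr.FourDefs

/-!
# MP_90dd8d_pr: four cells and a searcher of speed at least three
-/

set_option autoImplicit false

open MeasureTheory

namespace Pool.Agent.MP_90dd8d_pr

/-- `1` if `a = b` and `0` otherwise. -/
def ind (a b : ℕ) : ℕ := if a = b then 1 else 0

theorem poly4 {lam : ℝ} (h0 : 0 < lam) (h1 : lam < 1) (a b c d e : ℕ)
    (ha : 1 ≤ a) (ha' : a ≤ 2) (hb : 1 ≤ b) (hb' : b ≤ 3) (hc : 1 ≤ c) (hc' : c ≤ 4)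
    (hd : 2 ≤ d) (hd' : d ≤ 4) (he : 3 ≤ e) (he' : e ≤ 4) :
    lam * (1 + lam) ^ 2 * (2 + lam)
      ≤ (1 + lam) ^ 2 * lam ^ (ind 2 a + ind 3 b + ind 4 c)
        + (1 + lam + lam ^ 2) * lam ^ (ind 1 a + ind 2 b + ind 3 c + ind 4 d)
        + (1 + lam ^ 2 + lam ^ 3) * lam ^ (ind 1 a + ind 1 b + ind 2 c + ind 3 d + ind 4 e)
        + ((1 + lam) ^ 2 * (1 - lam)) *
          lam ^ (ind 1 a + ind 1 b + ind 1 c + ind 2 d + ind 3 e + 1)
        + 1 * lam ^ (ind 2 a + ind 2 b + ind 3 c + ind 4 d)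
        + (1 - lam ^ 2) * lam ^ (ind 1 a + ind 2 b + ind 2 c + ind 3 d + ind 4 e)
        + 1 * lam ^ (ind 2 a + ind 1 b + ind 2 c + ind 3 d + ind 4 e) := by
  have hm : 0 < 1 - lam := by linarith
  have b0 : 0 ≤ (1 - lam) ^ 9 := by positivity
  have b1 : 0 ≤ lam * (1 - lam) ^ 8 := by positivity
  have b2 : 0 ≤ lam ^ 2 * (1 - lam) ^ 7 := by positivity
  have b3 : 0 ≤ lam ^ 3 * (1 - lam) ^ 6 := by positivity
  have b4 : 0 ≤ lam ^ 4 * (1 - lam) ^ 5 := by positivity
  have b5 : 0 ≤ lam ^ 5 * (1 - lam) ^ 4 := by positivity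
  have b6 : 0 ≤ lam ^ 6 * (1 - lam) ^ 3 := by positivity
  have b7 : 0 ≤ lam ^ 7 * (1 - lam) ^ 2 := by positivity
  have b8 : 0 ≤ lam ^ 8 * (1 - lam) := by positivity
  have b9 : 0 ≤ lam ^ 9 := by positivity
  interval_cases a <;> interval_cases b <;> interval_cases c <;> interval_cases d <;>
    interval_cases e <;> simp only [ind, reduceIte, Nat.reduceAdd, Nat.reduceEqDiff,
      OfNat.ofNat_ne_one, OfNat.one_ne_ofNat] <;> linarith

theorem infWeights4_nonneg {lam : ℝ} (h0 : 0 < lam) (h1 : lam < 1) (i : Fin 7) :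
    0 ≤ infWeights4 lam i := by
  have hD : 0 < 7 + 4 * lam + lam ^ 2 := by positivity
  have h2 : 0 < 1 - lam := by linarith
  have h3 : 0 < 1 - lam ^ 2 := by nlinarith
  fin_cases i <;> simp [infWeights4] <;> positivity

theorem infWeights4_sum {lam : ℝ} (h0 : 0 < lam) : HasSum (infWeights4 lam) 1 := by
  have hD : 0 < 7 + 4 * lam + lam ^ 2 := by positivity
  have h := hasSum_fintype (infWeights4 lam)
  have h2 : ∑ i, infWeights4 lam i = 1 := by
    simp only [infWeights4, Fin.sum_univ_succ, Fin.sum_univ_zero, Matrix.cons_val_zero,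
      Matrix.cons_val_succ]
    field_simp
    ring
  rwa [h2] at h

theorem searchWeights4_nonneg {lam : ℝ} (h0 : 0 < lam) (i : Fin 5) :
    0 ≤ searchWeights4 lam i := by
  have hD : 0 < 7 + 4 * lam + lam ^ 2 := by positivity
  fin_cases i <;> simp [searchWeights4] <;> positivity

theorem searchWeights4_sum {lam : ℝ} (h0 : 0 < lam) : HasSum (searchWeights4 lam) 1 := by
  have hD : 0 < 7 + 4 * lam + lam ^ 2 := by positivity
  have h := hasSum_fintype (searchWeights4 lam)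
  have h2 : ∑ i, searchWeights4 lam i = 1 := by
    simp only [searchWeights4, Fin.sum_univ_succ, Fin.sum_univ_zero, Matrix.cons_val_zero,
      Matrix.cons_val_succ]
    field_simp
    ring
  rwa [h2] at h

end Pool.Agent.MP_90dd8d_pr
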