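import Pool.Agent.Lib.MP_90dd8d_pr.FourFast

/-!
# MP_90dd8d_pr: four cells and a searcher of speed at least three, the solution
-/

set_option autoImplicit false

open MeasureTheory

namespace Pool.Agent.MP_90dd8d_pr

variable {w : ℕ}

theorem meet_ind (x y : ℕ → ℕ) (T : ℕ) (hT : 1 ≤ T) :
    meetings x y (T + 1) = meetings x y T + ind (x T) (y T) := by
  rw [meetings_succ]
  unfold ind
  by_cases h : x T = y T
  · rw [if_pos ⟨hT, h⟩, if_pos h]
  · rw [if_neg h, if_neg (fun h' => h h'.2)]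

theorem win_dash40 {lam : ℝ} (y : SearchPath 4 w) :
    winGiven lam (dash 4 0) y = lam ^ (ind 2 (y.1 1) + ind 3 (y.1 2) + ind 4 (y.1 3)) := by
  have e : winGiven lam (dash 4 0) y = lam ^ meetings (dash 4 0).1 y.1 4 :=
    winGiven_dash (by norm_num) 0 y
  rw [e, meet_ind _ _ 3 (by norm_num), meet_ind _ _ 2 (by norm_num),
    meet_ind _ _ 1 (by norm_num), meetings_one]
  simp [dash_val]

theorem win_dash41 {lam : ℝ} (y : SearchPath 4 w) :
    winGiven lam (dash 4 1) y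
      = lam ^ (ind 1 (y.1 1) + ind 2 (y.1 2) + ind 3 (y.1 3) + ind 4 (y.1 4)) := by
  have e : winGiven lam (dash 4 1) y = lam ^ meetings (dash 4 1).1 y.1 5 :=
    winGiven_dash (by norm_num) 1 y
  rw [e, meet_ind _ _ 4 (by norm_num), meet_ind _ _ 3 (by norm_num),
    meet_ind _ _ 2 (by norm_num), meet_ind _ _ 1 (by norm_num), meetings_one]
  simp [dash_val]

theorem win_dash42 {lam : ℝ} (y : SearchPath 4 w) :
    winGiven lam (dash 4 2) y
      = lam ^ (ind 1 (y.1 1) + ind 1 (y.1 2) + ind 2 (y.1 3) + ind 3 (y.1 4)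
        + ind 4 (y.1 5)) := by
  have e : winGiven lam (dash 4 2) y = lam ^ meetings (dash 4 2).1 y.1 6 :=
    winGiven_dash (by norm_num) 2 y
  rw [e, meet_ind _ _ 5 (by norm_num), meet_ind _ _ 4 (by norm_num),
    meet_ind _ _ 3 (by norm_num), meet_ind _ _ 2 (by norm_num), meet_ind _ _ 1 (by norm_num),
    meetings_one]
  simp [dash_val]

theorem win_dash43 {lam : ℝ} (y : SearchPath 4 w) :
    winGiven lam (dash 4 3) y
      = lam ^ (ind 1 (y.1 1) + ind 1 (y.1 2) + ind 1 (y.1 3) + ind 2 (y.1 4)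
        + ind 3 (y.1 5) + ind 4 (y.1 6)) := by
  have e : winGiven lam (dash 4 3) y = lam ^ meetings (dash 4 3).1 y.1 7 :=
    winGiven_dash (by norm_num) 3 y
  rw [e, meet_ind _ _ 6 (by norm_num), meet_ind _ _ 5 (by norm_num),
    meet_ind _ _ 4 (by norm_num), meet_ind _ _ 3 (by norm_num), meet_ind _ _ 2 (by norm_num),
    meet_ind _ _ 1 (by norm_num), meetings_one]
  simp [dash_val]

theorem win_detour0 {lam : ℝ} (y : SearchPath 4 w) :
    winGiven lam (detour 0) y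
      = lam ^ (ind 2 (y.1 1) + ind 2 (y.1 2) + ind 3 (y.1 3) + ind 4 (y.1 4)) := by
  rw [winGiven_eq (T := 5) (detour 0) y rfl ?_]
  · rw [meet_ind _ _ 4 (by norm_num), meet_ind _ _ 3 (by norm_num),
      meet_ind _ _ 2 (by norm_num), meet_ind _ _ 1 (by norm_num), meetings_one]
    simp [detour]
  · intro k hk
    interval_cases k <;> simp [detour]

theorem win_detour1 {lam : ℝ} (y : SearchPath 4 w) :
    winGiven lam (detour 1) y
      = lam ^ (ind 1 (y.1 1) + ind 2 (y.1 2) + ind 2 (y.1 3) + ind 3 (y.1 4)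
        + ind 4 (y.1 5)) := by
  rw [winGiven_eq (T := 6) (detour 1) y rfl ?_]
  · rw [meet_ind _ _ 5 (by norm_num), meet_ind _ _ 4 (by norm_num), meet_ind _ _ 3 (by norm_num),
      meet_ind _ _ 2 (by norm_num), meet_ind _ _ 1 (by norm_num), meetings_one]
    simp [detour]
  · intro k hk
    interval_cases k <;> simp [detour]

theorem win_detour2 {lam : ℝ} (y : SearchPath 4 w) :
    winGiven lam (detour 2) y
      = lam ^ (ind 2 (y.1 1) + ind 1 (y.1 2) + ind 2 (y.1 3) + ind 3 (y.1 4)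
        + ind 4 (y.1 5)) := by
  rw [winGiven_eq (T := 6) (detour 2) y rfl ?_]
  · rw [meet_ind _ _ 5 (by norm_num), meet_ind _ _ 4 (by norm_num), meet_ind _ _ 3 (by norm_num),
      meet_ind _ _ 2 (by norm_num), meet_ind _ _ 1 (by norm_num), meetings_one]
    simp [detour]
  · intro k hk
    interval_cases k <;> simp [detour]

theorem ind_le_one (a b : ℕ) : ind a b ≤ 1 := by
  unfold ind; split_ifs <;> omega

/-- The infiltrator's guarantee on four cells. -/
theorem lower4 {lam : ℝ} (h0 : 0 < lam) (h1 : lam < 1) (y : SearchPath 4 w) :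
    lam * (1 + lam) ^ 2 * (2 + lam) / (7 + 4 * lam + lam ^ 2)
      ≤ ∑' i, infWeights4 lam i * winGiven lam (infPaths4 i) y := by
  have hD : 0 < 7 + 4 * lam + lam ^ 2 := by positivity
  rw [tsum_fintype]
  simp only [infWeights4, infPaths4, Fin.sum_univ_succ, Fin.sum_univ_zero, Matrix.cons_val_zero,
    Matrix.cons_val_succ]
  rw [win_dash40, win_dash41, win_dash42, win_dash43, win_detour0, win_detour1, win_detour2]
  set a := if y.1 1 = 1 then 1 else 2 with ha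
  set b := if y.1 2 = 1 then 1 else if y.1 2 = 2 then 2 else 3 with hb
  set c := y.1 3 with hc
  set d := if y.1 4 = 2 then 2 else if y.1 4 = 3 then 3 else 4 with hd
  set e := if y.1 5 = 3 then 3 else 4 with he
  have ia1 : ind 1 (y.1 1) ≤ ind 1 a := by rw [ha]; unfold ind; split_ifs <;> omega
  have ia2 : ind 2 (y.1 1) ≤ ind 2 a := by rw [ha]; unfold ind; split_ifs <;> omega
  have ib1 : ind 1 (y.1 2) ≤ ind 1 b := by rw [hb]; unfold ind; split_ifs <;> omega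
  have ib2 : ind 2 (y.1 2) ≤ ind 2 b := by rw [hb]; unfold ind; split_ifs <;> omega
  have ib3 : ind 3 (y.1 2) ≤ ind 3 b := by rw [hb]; unfold ind; split_ifs <;> omega
  have id2 : ind 2 (y.1 4) ≤ ind 2 d := by rw [hd]; unfold ind; split_ifs <;> omega
  have id3 : ind 3 (y.1 4) ≤ ind 3 d := by rw [hd]; unfold ind; split_ifs <;> omega
  have id4 : ind 4 (y.1 4) ≤ ind 4 d := by rw [hd]; unfold ind; split_ifs <;> omega
  have ie3 : ind 3 (y.1 5) ≤ ind 3 e := by rw [he]; unfold ind; split_ifs <;> omega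
  have ie4 : ind 4 (y.1 5) ≤ ind 4 e := by rw [he]; unfold ind; split_ifs <;> omega
  have i6 : ind 4 (y.1 6) ≤ 1 := ind_le_one _ _
  have hc1 : 1 ≤ c := search_pos y 3
  have hc4 : c ≤ 4 := search_le (by norm_num) y 3
  have ha1 : 1 ≤ a ∧ a ≤ 2 := by rw [ha]; split_ifs <;> omega
  have hb1 : 1 ≤ b ∧ b ≤ 3 := by rw [hb]; split_ifs <;> omega
  have hd1 : 2 ≤ d ∧ d ≤ 4 := by rw [hd]; split_ifs <;> omega
  have he1 : 3 ≤ e ∧ e ≤ 4 := by rw [he]; split_ifs <;> omega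
  have key := poly4 h0 h1 a b c d e ha1.1 ha1.2 hb1.1 hb1.2 hc1 hc4 hd1.1 hd1.2 he1.1 he1.2
  have hpow : ∀ {k l : ℕ}, k ≤ l → lam ^ l ≤ lam ^ k := fun h =>
    pow_le_pow_of_le_one h0.le h1.le h
  have w0 : 0 ≤ (1 + lam) ^ 2 := by positivity
  have w1 : 0 ≤ 1 + lam + lam ^ 2 := by positivity
  have w2 : 0 ≤ 1 + lam ^ 2 + lam ^ 3 := by positivity
  have hm : 0 < 1 - lam := by linarith
  have w3 : 0 ≤ (1 + lam) ^ 2 * (1 - lam) := by positivity
  have w5 : 0 ≤ 1 - lam ^ 2 := by nlinarith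
  have t0 := mul_le_mul_of_nonneg_left
    (hpow (by omega : ind 2 (y.1 1) + ind 3 (y.1 2) + ind 4 c ≤ ind 2 a + ind 3 b + ind 4 c)) w0
  have t1 := mul_le_mul_of_nonneg_left
    (hpow (by omega : ind 1 (y.1 1) + ind 2 (y.1 2) + ind 3 c + ind 4 (y.1 4)
      ≤ ind 1 a + ind 2 b + ind 3 c + ind 4 d)) w1
  have t2 := mul_le_mul_of_nonneg_left
    (hpow (by omega : ind 1 (y.1 1) + ind 1 (y.1 2) + ind 2 c + ind 3 (y.1 4) + ind 4 (y.1 5)
      ≤ ind 1 a + ind 1 b + ind 2 c + ind 3 d + ind 4 e)) w2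
  have t3 := mul_le_mul_of_nonneg_left
    (hpow (by omega : ind 1 (y.1 1) + ind 1 (y.1 2) + ind 1 c + ind 2 (y.1 4) + ind 3 (y.1 5)
      + ind 4 (y.1 6) ≤ ind 1 a + ind 1 b + ind 1 c + ind 2 d + ind 3 e + 1)) w3
  have t4 := hpow (by omega : ind 2 (y.1 1) + ind 2 (y.1 2) + ind 3 c + ind 4 (y.1 4)
      ≤ ind 2 a + ind 2 b + ind 3 c + ind 4 d)
  have t5 := mul_le_mul_of_nonneg_left
    (hpow (by omega : ind 1 (y.1 1) + ind 2 (y.1 2) + ind 2 c + ind 3 (y.1 4) + ind 4 (y.1 5)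
      ≤ ind 1 a + ind 2 b + ind 2 c + ind 3 d + ind 4 e)) w5
  have t6 := hpow (by omega : ind 2 (y.1 1) + ind 1 (y.1 2) + ind 2 c + ind 3 (y.1 4)
      + ind 4 (y.1 5) ≤ ind 2 a + ind 1 b + ind 2 c + ind 3 d + ind 4 e)
  rw [div_le_iff₀ hD]
  have hne : 7 + 4 * lam + lam ^ 2 ≠ 0 := hD.ne'
  have hexp : ∀ p0 p1 p2 p3 p4 p5 p6 : ℝ,
      ((1 + lam) ^ 2 / (7 + 4 * lam + lam ^ 2) * p0
        + ((1 + lam + lam ^ 2) / (7 + 4 * lam + lam ^ 2) * p1
        + ((1 + lam ^ 2 + lam ^ 3) / (7 + 4 * lam + lam ^ 2) * p2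
        + ((1 + lam) ^ 2 * (1 - lam) / (7 + 4 * lam + lam ^ 2) * p3
        + (1 / (7 + 4 * lam + lam ^ 2) * p4
        + ((1 - lam ^ 2) / (7 + 4 * lam + lam ^ 2) * p5
        + (1 / (7 + 4 * lam + lam ^ 2) * p6 + 0))))))) * (7 + 4 * lam + lam ^ 2)
      = (1 + lam) ^ 2 * p0 + (1 + lam + lam ^ 2) * p1 + (1 + lam ^ 2 + lam ^ 3) * p2
        + (1 + lam) ^ 2 * (1 - lam) * p3 + p4 + (1 - lam ^ 2) * p5 + p6 := by
    intro p0 p1 p2 p3 p4 p5 p6
    field_simp
    ring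
  rw [hexp]
  linarith

/-- The searcher's guarantee on four cells. -/
theorem upper4 {lam : ℝ} (h0 : 0 < lam) (h1 : lam < 1) (hw : 3 ≤ w) (x : InfPath 4) :
    ∑' i, searchWeights4 lam i * winGiven lam x (searchPaths4 w hw i)
      ≤ lam * (1 + lam) ^ 2 * (2 + lam) / (7 + 4 * lam + lam ^ 2) := by
  have hD : 0 < 7 + 4 * lam + lam ^ 2 := by positivity
  have hne : 7 + 4 * lam + lam ^ 2 ≠ 0 := hD.ne'
  rw [tsum_fintype]
  by_cases hr : ∃ T, x.1 T = 4 + 1
  swap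
  · have h2 : ∀ z : SearchPath 4 w, winGiven lam x z = 0 := by
      intro c
      unfold winGiven
      rw [dif_neg hr]
    simp only [h2, mul_zero, Finset.sum_const_zero]
    positivity
  obtain ⟨τ, hτ, hlt, hτ2⟩ := exists_first (by norm_num) x hr
  have key : ∀ a b : Fin 3, winGiven lam x (ambush4 w hw a b)
      ≤ lam ^ (ind (x.1 1) (a + 1) + ind (x.1 2) (b + 1) + 1) := by
    intro a b
    refine le_trans (winGiven_le_of_not_arrived h0.le h1.le x (ambush4 w hw a b)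
      (T := τ + 1) ?_) ?_
    · intro k hk
      rcases Nat.lt_or_ge k τ with h | h
      · have := hlt k h; omega
      · have : k = τ := by omega
        rw [this, hτ]; norm_num
    · apply pow_le_pow_of_le_one h0.le h1.le
      rw [meetings_succ_hit (by omega)]
      · have h3 : meetings x.1 (ambush4 w hw a b).1 3 ≤ meetings x.1 (ambush4 w hw a b).1 τ :=
          meetings_mono _ _ (by omega)
        have h4 : meetings x.1 (ambush4 w hw a b).1 3
            = ind (x.1 1) (a + 1) + ind (x.1 2) (b + 1) := by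
          rw [meet_ind _ _ 2 (by norm_num), meet_ind _ _ 1 (by norm_num), meetings_one]
          simp [ambush4]
        omega
      · rw [hτ]
        simp only [ambush4]
        rw [if_neg (by omega), if_neg (by omega), if_neg (by omega)]
  have k0 := key 0 0
  have k1 := key 0 1
  have k2 := key 0 2
  have k3 := key 1 0
  have k4 := key 1 1
  simp only [searchWeights4, searchPaths4, Fin.sum_univ_succ, Fin.sum_univ_zero,
    Matrix.cons_val_zero, Matrix.cons_val_succ]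
  have hstep : ∀ p0 p1 p2 p3 p4 q0 q1 q2 q3 q4 : ℝ, p0 ≤ q0 → p1 ≤ q1 → p2 ≤ q2 → p3 ≤ q3 →
      p4 ≤ q4 → q0 + q1 + (1 + lam) ^ 2 * q2 + (2 + lam) * q3 + (2 + lam) * q4
        ≤ lam * (1 + lam) ^ 2 * (2 + lam) →
      1 / (7 + 4 * lam + lam ^ 2) * p0 + (1 / (7 + 4 * lam + lam ^ 2) * p1
        + ((1 + lam) ^ 2 / (7 + 4 * lam + lam ^ 2) * p2
        + ((2 + lam) / (7 + 4 * lam + lam ^ 2) * p3
        + ((2 + lam) / (7 + 4 * lam + lam ^ 2) * p4 + 0))))
      ≤ lam * (1 + lam) ^ 2 * (2 + lam) / (7 + 4 * lam + lam ^ 2) := by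
    intro p0 p1 p2 p3 p4 q0 q1 q2 q3 q4 g0 g1 g2 g3 g4 hq
    have e : 1 / (7 + 4 * lam + lam ^ 2) * p0 + (1 / (7 + 4 * lam + lam ^ 2) * p1
        + ((1 + lam) ^ 2 / (7 + 4 * lam + lam ^ 2) * p2
        + ((2 + lam) / (7 + 4 * lam + lam ^ 2) * p3
        + ((2 + lam) / (7 + 4 * lam + lam ^ 2) * p4 + 0))))
        = (p0 + p1 + (1 + lam) ^ 2 * p2 + (2 + lam) * p3 + (2 + lam) * p4)
          / (7 + 4 * lam + lam ^ 2) := by
      field_simp
      ring
    rw [e]
    apply div_le_div_of_nonneg_right _ hD.le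
    have u2 := mul_le_mul_of_nonneg_left g2 (by positivity : 0 ≤ (1 + lam) ^ 2)
    have u3 := mul_le_mul_of_nonneg_left g3 (by positivity : 0 ≤ 2 + lam)
    have u4 := mul_le_mul_of_nonneg_left g4 (by positivity : 0 ≤ 2 + lam)
    linarith
  apply hstep _ _ _ _ _ _ _ _ _ _ k0 k1 k2 k3 k4
  have hx0 : x.1 0 = 1 := x.2.1
  have hx1 := (x.2.2 0)
  have hx2 := (x.2.2 1)
  have hcase : (x.1 1 = 1 ∧ x.1 2 = 1) ∨ (x.1 1 = 1 ∧ x.1 2 = 2) ∨ (x.1 1 = 2 ∧ x.1 2 = 1) ∨
      (x.1 1 = 2 ∧ x.1 2 = 2) ∨ (x.1 1 = 2 ∧ x.1 2 = 3) := by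
    rw [hx0] at hx1
    simp only [zero_add] at hx1
    norm_num at hx1 hx2
    omega
  rcases hcase with h | h | h | h | h <;> rw [h.1, h.2] <;> norm_num [ind] <;> nlinarith

theorem isSolution_four_fast {lam : ℝ} (h0 : 0 < lam) (h1 : lam < 1) (hw : 3 ≤ w) :
    IsSolution 4 w lam (lam * (1 + lam) ^ 2 * (2 + lam) / (7 + 4 * lam + lam ^ 2))
      (mix (infWeights4 lam) infPaths4) (mix (searchWeights4 lam) (searchPaths4 w hw)) := by
  refine ⟨isProbabilityMeasure_mix (infWeights4_nonneg h0 h1) (infWeights4_sum h0) _,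
    isProbabilityMeasure_mix (searchWeights4_nonneg h0) (searchWeights4_sum h0) _, ?_, ?_⟩
  · intro ν' hν'
    exact le_winProb_mix h0.le h1.le (infWeights4_nonneg h0 h1) (infWeights4_sum h0) _
      (fun y => lower4 h0 h1 y) ν'
  · intro μ' hμ'
    exact winProb_mix_le h0.le h1.le (searchWeights4_nonneg h0) (searchWeights4_sum h0) _
      (fun x => upper4 h0 h1 hw x) μ'

end Pool.Agent.MP_90dd8d_pr
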