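import Pool.Agent.Lib.MP_90dd8d_pr.Quantile

/-!
# MP_90dd8d_pr: guarantees from bounds on expected numbers of meetings
-/

set_option autoImplicit false

open MeasureTheory Filter

namespace Pool.Agent.MP_90dd8d_pr

variable {n w : ℕ} {F : ℕ → ℕ → ℝ}

/-- If, against every search path, the expected number of meetings is at most `C`, then the
infiltrator wins with probability at least `lam ^ C`. -/
theorem lower_of_cdf (h : IsCdf 1 F) (h0 : ∀ t j, 0 ≤ F t j) (h1 : ∀ t j, F t j ≤ 1)
    (hz : ∀ t, F t 0 = 0) (hlim : Tendsto (fun t => F t n) atTop (nhds 0)) (hn : 1 ≤ n) {C : ℝ}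
    (hC : ∀ y : SearchPath n w, ∀ T : ℕ,
      ∑ t ∈ Finset.Ico 1 T, (F t (y.1 t) - F t (y.1 t - 1)) ≤ C)
    {lam : ℝ} (hl0 : 0 < lam) (hl1 : lam < 1)
    (ν : Measure (SearchPath n w)) [IsProbabilityMeasure ν] :
    lam ^ C ≤ winProb lam (unif.map (qInf h n)) ν := by
  have hprob : IsProbabilityMeasure (unif.map (qInf h n)) :=
    Measure.isProbabilityMeasure_map (measurable_qInf h n).aemeasurable
  have hint := integrable_winGiven hl0.le hl1.le (unif.map (qInf h n)) ν
  unfold winProb
  rw [integral_prod_symm _ hint]
  have key : ∀ y : SearchPath n w, lam ^ C ≤ ∫ x, winGiven lam x y ∂(unif.map (qInf h n)) := by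
    intro y
    have hmw : Measurable (fun x : InfPath n => winGiven lam x y) :=
      (measurable_winGiven lam).comp (measurable_id.prodMk measurable_const)
    rw [integral_map (measurable_qInf h n).aemeasurable hmw.aestronglyMeasurable]
    have hC0 : 0 ≤ C := by have := hC y 0; simpa using this
    -- the indicators of meetings
    let d : ℕ → ℝ → ENNReal := fun t u => if 1 ≤ t ∧ qpos n F u t = y.1 t then 1 else 0
    have hdm : ∀ t, Measurable (d t) := by
      intro t
      refine Measurable.ite ?_ measurable_const measurable_const
      by_cases ht : 1 ≤ t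
      · simp only [ht, true_and]
        exact (measurable_qpos t) (measurableSet_singleton _)
      · simp [ht]
    have hdint : ∀ t, ∫⁻ u, d t u ∂unif
        = if 1 ≤ t then ENNReal.ofReal (F t (y.1 t) - F t (y.1 t - 1)) else 0 := by
      intro t
      by_cases ht : 1 ≤ t
      · rw [if_pos ht, ← unif_qpos_eq (N := n) h h0 h1 hz t (search_pos y t) (search_le hn y t)]
        have hms : MeasurableSet {u | qpos n F u t = y.1 t} :=
          (measurable_qpos t) (measurableSet_singleton _)
        rw [← lintegral_indicator_one hms]
        congr 1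
        funext u
        simp only [d, ht, true_and, Set.indicator_apply, Set.mem_ofPred_eq, Pi.one_apply]
      · rw [if_neg ht]
        simp [d, ht]
    let D : ℝ → ENNReal := fun u => ∑' t, d t u
    have hDm : Measurable D := Measurable.tsum hdm
    have hDint : ∫⁻ u, D u ∂unif ≤ ENNReal.ofReal C := by
      simp only [D]
      rw [lintegral_tsum (fun t => (hdm t).aemeasurable)]
      simp only [hdint]
      apply ENNReal.tsum_le_of_sum_range_le
      intro T
      rw [← Finset.sum_filter]
      have : (Finset.range T).filter (fun t => 1 ≤ t) = Finset.Ico 1 T := by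
        ext t; simp only [Finset.mem_filter, Finset.mem_range, Finset.mem_Ico]; omega
      rw [this, ← ENNReal.ofReal_sum_of_nonneg]
      · exact ENNReal.ofReal_le_ofReal (hC y T)
      · intro t _
        have := h.mono' t (show y.1 t - 1 ≤ y.1 t by omega)
        linarith
    have hDfin : ∀ᵐ u ∂unif, D u < ⊤ := by
      apply ae_lt_top hDm
      exact ne_top_of_le_ne_top ENNReal.ofReal_ne_top hDint
    have hDreal : Integrable (fun u => (D u).toReal) unif :=
      integrable_toReal_of_lintegral_ne_top hDm.aemeasurable
        (ne_top_of_le_ne_top ENNReal.ofReal_ne_top hDint)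
    have hDle : ∫ u, (D u).toReal ∂unif ≤ C := by
      rw [integral_toReal hDm.aemeasurable hDfin]
      exact ENNReal.toReal_le_of_le_ofReal hC0 hDint
    -- pointwise bound
    have hpt : ∀ᵐ u ∂unif, lam ^ C * (1 + ((D u).toReal - C) * Real.log lam)
        ≤ winGiven lam (qInf h n u) y := by
      filter_upwards [hDfin, unif_ae] with u hu hu01
      -- arrival
      have harr : ∃ T, (qInf h n u).1 T = n + 1 := by
        have h2 : ∀ᶠ t in atTop, F t n < u := by
          exact (tendsto_order.1 hlim).2 u hu01.1
        obtain ⟨T, hT⟩ := h2.exists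
        refine ⟨T, ?_⟩
        have h3 := qpos_le (N := n) (F := F) u T
        have h4 : ¬ qpos n F u T ≤ n := by
          rw [qpos_le_iff h hu01.2 T hn le_rfl]
          exact not_lt.2 hT.le
        show qpos n F u T = n + 1
        omega
      unfold winGiven
      rw [dif_pos harr]
      set m := meetings (qInf h n u).1 y.1 (Nat.find harr) with hm
      have hmD : (m : ENNReal) ≤ D u := by
        rw [hm, meetings_eq_sum]
        push_cast
        calc ∑ k ∈ Finset.range (Nat.find harr),
              (if 1 ≤ k ∧ (qInf h n u).1 k = y.1 k then (1 : ENNReal) else 0)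
            = ∑ k ∈ Finset.range (Nat.find harr), d k u := rfl
          _ ≤ ∑' k, d k u := ENNReal.sum_le_tsum _
      have hmD' : (m : ℝ) ≤ (D u).toReal := by
        have := ENNReal.toReal_mono hu.ne hmD
        simpa using this
      have hlog : Real.log lam < 0 := Real.log_neg hl0 hl1
      have h6 : lam ^ m = Real.exp (m * Real.log lam) := by
        rw [← Real.rpow_natCast, Real.rpow_def_of_pos hl0, mul_comm]
      rw [h6, Real.rpow_def_of_pos hl0]
      have h7 : Real.exp (m * Real.log lam)
          = Real.exp (Real.log lam * C) * Real.exp ((m - C) * Real.log lam) := by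
        rw [← Real.exp_add]; congr 1; ring
      rw [h7]
      apply mul_le_mul_of_nonneg_left _ (Real.exp_pos _).le
      have h8 := Real.add_one_le_exp ((m - C) * Real.log lam)
      have h9 : ((D u).toReal - C) * Real.log lam ≤ (m - C) * Real.log lam := by
        apply mul_le_mul_of_nonpos_right _ hlog.le
        linarith
      linarith
    have hlog : Real.log lam < 0 := Real.log_neg hl0 hl1
    have hlamC : 0 < lam ^ C := Real.rpow_pos_of_pos hl0 C
    have hint2 : Integrable (fun u => lam ^ C * (1 + ((D u).toReal - C) * Real.log lam)) unif := by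
      apply Integrable.const_mul
      apply Integrable.add (integrable_const _)
      apply Integrable.mul_const
      exact hDreal.sub (integrable_const _)
    have hint3 : Integrable (fun u => winGiven lam (qInf h n u) y) unif := by
      refine Integrable.of_bound (hmw.comp (measurable_qInf h n)).aestronglyMeasurable 1 ?_
      refine Eventually.of_forall (fun u => ?_)
      rw [Real.norm_eq_abs, abs_of_nonneg (winGiven_nonneg hl0.le _ _)]
      exact winGiven_le_one hl0.le hl1.le _ _
    calc lam ^ C = lam ^ C * (1 + (C - C) * Real.log lam) := by ring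
      _ ≤ lam ^ C * (1 + ((∫ u, (D u).toReal ∂unif) - C) * Real.log lam) := by
          apply mul_le_mul_of_nonneg_left _ hlamC.le
          have := mul_le_mul_of_nonpos_right
            (show (∫ u, (D u).toReal ∂unif) - C ≤ C - C by linarith) hlog.le
          linarith
      _ = ∫ u, lam ^ C * (1 + ((D u).toReal - C) * Real.log lam) ∂unif := by
          rw [integral_const_mul]
          congr 1
          have e1 : Integrable (fun u => (D u).toReal - C) unif := hDreal.sub (integrable_const C)
          have e2 : Integrable (fun u => ((D u).toReal - C) * Real.log lam) unif := e1.mul_const _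
          have e3 : ∫ u, (1 + ((D u).toReal - C) * Real.log lam) ∂unif
              = ∫ _u, (1 : ℝ) ∂unif + ∫ u, ((D u).toReal - C) * Real.log lam ∂unif :=
            integral_add (integrable_const 1) e2
          have e4 : ∫ u, ((D u).toReal - C) * Real.log lam ∂unif
              = (∫ u, ((D u).toReal - C) ∂unif) * Real.log lam := integral_mul_const _ _
          have e5 : ∫ u, ((D u).toReal - C) ∂unif = ∫ u, (D u).toReal ∂unif - ∫ _u, C ∂unif :=
            integral_sub hDreal (integrable_const C)
          rw [e3, e4, e5]
          simp
      _ ≤ ∫ u, winGiven lam (qInf h n u) y ∂unif := integral_mono_ae hint2 hint3 hpt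
  calc lam ^ C = ∫ _y, lam ^ C ∂ν := by simp
    _ ≤ ∫ y, ∫ x, winGiven lam x y ∂(unif.map (qInf h n)) ∂ν := by
        apply integral_mono (integrable_const _) hint.integral_prod_right
        intro y
        exact key y

end Pool.Agent.MP_90dd8d_pr
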