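import Pool.Agent.Lib.MP_90dd8d_pr.FromCdf

/-!
# MP_90dd8d_pr: the searcher's guarantee from bounds on expected numbers of meetings
-/

set_option autoImplicit false

open MeasureTheory Filter

namespace Pool.Agent.MP_90dd8d_pr

variable {n w : ℕ} {F : ℕ → ℕ → ℝ}

/-- The probability that the searcher with distribution functions `F` is in cell `j` at time
`t`. -/
noncomputable def smass (n : ℕ) (F : ℕ → ℕ → ℝ) (t j : ℕ) : ℝ :=
  if j < n then F t j - F t (j - 1) else 1 - F t (n - 1)

theorem pow_le_quadratic {δ : ℝ} (h0 : 0 ≤ δ) (h1 : δ ≤ 1) (m : ℕ) :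
    (1 - δ) ^ m ≤ 1 - m * δ + m * (m - 1) / 2 * δ ^ 2 := by
  induction m with
  | zero => simp
  | succ m ih =>
    rw [pow_succ]
    have h2 : (1 - δ) ^ m * (1 - δ) ≤ (1 - m * δ + m * (m - 1) / 2 * δ ^ 2) * (1 - δ) :=
      mul_le_mul_of_nonneg_right ih (by linarith)
    refine le_trans h2 ?_
    push_cast
    have h3 : 0 ≤ (m : ℝ) * (m - 1) := by
      rcases Nat.eq_zero_or_pos m with h | h
      · rw [h]; simp
      · have : (1 : ℝ) ≤ m := by exact_mod_cast h
        apply mul_nonneg <;> linarith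
    have h4 : 0 ≤ δ ^ 3 := by positivity
    nlinarith [mul_nonneg h3 h4]

/-- For numbers `a i ∈ {0, 1}`, the square of `1 + ∑ a i` is at most
`1 + ∑ (2 i + 1) a i`, the sums being over `1 ≤ i < T`. -/
theorem sq_sum_le (a : ℕ → ℕ) (ha : ∀ i, a i ≤ 1) (T : ℕ) :
    (1 + ∑ i ∈ Finset.Ico 1 T, a i) ^ 2 ≤ 1 + ∑ i ∈ Finset.Ico 1 T, (2 * i + 1) * a i := by
  induction T with
  | zero => simp
  | succ T ih =>
    rcases Nat.eq_zero_or_pos T with h | h
    · subst h; simp
    · rw [Finset.sum_Ico_succ_top h, Finset.sum_Ico_succ_top h]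
      have h2 : ∑ i ∈ Finset.Ico 1 T, a i ≤ T - 1 := by
        calc ∑ i ∈ Finset.Ico 1 T, a i ≤ ∑ i ∈ Finset.Ico 1 T, 1 :=
              Finset.sum_le_sum (fun i _ => ha i)
          _ = T - 1 := by simp
      have h3 := ha T
      set S := ∑ i ∈ Finset.Ico 1 T, a i
      set R := ∑ i ∈ Finset.Ico 1 T, (2 * i + 1) * a i
      rcases Nat.le_one_iff_eq_zero_or_eq_one.1 h3 with h4 | h4
      · rw [h4]; simpa using ih
      · rw [h4]
        have h5 : S + 1 ≤ T := by omega
        nlinarith

/-- If, against every infiltrator's path that reaches cell `n`, the expected number of meetings up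
to the first visit to cell `n` is at least `C`, then the searcher holds the infiltrator's winning
probability down to `1 - C (1 - lam) + O((1 - lam) ^ 2)`. -/
theorem upper_of_cdf (h : IsCdf w F) (h0 : ∀ t j, 0 ≤ F t j) (h1 : ∀ t j, F t j ≤ 1)
    (hz : ∀ t, F t 0 = 0) (hn : 2 ≤ n) {C K : ℝ}
    (hC : ∀ x : InfPath n, ∀ τ : ℕ, x.1 τ = n → (∀ s, s < τ → x.1 s < n) →
      C ≤ ∑ t ∈ Finset.Ico 1 (τ + 1), smass n F t (x.1 t))
    (hK : ∀ T : ℕ, 1 + ∑ t ∈ Finset.Ico 1 T, (2 * (t : ℝ) + 1) * F t (n - 1) ≤ K)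
    {lam : ℝ} (hl0 : 0 < lam) (hl1 : lam < 1)
    (μ : Measure (InfPath n)) [IsProbabilityMeasure μ] :
    winProb lam μ (unif.map (qSearch h n (by omega)))
      ≤ 1 - C * (1 - lam) + (K / 2 + C ^ 2) * (1 - lam) ^ 2 := by
  have hn1 : 1 ≤ n := by omega
  have hprob : IsProbabilityMeasure (unif.map (qSearch h n hn1)) :=
    Measure.isProbabilityMeasure_map (measurable_qSearch h n hn1).aemeasurable
  have hint := integrable_winGiven hl0.le hl1.le μ (unif.map (qSearch h n hn1))
  have hK1 : 1 ≤ K := by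
    have := hK 0
    simpa using this
  set δ := 1 - lam with hδ
  have hδ0 : 0 < δ := by rw [hδ]; linarith
  have hδ1 : δ < 1 := by rw [hδ]; linarith
  have hlamδ : lam = 1 - δ := by rw [hδ]; ring
  unfold winProb
  rw [integral_prod _ hint]
  have key : ∀ x : InfPath n, ∫ y, winGiven lam x y ∂(unif.map (qSearch h n hn1))
      ≤ 1 - C * δ + (K / 2 + C ^ 2) * δ ^ 2 := by
    intro x
    by_cases hr : ∃ T, x.1 T = n + 1
    swap
    · have h2 : ∀ y : SearchPath n w, winGiven lam x y = 0 := by
        intro y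
        unfold winGiven
        rw [dif_neg hr]
      simp only [h2, integral_zero]
      have h3 : 0 ≤ K / 2 * δ ^ 2 := by positivity
      nlinarith [sq_nonneg (1 - C * δ / 2), sq_nonneg (C * δ)]
    obtain ⟨τ, hτ, hlt, hτ2⟩ := exists_first hn x hr
    have hmw : Measurable (fun y : SearchPath n w => winGiven lam x y) :=
      (measurable_winGiven lam).comp (measurable_const.prodMk measurable_id)
    rw [integral_map (measurable_qSearch h n hn1).aemeasurable hmw.aestronglyMeasurable]
    -- indicators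
    let a : ℝ → ℕ → ℕ := fun u t => if qpos (n - 1) F u t = x.1 t then 1 else 0
    have ha : ∀ u t, a u t ≤ 1 := by
      intro u t; simp only [a]; split_ifs <;> omega
    have ham : ∀ t, Measurable (fun u => (a u t : ℝ)) := by
      intro t
      have h2 : Measurable (fun u => a u t) := by
        refine Measurable.ite ?_ measurable_const measurable_const
        exact (measurable_qpos t) (measurableSet_singleton _)
      exact (measurable_from_top (f := fun m : ℕ => (m : ℝ))).comp h2
    have hai : ∀ t, Integrable (fun u => (a u t : ℝ)) unif := by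
      intro t
      refine Integrable.of_bound (ham t).aestronglyMeasurable 1 ?_
      refine Eventually.of_forall (fun u => ?_)
      rw [Real.norm_eq_abs, abs_of_nonneg (Nat.cast_nonneg _)]
      exact_mod_cast ha u t
    have haint : ∀ t, 1 ≤ x.1 t → x.1 t ≤ n → ∫ u, (a u t : ℝ) ∂unif = smass n F t (x.1 t) := by
      intro t hx1 hx2
      have hms : MeasurableSet {u | qpos (n - 1) F u t = x.1 t} :=
        (measurable_qpos t) (measurableSet_singleton _)
      have h2 : (fun u => (a u t : ℝ))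
          = Set.indicator {u | qpos (n - 1) F u t = x.1 t} (fun _ => (1 : ℝ)) := by
        funext u
        simp only [a, Set.indicator_apply, Set.mem_ofPred_eq]
        split_ifs <;> simp
      rw [h2, integral_indicator_const _ hms, smul_eq_mul, mul_one]
      unfold smass
      rw [Measure.real]
      by_cases hlt' : x.1 t < n
      · rw [if_pos hlt', unif_qpos_eq (N := n - 1) h h0 h1 hz t hx1 (by omega),
          ENNReal.toReal_ofReal]
        have := h.mono' t (show x.1 t - 1 ≤ x.1 t by omega)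
        linarith
      · rw [if_neg hlt']
        have h3 : x.1 t = (n - 1) + 1 := by omega
        rw [h3, unif_qpos_top (N := n - 1) h h0 hz t, ENNReal.toReal_ofReal]
        have := h1 t (n - 1)
        linarith
    have hτ1 : 1 ≤ τ := by omega
    -- pointwise bound
    have hpt : ∀ u, winGiven lam x (qSearch h n hn1 u)
        ≤ 1 - (∑ t ∈ Finset.Ico 1 (τ + 1), (a u t : ℝ)) * δ
          + (1 + ∑ t ∈ Finset.Ico 1 τ, (2 * (t : ℝ) + 1) * a u t) * (δ ^ 2 / 2) := by
      intro u
      have h2 : winGiven lam x (qSearch h n hn1 u)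
          ≤ lam ^ meetings x.1 (qSearch h n hn1 u).1 (τ + 1) := by
        apply winGiven_le_of_not_arrived hl0.le hl1.le
        intro k hk
        rcases Nat.lt_or_ge k τ with h3 | h3
        · have := hlt k h3; omega
        · have : k = τ := by omega
          rw [this, hτ]; omega
      refine le_trans h2 ?_
      have h3 : meetings x.1 (qSearch h n hn1 u).1 (τ + 1)
          = ∑ t ∈ Finset.Ico 1 (τ + 1), a u t := by
        rw [meetings_eq_sum, Finset.range_eq_Ico, Finset.sum_eq_sum_Ico_succ_bot (by omega)]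
        rw [if_neg (by omega), zero_add]
        refine Finset.sum_congr rfl (fun t ht => ?_)
        rw [Finset.mem_Ico] at ht
        simp only [a]
        by_cases h4 : x.1 t = qpos (n - 1) F u t
        · rw [if_pos ⟨ht.1, h4⟩, if_pos h4.symm]
        · rw [if_neg (fun h' => h4 h'.2), if_neg (fun h' => h4 h'.symm)]
      rw [h3, hlamδ]
      refine le_trans (pow_le_quadratic hδ0.le hδ1.le _) ?_
      have h4 : ((∑ t ∈ Finset.Ico 1 (τ + 1), a u t : ℕ) : ℝ)
          = ∑ t ∈ Finset.Ico 1 (τ + 1), (a u t : ℝ) := by push_cast; rfl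
      rw [h4]
      have h5 : (∑ t ∈ Finset.Ico 1 (τ + 1), a u t) ^ 2
          ≤ 1 + ∑ t ∈ Finset.Ico 1 τ, (2 * t + 1) * a u t := by
        refine le_trans ?_ (sq_sum_le (a u) (ha u) τ)
        apply Nat.pow_le_pow_left
        rw [Finset.sum_Ico_succ_top hτ1]
        have := ha u τ
        omega
      have h6 : (∑ t ∈ Finset.Ico 1 (τ + 1), (a u t : ℝ)) ^ 2
          ≤ 1 + ∑ t ∈ Finset.Ico 1 τ, (2 * (t : ℝ) + 1) * a u t := by exact_mod_cast h5
      have h7 : 0 ≤ ∑ t ∈ Finset.Ico 1 (τ + 1), (a u t : ℝ) :=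
        Finset.sum_nonneg (fun t _ => Nat.cast_nonneg _)
      set S := ∑ t ∈ Finset.Ico 1 (τ + 1), (a u t : ℝ)
      set R := ∑ t ∈ Finset.Ico 1 τ, (2 * (t : ℝ) + 1) * a u t
      have h8 : S * (S - 1) / 2 * δ ^ 2 ≤ (1 + R) * (δ ^ 2 / 2) := by
        have h9 : 0 ≤ δ ^ 2 := by positivity
        nlinarith
      linarith
    have hI1 : Integrable (fun u => winGiven lam x (qSearch h n hn1 u)) unif := by
      refine Integrable.of_bound (hmw.comp (measurable_qSearch h n hn1)).aestronglyMeasurable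
        1 ?_
      refine Eventually.of_forall (fun u => ?_)
      rw [Real.norm_eq_abs, abs_of_nonneg (winGiven_nonneg hl0.le _ _)]
      exact winGiven_le_one hl0.le hl1.le _ _
    have hS1 : Integrable (fun u => ∑ t ∈ Finset.Ico 1 (τ + 1), (a u t : ℝ)) unif :=
      integrable_finsetSum _ (fun t _ => hai t)
    have hS2 : Integrable (fun u => ∑ t ∈ Finset.Ico 1 τ, (2 * (t : ℝ) + 1) * a u t) unif :=
      integrable_finsetSum _ (fun t _ => (hai t).const_mul _)
    have hR1 : Integrable (fun u => 1 - (∑ t ∈ Finset.Ico 1 (τ + 1), (a u t : ℝ)) * δ) unif :=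
      (integrable_const 1).sub (hS1.mul_const _)
    have hR2 : Integrable (fun u => (1 + ∑ t ∈ Finset.Ico 1 τ, (2 * (t : ℝ) + 1) * a u t)
        * (δ ^ 2 / 2)) unif := ((integrable_const 1).add hS2).mul_const _
    have hE1 : ∫ u, (∑ t ∈ Finset.Ico 1 (τ + 1), (a u t : ℝ)) ∂unif
        = ∑ t ∈ Finset.Ico 1 (τ + 1), smass n F t (x.1 t) := by
      rw [integral_finsetSum _ (fun t _ => hai t)]
      refine Finset.sum_congr rfl (fun t ht => ?_)
      rw [Finset.mem_Ico] at ht
      apply haint t (inf_pos x t)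
      rcases Nat.lt_or_ge t τ with h3 | h3
      · exact (hlt t h3).le
      · have : t = τ := by omega
        rw [this, hτ]
    have hE2 : ∫ u, (∑ t ∈ Finset.Ico 1 τ, (2 * (t : ℝ) + 1) * a u t) ∂unif
        ≤ ∑ t ∈ Finset.Ico 1 τ, (2 * (t : ℝ) + 1) * F t (n - 1) := by
      rw [integral_finsetSum _ (fun t _ => (hai t).const_mul _)]
      refine Finset.sum_le_sum (fun t ht => ?_)
      rw [Finset.mem_Ico] at ht
      have h3 := hlt t ht.2
      rw [integral_const_mul, haint t (inf_pos x t) h3.le]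
      apply mul_le_mul_of_nonneg_left _ (by positivity)
      unfold smass
      rw [if_pos h3]
      have h4 := h.mono' t (show x.1 t ≤ n - 1 by omega)
      have h5 := h0 t (x.1 t - 1)
      linarith
    calc ∫ u, winGiven lam x (qSearch h n hn1 u) ∂unif
        ≤ ∫ u, ((1 - (∑ t ∈ Finset.Ico 1 (τ + 1), (a u t : ℝ)) * δ)
          + (1 + ∑ t ∈ Finset.Ico 1 τ, (2 * (t : ℝ) + 1) * a u t) * (δ ^ 2 / 2)) ∂unif :=
          integral_mono hI1 (hR1.add hR2) hpt
      _ = (1 - (∫ u, (∑ t ∈ Finset.Ico 1 (τ + 1), (a u t : ℝ)) ∂unif) * δ)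
          + (1 + ∫ u, (∑ t ∈ Finset.Ico 1 τ, (2 * (t : ℝ) + 1) * a u t) ∂unif)
            * (δ ^ 2 / 2) := by
          have e1 := integral_add hR1 hR2
          have e2 := integral_sub (integrable_const (1 : ℝ)) (hS1.mul_const δ)
          have e3 := integral_mul_const (μ := unif) δ
            (fun u => ∑ t ∈ Finset.Ico 1 (τ + 1), (a u t : ℝ))
          have e4 := integral_mul_const (μ := unif) (δ ^ 2 / 2)
            (fun u => 1 + ∑ t ∈ Finset.Ico 1 τ, (2 * (t : ℝ) + 1) * a u t)
          have e5 := integral_add (integrable_const (1 : ℝ)) hS2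
          have e6 : ∫ _u, (1 : ℝ) ∂unif = 1 := by simp
          rw [e6] at e2 e5
          rw [e5] at e4
          rw [e3] at e2
          rw [e2, e4] at e1
          exact e1
      _ ≤ 1 - C * δ + (K / 2 + C ^ 2) * δ ^ 2 := by
          rw [hE1]
          have h3 := hC x τ hτ hlt
          have h4 := hK τ
          have h5 : 0 ≤ δ ^ 2 := by positivity
          have h6 : C * δ ≤ (∑ t ∈ Finset.Ico 1 (τ + 1), smass n F t (x.1 t)) * δ :=
            mul_le_mul_of_nonneg_right h3 hδ0.le
          have h7 : (1 + ∫ u, (∑ t ∈ Finset.Ico 1 τ, (2 * (t : ℝ) + 1) * a u t) ∂unif)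
              * (δ ^ 2 / 2) ≤ K * (δ ^ 2 / 2) :=
            mul_le_mul_of_nonneg_right (by linarith) (by positivity)
          have h8 : 0 ≤ C ^ 2 * δ ^ 2 := by positivity
          nlinarith
  calc ∫ x, ∫ y, winGiven lam x y ∂(unif.map (qSearch h n hn1)) ∂μ
      ≤ ∫ _x, (1 - C * δ + (K / 2 + C ^ 2) * δ ^ 2) ∂μ := by
        apply integral_mono hint.integral_prod_left (integrable_const _)
        intro x
        exact key x
    _ = 1 - C * δ + (K / 2 + C ^ 2) * δ ^ 2 := by simp

end Pool.Agent.MP_90dd8d_pr
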