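import Pool.Agent.Lib.MP_90dd8d_pr.Paths

/-!
# MP_90dd8d_pr: the infiltrator's guarantee against a searcher of speed one
-/

set_option autoImplicit false

open MeasureTheory

namespace Pool.Agent.MP_90dd8d_pr

variable {n w : ℕ}

theorem meetings_const {x y : ℕ → ℕ} {S T : ℕ} (h : ∀ k, S ≤ k → k < T → x k ≠ y k)
    (hST : S ≤ T) : meetings x y T = meetings x y S := by
  induction T with
  | zero =>
    have : S = 0 := by omega
    rw [this]
  | succ T ih =>
    rcases Nat.lt_or_ge T S with h' | h'
    · have : S = T + 1 := by omega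
      rw [this]
    · rw [meetings_succ_miss (h T h' (by omega))]
      exact ih (fun k h1 h2 => h k h1 (by omega)) h'

theorem winGiven_dash {lam : ℝ} (hn : 1 ≤ n) (d : ℕ) (y : SearchPath n w) :
    winGiven lam (dash n d) y = lam ^ meetings (dash n d).1 y.1 (d + n) := by
  apply winGiven_eq
  · rw [dash_val]; omega
  · intro k hk
    rw [dash_val]; omega

/-- Once a delayed dasher is ahead of a searcher of speed one, he is never met again. -/
theorem winGiven_dash_released {lam : ℝ} (hn : 1 ≤ n) (d t : ℕ) (y : SearchPath n 1)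
    (hd : d < t + 1 - y.1 t) :
    winGiven lam (dash n d) y = lam ^ meetings (dash n d).1 y.1 (t + 1) := by
  rw [winGiven_dash hn]
  have hspeed : ∀ u, y.1 (t + u) ≤ y.1 t + u := by
    intro u
    induction u with
    | zero => simp
    | succ u ih =>
      have := (y.2.2 (t + u)).2.1
      have e : t + (u + 1) = t + u + 1 := by ring
      rw [e]; omega
  have hahead : ∀ k, t + 1 ≤ k → (dash n d).1 k ≠ y.1 k := by
    intro k hk
    rw [dash_val]
    obtain ⟨u, rfl⟩ : ∃ u, k = t + u := ⟨k - t, by omega⟩
    have h1 := hspeed u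
    have h2 := search_le hn y (t + u)
    omega
  rcases Nat.le_total (t + 1) (d + n) with h | h
  · congr 1
    exact meetings_const (fun k h1 _ => hahead k h1) h
  · congr 1
    symm
    apply meetings_const _ h
    intro k h1 _
    rw [dash_val]
    have h2 := search_le hn y k
    omega

/-- The key inequality on the possible continuations of the searcher. -/
theorem key_ineq {lam r : ℝ} (h0 : 0 < lam) (h1 : lam < 1) (hr1 : r < 1)
    (hr : r ≤ lam ^ (n - 3)) {j m : ℕ} (hj : 2 ≤ j) (hjm : j ≤ m) (hm : m ≤ n) :
    lam ^ (n + 1 - j) * (1 - r) + lam * r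
      ≤ lam ^ (m - j + 1) * (1 - r) + r * (lam ^ (n + 1 - m) * (1 - r) + lam * r) := by
  have e1 : lam ^ (n + 1 - j) = lam * (lam ^ (m - j) * lam ^ (n - m)) := by
    rw [← pow_add, ← pow_succ']; congr 1; omega
  have e2 : lam ^ (n + 1 - m) = lam * lam ^ (n - m) := by
    rw [← pow_succ']; congr 1; omega
  have e3 : lam ^ (m - j + 1) = lam * lam ^ (m - j) := by rw [← pow_succ']
  rw [e1, e2, e3]
  have hQ : lam ^ (n - m) ≤ 1 := pow_le_one₀ h0.le h1.le
  have key : 0 ≤ (lam ^ (m - j) - r) * (1 - lam ^ (n - m)) := by
    rcases Nat.eq_or_lt_of_le hm with h | h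
    · rw [h]; simp
    · have h2 : lam ^ (n - 3) ≤ lam ^ (m - j) := by
        apply pow_le_pow_of_le_one h0.le h1.le; omega
      exact mul_nonneg (by linarith) (by linarith)
  have h3 : 0 ≤ lam * (1 - r) * ((lam ^ (m - j) - r) * (1 - lam ^ (n - m))) := by
    apply mul_nonneg _ key
    exact mul_nonneg h0.le (by linarith)
  nlinarith [h3]

/-- The infiltrator's guarantee for geometrically delayed dashes, speed one. -/
theorem lower_pointwise {lam r v : ℝ} (hn : 2 ≤ n) (h0 : 0 < lam) (h1 : lam < 1)
    (hr0 : 0 < r) (hr1 : r < 1) (hv0 : 0 ≤ v)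
    (hv1 : v = (1 - r) + lam * r * v)
    (hv2 : v = lam ^ (n - 1) * (1 - r) + lam * r)
    (hr : r ≤ lam ^ (n - 3)) (y : SearchPath n 1) :
    v ≤ ∑' d : ℕ, ((1 - r) * r ^ d) * winGiven lam (dash n d) y := by
  have hr1' : 0 < 1 - r := by linarith
  set c : ℕ → ℕ → ℕ := fun d t => meetings (dash n d).1 y.1 (t + 1) with hc
  have hc0 : ∀ d, c d 0 = 0 := fun d => by simp only [hc]; exact meetings_one _ _
  have hhit : ∀ d t, min (t + 1 - d + 1) (n + 1) = y.1 (t + 1) → c d (t + 1) = c d t + 1 := by
    intro d t h
    exact meetings_succ_hit (by omega) h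
  have hmiss : ∀ d t, min (t + 1 - d + 1) (n + 1) ≠ y.1 (t + 1) → c d (t + 1) = c d t := by
    intro d t h
    exact meetings_succ_miss h
  set W : ℕ → ℝ := fun d => winGiven lam (dash n d) y with hW
  have hWrel : ∀ t d, d < t + 1 - y.1 t → W d = lam ^ c d t := by
    intro t d hd
    exact winGiven_dash_released (by omega) d t y hd
  set p : ℕ → ℝ := fun d => (1 - r) * r ^ d with hp
  have inv : ∀ t, ∃ h : ℕ,
      (y.1 t = 1 → (∀ d, t ≤ d → c d t = h) ∧
        v ≤ ∑ d ∈ Finset.range t, p d * W d + v * (lam ^ h * r ^ t)) ∧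
      (2 ≤ y.1 t → (∀ d, t + 1 - y.1 t < d → c d t = h) ∧
        (∀ m, y.1 t ≤ m → m ≤ n →
          v ≤ ∑ d ∈ Finset.range (t + 1 - y.1 t), p d * W d
            + lam ^ (m - y.1 t) * (p (t + 1 - y.1 t) * lam ^ c (t + 1 - y.1 t) t)
            + (lam ^ (n + 1 - m) * (1 - r) + lam * r) *
              (lam ^ h * r ^ (t + 1 - y.1 t + 1)))) := by
    intro t
    induction t with
    | zero =>
      refine ⟨0, ?_, ?_⟩
      · intro _
        refine ⟨fun d _ => hc0 d, ?_⟩
        simp
      · intro h
        rw [y.2.1] at h
        omega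
    | succ t ih =>
      obtain ⟨h, ih1, ih2⟩ := ih
      have hx0 := search_pos y t
      have hx1 := search_le (by omega) y t
      have hxt := search_le_time y t
      have hy0 := search_pos y (t + 1)
      have hy1 := search_le (by omega) y (t + 1)
      have hyt := search_le_time y (t + 1)
      obtain ⟨_, hst1, hst2⟩ := y.2.2 t
      rcases Nat.lt_or_ge (y.1 t) 2 with hx | hx
      · have hx1' : y.1 t = 1 := by omega
        obtain ⟨ihh, ihv⟩ := ih1 hx1'
        rcases Nat.lt_or_ge (y.1 (t + 1)) 2 with hy | hy
        · have hy1' : y.1 (t + 1) = 1 := by omega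
          refine ⟨h + 1, fun _ => ⟨?_, ?_⟩, fun h' => by omega⟩
          · intro k hk
            rw [hhit k t (by omega), ihh k (by omega)]
          · rw [Finset.sum_range_succ]
            have h2 : W t = lam ^ h := by
              rw [hWrel (t + 1) t (by omega), hmiss t t (by omega), ihh t le_rfl]
            rw [h2]
            calc v ≤ ∑ d ∈ Finset.range t, p d * W d + v * (lam ^ h * r ^ t) := ihv
              _ = ∑ d ∈ Finset.range t, p d * W d
                  + ((1 - r) + lam * r * v) * (lam ^ h * r ^ t) := by rw [← hv1]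
              _ = _ := by simp only [hp]; ring
        · have hy2 : y.1 (t + 1) = 2 := by omega
          refine ⟨h, fun h' => by omega, fun _ => ?_⟩
          rw [hy2]
          have e1 : t + 1 + 1 - 2 = t := by omega
          rw [e1]
          refine ⟨?_, ?_⟩
          · intro k hk
            rw [hmiss k t (by omega), ihh k (by omega)]
          · intro m hm1 hm2
            rw [hhit t t (by omega), ihh t le_rfl]
            have h2 := key_ineq h0 h1 hr1 hr le_rfl hm1 hm2
            have h3 : 0 ≤ lam ^ h * r ^ t := by positivity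
            have h4 := mul_le_mul_of_nonneg_right h2 h3
            have e2 : n + 1 - 2 = n - 1 := by omega
            rw [e2, ← hv2] at h4
            calc v ≤ ∑ d ∈ Finset.range t, p d * W d + v * (lam ^ h * r ^ t) := ihv
              _ ≤ ∑ d ∈ Finset.range t, p d * W d
                + (lam ^ (m - 2 + 1) * (1 - r) + r * (lam ^ (n + 1 - m) * (1 - r) + lam * r))
                  * (lam ^ h * r ^ t) := by linarith
              _ = _ := by simp only [hp]; ring
      · obtain ⟨ihh, ihm⟩ := ih2 hx
        set j := y.1 t with hj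
        set i := t + 1 - j with hi
        set A := ∑ k ∈ Finset.range i, p k * W k with hA
        have ihj := ihm j le_rfl (by omega)
        simp only [Nat.sub_self, pow_zero, one_mul] at ihj
        have hΓ0 : 0 ≤ lam ^ h * r ^ (i + 1) := by positivity
        rcases Nat.lt_trichotomy (y.1 (t + 1)) j with hy | hy | hy
        · have hy' : y.1 (t + 1) = j - 1 := by omega
          have hWi : W i = lam ^ c i t := by
            rw [hWrel (t + 1) i (by omega), hmiss i t (by omega)]
          have hWi1 : W (i + 1) = lam ^ h := by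
            rw [hWrel (t + 1) (i + 1) (by omega), hmiss (i + 1) t (by omega),
              ihh (i + 1) (by omega)]
          have hsum : ∑ k ∈ Finset.range (i + 2), p k * W k
              = A + p i * lam ^ c i t + (1 - r) * (lam ^ h * r ^ (i + 1)) := by
            rw [Finset.sum_range_succ, Finset.sum_range_succ, hWi, hWi1]
            simp only [hp]; ring
          rcases Nat.lt_or_ge j 3 with h3 | h3
          · have hj2 : j = 2 := by omega
            have hit : i + 1 = t := by omega
            refine ⟨h + 1, fun _ => ⟨?_, ?_⟩, fun h' => by omega⟩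
            · intro k hk
              rw [hhit k t (by omega), ihh k (by omega)]
            · have e1 : t + 1 = i + 2 := by omega
              rw [e1, hsum]
              rw [hj2] at ihj
              have e2 : n + 1 - 2 = n - 1 := by omega
              rw [e2, ← hv2] at ihj
              calc v ≤ A + p i * lam ^ c i t + v * (lam ^ h * r ^ (i + 1)) := ihj
                _ = A + p i * lam ^ c i t
                    + ((1 - r) + lam * r * v) * (lam ^ h * r ^ (i + 1)) := by rw [← hv1]
                _ = _ := by ring
          · refine ⟨h, fun h' => by omega, fun _ => ?_⟩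
            have e1 : t + 1 + 1 - y.1 (t + 1) = i + 2 := by omega
            rw [e1, hsum]
            refine ⟨?_, ?_⟩
            · intro k hk
              rw [hmiss k t (by omega), ihh k (by omega)]
            · intro m hm1 hm2
              rw [hy'] at hm1 ⊢
              rw [hhit (i + 2) t (by omega), ihh (i + 2) (by omega)]
              have h2 := key_ineq h0 h1 hr1 hr (by omega : 2 ≤ j - 1) hm1 hm2
              have h4 := mul_le_mul_of_nonneg_right
                (mul_le_mul_of_nonneg_left h2 hr0.le) hΓ0
              -- going back is worse than staying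
              have h5 : lam ^ (n + 1 - j) * (1 - r) + lam * r
                  ≤ (1 - r) + r * (lam ^ (n + 1 - (j - 1)) * (1 - r) + lam * r) := by
                have e2 : lam ^ (n + 1 - (j - 1)) = lam * lam ^ (n + 1 - j) := by
                  rw [← pow_succ']; congr 1; omega
                rw [e2]
                have hQ : lam ^ (n + 1 - j) ≤ 1 := pow_le_one₀ h0.le h1.le
                have h6 : 0 ≤ (1 - r) * ((1 - lam ^ (n + 1 - j)) * (1 - lam * r)) := by
                  apply mul_nonneg hr1'.le
                  apply mul_nonneg (by linarith)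
                  nlinarith
                nlinarith [h6]
              have h6 := mul_le_mul_of_nonneg_right h5 hΓ0
              calc v ≤ A + p i * lam ^ c i t
                    + (lam ^ (n + 1 - j) * (1 - r) + lam * r) * (lam ^ h * r ^ (i + 1)) := ihj
                _ ≤ A + p i * lam ^ c i t + ((1 - r)
                    + r * (lam ^ (n + 1 - (j - 1)) * (1 - r) + lam * r))
                      * (lam ^ h * r ^ (i + 1)) := by linarith
                _ = A + p i * lam ^ c i t + (1 - r) * (lam ^ h * r ^ (i + 1))
                    + r * (lam ^ (n + 1 - (j - 1)) * (1 - r) + lam * r)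
                      * (lam ^ h * r ^ (i + 1)) := by ring
                _ ≤ A + p i * lam ^ c i t + (1 - r) * (lam ^ h * r ^ (i + 1))
                    + r * (lam ^ (m - (j - 1) + 1) * (1 - r)
                      + r * (lam ^ (n + 1 - m) * (1 - r) + lam * r))
                      * (lam ^ h * r ^ (i + 1)) := by linarith
                _ = _ := by simp only [hp]; ring
        · refine ⟨h, fun h' => by omega, fun _ => ?_⟩
          have hWi : W i = lam ^ c i t := by
            rw [hWrel (t + 1) i (by omega), hmiss i t (by omega)]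
          have e1 : t + 1 + 1 - y.1 (t + 1) = i + 1 := by omega
          rw [e1, Finset.sum_range_succ, hWi]
          refine ⟨?_, ?_⟩
          · intro k hk
            rw [hmiss k t (by omega), ihh k (by omega)]
          · intro m hm1 hm2
            rw [hy] at hm1 ⊢
            rw [hhit (i + 1) t (by omega), ihh (i + 1) (by omega)]
            have h2 := key_ineq h0 h1 hr1 hr hx hm1 hm2
            have h4 := mul_le_mul_of_nonneg_right h2 hΓ0
            calc v ≤ A + p i * lam ^ c i t
                  + (lam ^ (n + 1 - j) * (1 - r) + lam * r) * (lam ^ h * r ^ (i + 1)) := ihj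
              _ ≤ A + p i * lam ^ c i t + (lam ^ (m - j + 1) * (1 - r)
                  + r * (lam ^ (n + 1 - m) * (1 - r) + lam * r)) * (lam ^ h * r ^ (i + 1)) := by
                  linarith
              _ = _ := by simp only [hp]; ring
        · have hy' : y.1 (t + 1) = j + 1 := by omega
          refine ⟨h, fun h' => by omega, fun _ => ?_⟩
          have e1 : t + 1 + 1 - y.1 (t + 1) = i := by omega
          rw [e1, hy']
          refine ⟨?_, ?_⟩
          · intro k hk
            rw [hmiss k t (by omega), ihh k (by omega)]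
          · intro m hm1 hm2
            rw [hhit i t (by omega)]
            have h2 := ihm m (by omega) hm2
            have e2 : lam ^ (m - j) = lam ^ (m - (j + 1)) * lam := by
              rw [← pow_succ]; congr 1; omega
            rw [e2] at h2
            calc v ≤ _ := h2
              _ = _ := by ring
  -- conclusion
  have hW0 : ∀ d, 0 ≤ W d := fun d => winGiven_nonneg h0.le _ _
  have hW1 : ∀ d, W d ≤ 1 := fun d => winGiven_le_one h0.le h1.le _ _
  have hp0 : ∀ d, 0 ≤ p d := fun d => by simp only [hp]; positivity
  have hsumm : Summable (fun d => p d * W d) := by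
    refine Summable.of_nonneg_of_le (fun d => mul_nonneg (hp0 d) (hW0 d)) (fun d => ?_)
      (hasSum_geom hr0.le hr1).summable
    calc p d * W d ≤ p d * 1 := mul_le_mul_of_nonneg_left (hW1 d) (hp0 d)
      _ = (1 - r) * r ^ d := by rw [mul_one]
  have hpart : ∀ N, ∑ d ∈ Finset.range N, p d * W d ≤ ∑' d, p d * W d := fun N =>
    hsumm.sum_le_tsum _ (fun d _ => mul_nonneg (hp0 d) (hW0 d))
  have hbd : ∀ t, v ≤ ∑' d, p d * W d + 2 * r ^ (t + 1 - n) := by
    intro t
    obtain ⟨h, ha, hb⟩ := inv t
    have hx0 := search_pos y t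
    have hx1 := search_le (by omega) y t
    have hv1' : v ≤ 1 := by
      rw [hv2]
      have : lam ^ (n - 1) ≤ 1 := pow_le_one₀ h0.le h1.le
      nlinarith
    have hlh : lam ^ h ≤ 1 := pow_le_one₀ h0.le h1.le
    rcases Nat.lt_or_ge (y.1 t) 2 with hx | hx
    · have h2 := (ha (by omega)).2
      have h3 : v * (lam ^ h * r ^ t) ≤ r ^ (t + 1 - n) := by
        have h4 : r ^ t ≤ r ^ (t + 1 - n) := by
          apply pow_le_pow_of_le_one hr0.le hr1.le; omega
        have h5 : v * lam ^ h ≤ 1 := by
          have : 0 < lam ^ h := by positivity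
          nlinarith
        have h6 : 0 < r ^ t := by positivity
        calc v * (lam ^ h * r ^ t) = (v * lam ^ h) * r ^ t := by ring
          _ ≤ 1 * r ^ t := by gcongr
          _ ≤ r ^ (t + 1 - n) := by rw [one_mul]; exact h4
      have h4 := hpart t
      have h5 : 0 < r ^ (t + 1 - n) := by positivity
      linarith
    · have h2 := (hb hx).2 (y.1 t) le_rfl hx1
      rw [Nat.sub_self, pow_zero, one_mul] at h2
      have h3 : p (t + 1 - y.1 t) * lam ^ c (t + 1 - y.1 t) t ≤ r ^ (t + 1 - n) := by
        have h4 : r ^ (t + 1 - y.1 t) ≤ r ^ (t + 1 - n) := by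
          apply pow_le_pow_of_le_one hr0.le hr1.le; omega
        have h5 : lam ^ c (t + 1 - y.1 t) t ≤ 1 := pow_le_one₀ h0.le h1.le
        have h6 : 0 < r ^ (t + 1 - y.1 t) := by positivity
        calc p (t + 1 - y.1 t) * lam ^ c (t + 1 - y.1 t) t
            ≤ p (t + 1 - y.1 t) * 1 := mul_le_mul_of_nonneg_left h5 (hp0 _)
          _ = (1 - r) * r ^ (t + 1 - y.1 t) := by rw [mul_one]
          _ ≤ 1 * r ^ (t + 1 - y.1 t) := by gcongr; linarith
          _ ≤ r ^ (t + 1 - n) := by rw [one_mul]; exact h4
      have h4 : (lam ^ (n + 1 - y.1 t) * (1 - r) + lam * r)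
          * (lam ^ h * r ^ (t + 1 - y.1 t + 1)) ≤ r ^ (t + 1 - n) := by
        have h4 : r ^ (t + 1 - y.1 t + 1) ≤ r ^ (t + 1 - n) := by
          apply pow_le_pow_of_le_one hr0.le hr1.le; omega
        have h5 : lam ^ (n + 1 - y.1 t) ≤ 1 := pow_le_one₀ h0.le h1.le
        have h6 : 0 < r ^ (t + 1 - y.1 t + 1) := by positivity
        have h7 : 0 < lam ^ h := by positivity
        have h8 : lam ^ (n + 1 - y.1 t) * (1 - r) + lam * r ≤ 1 := by nlinarith
        have h9 : 0 ≤ lam ^ (n + 1 - y.1 t) * (1 - r) + lam * r := by positivity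
        calc (lam ^ (n + 1 - y.1 t) * (1 - r) + lam * r)
              * (lam ^ h * r ^ (t + 1 - y.1 t + 1))
            ≤ 1 * (1 * r ^ (t + 1 - y.1 t + 1)) := by gcongr
          _ ≤ r ^ (t + 1 - n) := by rw [one_mul, one_mul]; exact h4
      have h5 := hpart (t + 1 - y.1 t)
      linarith
  have hlim : Filter.Tendsto (fun t : ℕ => ∑' d, p d * W d + 2 * r ^ (t + 1 - n))
      Filter.atTop (nhds (∑' d, p d * W d + 2 * 0)) := by
    apply Filter.Tendsto.const_add
    apply Filter.Tendsto.const_mul
    have h2 := tendsto_pow_atTop_nhds_zero_of_lt_one hr0.le hr1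
    apply h2.comp
    exact Filter.tendsto_atTop_atTop.2 (fun b => ⟨b + n, fun a ha => by omega⟩)
  have := ge_of_tendsto' hlim hbd
  simpa using this

end Pool.Agent.MP_90dd8d_pr
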