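import Pool.Agent.Lib.MP_90dd8d_pr.FastUpper

/-!
# MP_90dd8d_pr: the parameters of the first-order solution
-/

set_option autoImplicit false

open MeasureTheory Filter

namespace Pool.Agent.MP_90dd8d_pr

variable {n m k w : ℕ}

theorem infLaw_eq {F : ℕ → ℕ → ℝ} (h : IsCdf 1 F) (n : ℕ) : infLaw n F = unif.map (qInf h n) := by
  unfold infLaw
  congr 1
  funext u
  exact dif_pos (qInf h n u).2

theorem searchLaw_eq {F : ℕ → ℕ → ℝ} (h : IsCdf w F) (hn : 1 ≤ n) (hw : 1 ≤ w) :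
    searchLaw n w hn hw F = unif.map (qSearch h n hn) := by
  unfold searchLaw
  congr 1
  funext u
  exact dif_pos (qSearch h n hn u).2

/-- The bound for the second moments. -/
theorem exists_bound {s : ℝ} (h0 : 0 ≤ s) (h1 : s < 1) (N : ℕ) : ∃ K : ℝ, ∀ T : ℕ,
    1 + ∑ t ∈ Finset.Ico 1 T, (2 * (t : ℝ) + 1) * s ^ (t - N) ≤ K := by
  have hs : Summable (fun t : ℕ => (2 * (t : ℝ) + 1) * s ^ (t - N)) := by
    rw [← summable_nat_add_iff N]
    have hn1 : ‖s‖ < 1 := by rw [Real.norm_eq_abs, abs_of_nonneg h0]; exact h1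
    have e1 := summable_pow_mul_geometric_of_norm_lt_one 1 hn1
    have e0 := summable_pow_mul_geometric_of_norm_lt_one 0 hn1
    have e2 := (e1.mul_left 2).add (e0.mul_left (2 * (N : ℝ) + 1))
    refine e2.congr (fun t => ?_)
    rw [Nat.add_sub_cancel]
    push_cast
    ring
  refine ⟨1 + ∑' t : ℕ, (2 * (t : ℝ) + 1) * s ^ (t - N), fun T => ?_⟩
  have := hs.sum_le_tsum (Finset.Ico 1 T) (fun t _ => by positivity)
  linarith

theorem harmonic_eq (N : ℕ) (hN : 1 ≤ N) : (harmonic N : ℝ) = early N 0 + 1 := by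
  unfold harmonic early
  push_cast
  rw [Finset.range_eq_Ico, Finset.sum_eq_sum_Ico_succ_bot (by omega)]
  push_cast
  have : ∀ i : ℕ, ((i : ℝ) + 1)⁻¹ = 1 / ((i : ℝ) + 1) := fun i => by rw [one_div]
  simp only [this]
  ring

theorem fastRoot_spec (hn : 2 ≤ n) : 0 < fastRoot n m
    ∧ m * fastRoot n m ^ 2 + ((n : ℝ) - 1) * fastRoot n m = 1 := by
  have hn' : (2 : ℝ) ≤ n := by exact_mod_cast hn
  have hm0 : (0 : ℝ) ≤ m := Nat.cast_nonneg m
  set A := (n : ℝ) - 1 with hA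
  have hA0 : 1 ≤ A := by linarith
  set R := Real.sqrt (A ^ 2 + 4 * m) with hR
  have hR2 : R ^ 2 = A ^ 2 + 4 * m := Real.sq_sqrt (by positivity)
  have hR0 : 0 ≤ R := Real.sqrt_nonneg _
  have hpos : 0 < A + R := by linarith
  have hb : fastRoot n m = 2 / (A + R) := rfl
  rw [hb]
  refine ⟨by positivity, ?_⟩
  field_simp
  nlinarith

theorem fastPar (hn : 2 ≤ n) (hw : 1 ≤ w) (h : (n - 1 - w) ^ 2 ≤ n - 2) :
    FastPar n (n - 1 - w) w (fastRoot n (n - 1 - w))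
      (fastRoot n (n - 1 - w) / (1 + ((n - 1 - w : ℕ) : ℝ) * fastRoot n (n - 1 - w)))
      (((n - 1 - w : ℕ) : ℝ) *
        (fastRoot n (n - 1 - w) / (1 + ((n - 1 - w : ℕ) : ℝ) * fastRoot n (n - 1 - w)))) := by
  obtain ⟨hb0, hb⟩ := fastRoot_spec (m := n - 1 - w) hn
  set m := n - 1 - w with hm
  set b := fastRoot n m with hbdef
  have hm0 : (0 : ℝ) ≤ m := Nat.cast_nonneg m
  have hn' : (2 : ℝ) ≤ n := by exact_mod_cast hn
  have hpos : 0 < 1 + (m : ℝ) * b := by positivity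
  have hmn : m ≤ n - 2 := by
    rcases Nat.eq_zero_or_pos m with h1 | h1
    · omega
    · calc m ≤ m ^ 2 := by nlinarith
        _ ≤ n - 2 := h
  have hsq : (m : ℝ) ^ 2 ≤ (n : ℝ) - 2 := by
    have : m ^ 2 + 2 ≤ n := by omega
    have : (m : ℝ) ^ 2 + 2 ≤ n := by exact_mod_cast this
    linarith
  refine ⟨hn, hmn, hw, by omega, hb0.le, by positivity, rfl, ?_, ?_, ?_, ?_⟩
  · rw [← mul_div_assoc, div_lt_one hpos]
    linarith
  · field_simp
    linarith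
  · field_simp
  · -- `m - 1 ≤ (n - 2) c m`
    have h1 : ((n : ℝ) - 1) * b ≤ 1 := by
      have : 0 ≤ (m : ℝ) * b ^ 2 := by positivity
      linarith
    have h2 : ((m : ℝ) ^ 2) * b ≤ ((n : ℝ) - 2) * b := mul_le_mul_of_nonneg_right hsq hb0.le
    have h3 : (m : ℝ) ^ 2 * b + b ≤ 1 := by linarith
    have e : ((n : ℝ) - 2) * (b / (1 + (m : ℝ) * b)) * m
        = (((n : ℝ) - 2) * b * m) / (1 + (m : ℝ) * b) := by ring
    rw [e, le_div_iff₀ hpos]
    -- `(m - 1) (1 + m b) ≤ (n - 2) b m`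
    have h4 : ((n : ℝ) - 2) * b = 1 - b - m * b ^ 2 := by linarith
    rw [h4]
    nlinarith [mul_nonneg hm0 hb0.le, mul_nonneg (mul_nonneg hm0 hb0.le) hb0.le]

theorem slowRoot_spec (hk : 1 ≤ k) (hkn : k + 1 ≤ n) : 0 < slowRoot n k
    ∧ slowRoot n k ^ 2 = ((k : ℝ) - 1) * slowRoot n k + k * ((n : ℝ) - k)
    ∧ (k : ℝ) - 1 ≤ slowRoot n k := by
  have hk' : (1 : ℝ) ≤ k := by exact_mod_cast hk
  have hkn' : (k : ℝ) + 1 ≤ n := by exact_mod_cast hkn
  have hM : 0 < (k : ℝ) * ((n : ℝ) - k) := mul_pos (by linarith) (by linarith)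
  set A := (k : ℝ) - 1 with hA
  have hA0 : 0 ≤ A := by linarith
  have hdef : slowRoot n k = (A + Real.sqrt (A ^ 2 + 4 * k * ((n : ℝ) - k))) / 2 := rfl
  set R := Real.sqrt (A ^ 2 + 4 * k * ((n : ℝ) - k)) with hR
  have hR2 : R ^ 2 = A ^ 2 + 4 * k * ((n : ℝ) - k) := Real.sq_sqrt (by nlinarith [sq_nonneg A])
  have hR0 : 0 ≤ R := Real.sqrt_nonneg _
  have hRA : A < R := by
    by_contra hcon
    push Not at hcon
    nlinarith
  rw [hdef]
  refine ⟨by linarith, ?_, by linarith⟩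
  nlinarith

end Pool.Agent.MP_90dd8d_pr
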