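import Pool.Agent.Lib.MP_90dd8d_pr.Basic

/-!
# MP_90dd8d_pr: delayed dashes, and the searcher's guarantee for speed one
-/

set_option autoImplicit false

open MeasureTheory

namespace Pool.Agent.MP_90dd8d_pr

variable {n w : ℕ}

theorem dash_val (n d t : ℕ) : (dash n d).1 t = min (t - d + 1) (n + 1) := rfl

theorem sweep_val (n w : ℕ) (hn : 1 ≤ n) (hw : 1 ≤ w) (k t : ℕ) :
    (sweep n w hn hw k).1 t = min (t - k + 1) n := rfl

theorem inf_pos (x : InfPath n) (t : ℕ) : 1 ≤ x.1 t := by
  cases t with
  | zero => rw [x.2.1]
  | succ t => exact (x.2.2 t).1.1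

theorem inf_le (x : InfPath n) (t : ℕ) : x.1 t ≤ n + 1 := by
  cases t with
  | zero => rw [x.2.1]; omega
  | succ t => exact (x.2.2 t).1.2

theorem inf_le_time (x : InfPath n) (t : ℕ) : x.1 t ≤ t + 1 := by
  induction t with
  | zero => rw [x.2.1]
  | succ t ih => have := (x.2.2 t).2.1; omega

theorem search_pos (y : SearchPath n w) (t : ℕ) : 1 ≤ y.1 t := by
  cases t with
  | zero => rw [y.2.1]
  | succ t => exact (y.2.2 t).1.1

theorem search_le (hn : 1 ≤ n) (y : SearchPath n w) (t : ℕ) : y.1 t ≤ n := by
  cases t with
  | zero => rw [y.2.1]; omega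
  | succ t => exact (y.2.2 t).1.2

theorem search_le_time (y : SearchPath n 1) (t : ℕ) : y.1 t ≤ t + 1 := by
  induction t with
  | zero => rw [y.2.1]
  | succ t ih => have := (y.2.2 t).2.1; omega

theorem hasSum_geom {s : ℝ} (h0 : 0 ≤ s) (h1 : s < 1) : HasSum (fun k : ℕ => (1 - s) * s ^ k) 1 := by
  have := (hasSum_geometric_of_lt_one h0 h1).mul_left (1 - s)
  rwa [mul_inv_cancel₀ (by linarith : (1 - s) ≠ 0)] at this

/-- The tail of the geometric distribution. -/
theorem tsum_geom_tail {s : ℝ} (h0 : 0 ≤ s) (h1 : s < 1) (N : ℕ) :
    ∑' k : ℕ, (1 - s) * s ^ (k + N) = s ^ N := by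
  have := (hasSum_geometric_of_lt_one h0 h1).mul_left ((1 - s) * s ^ N)
  have h2 : (fun k : ℕ => (1 - s) * s ^ N * s ^ k) = fun k : ℕ => (1 - s) * s ^ (k + N) := by
    funext k; rw [pow_add]; ring
  rw [h2] at this
  rw [this.tsum_eq]
  field_simp [(by linarith : (1 - s) ≠ 0)]

section Upper

variable {lam s v : ℝ} {K : ℕ → ℝ}

/-- The searcher's guarantee for geometrically delayed sweeps. -/
theorem upper_pointwise (hn : 3 ≤ n) (hw : 1 ≤ w) (h0 : 0 < lam) (h1 : lam < 1)
    (hs0 : 0 < s) (hs1 : s < 1) (hv0 : 0 ≤ v)
    (hv1 : v = lam * (1 - s) + lam * s * v)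
    (hv2 : v = lam ^ (n - 1) * (1 - s) + s)
    (hK2 : K 2 = v)
    (hR : ∀ m, 3 ≤ m → m ≤ n - 1 → lam ^ (n + 1 - m) * (1 - s) + s ≤ K m)
    (hB : ∀ m, 3 ≤ m → m ≤ n - 1 →
      lam * (1 - s) + s * (lam ^ (n + 2 - m) * (1 - s) + s) ≤ K m)
    (hF : ∀ j m, 2 ≤ j → j ≤ m → m ≤ n - 1 →
      lam ^ (m - j + 2) * (1 - s) + s * K m ≤ lam ^ (n + 1 - j) * (1 - s) + s)
    (x : InfPath n) :
    ∑' k : ℕ, ((1 - s) * s ^ k) * winGiven lam x (sweep n w (by omega) hw k) ≤ v := by
  classical
  have hs1' : 0 < 1 - s := by linarith
  -- if the cell `n` is never reached, the payoff is zero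
  by_cases hreach : ∃ τ, x.1 τ = n
  swap
  · have hz : ∀ k, winGiven lam x (sweep n w (by omega) hw k) = 0 := by
      intro k
      unfold winGiven
      rw [dif_neg]
      rintro ⟨T, hT⟩
      apply hreach
      -- discrete intermediate value
      have hlt : ∀ t, x.1 t < n := by
        intro t
        induction t with
        | zero => rw [x.2.1]; omega
        | succ t ih =>
          have h2 := (x.2.2 t).2.1
          have h3 : x.1 (t + 1) ≠ n := fun h => hreach ⟨t + 1, h⟩
          omega
      have := hlt T
      omega
    simp [hz, hv0]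
  -- the first time at cell `n`
  set τ := Nat.find hreach with hτ
  have hτn : x.1 τ = n := Nat.find_spec hreach
  have hτmin : ∀ t, t < τ → x.1 t ≠ n := fun t ht => Nat.find_min hreach ht
  have hlt : ∀ t, t < τ → x.1 t < n := by
    intro t
    induction t with
    | zero => intro _; rw [x.2.1]; omega
    | succ t ih =>
      intro ht
      have h1 := ih (by omega)
      have h2 := (x.2.2 t).2.1
      have h3 := hτmin (t + 1) ht
      omega
  have hτ0 : 0 < τ := by
    rcases Nat.eq_zero_or_pos τ with h | h
    · rw [h, x.2.1] at hτn; omega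
    · exact h
  -- meeting counts
  set c : ℕ → ℕ → ℕ := fun k t => meetings x.1 (sweep n w (by omega) hw k).1 (t + 1) with hc
  have hc0 : ∀ k, c k 0 = 0 := fun k => by simp only [hc]; exact meetings_one _ _
  have hhit : ∀ k t, x.1 (t + 1) = min (t + 1 - k + 1) n → c k (t + 1) = c k t + 1 := by
    intro k t h
    exact meetings_succ_hit (by omega) h
  have hmiss : ∀ k t, x.1 (t + 1) ≠ min (t + 1 - k + 1) n → c k (t + 1) = c k t := by
    intro k t h
    exact meetings_succ_miss h
  set g : ℕ → ℕ → ℝ := fun k t => ((1 - s) * s ^ k) * lam ^ c k t with hg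
  -- the invariant
  have inv : ∀ t, t < τ → ∃ h : ℕ,
      (x.1 t = 1 → (∀ k, t ≤ k → c k t = h) ∧
        lam * ∑ k ∈ Finset.range t, g k t + v * (lam ^ h * s ^ t) ≤ v) ∧
      (2 ≤ x.1 t → (∀ k, t + 1 - x.1 t < k → c k t = h) ∧
        (∀ m, x.1 t ≤ m → m ≤ n - 1 →
          lam * ∑ k ∈ Finset.range (t + 1 - x.1 t), g k t
            + lam ^ (m - x.1 t + 1) * g (t + 1 - x.1 t) t
            + K m * (lam ^ h * s ^ (t + 1 - x.1 t + 1)) ≤ v) ∧
        (lam * ∑ k ∈ Finset.range (t + 1 - x.1 t), g k t
            + lam ^ (n - x.1 t) * g (t + 1 - x.1 t) t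
            + lam ^ h * s ^ (t + 1 - x.1 t + 1) ≤ v)) := by
    intro t
    induction t with
    | zero =>
      intro _
      refine ⟨0, ?_, ?_⟩
      · intro _
        refine ⟨fun k _ => hc0 k, ?_⟩
        simp
      · intro h
        rw [x.2.1] at h
        omega
    | succ t ih =>
      intro ht
      obtain ⟨h, ih1, ih2⟩ := ih (by omega)
      have hx0 := inf_pos x t
      have hx1 := hlt t (by omega)
      have hxt := inf_le_time x t
      have hy0 := inf_pos x (t + 1)
      have hy1 := hlt (t + 1) ht
      have hyt := inf_le_time x (t + 1)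
      obtain ⟨_, hst1, hst2⟩ := x.2.2 t
      -- classes ahead of the infiltrator are not met
      have hahead : ∀ k, k < t + 2 - x.1 (t + 1) → c k (t + 1) = c k t := by
        intro k hk
        apply hmiss
        omega
      have hgahead : ∀ N, N ≤ t + 2 - x.1 (t + 1) →
          ∑ k ∈ Finset.range N, g k (t + 1) = ∑ k ∈ Finset.range N, g k t := by
        intro N hN
        refine Finset.sum_congr rfl (fun k hk => ?_)
        rw [Finset.mem_range] at hk
        simp only [hg]
        rw [hahead k (by omega)]
      -- value of a fresh class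
      have hfresh : ∀ j Γ A : ℝ, True := fun _ _ _ => trivial
      rcases Nat.lt_or_ge (x.1 t) 2 with hx | hx
      · -- at time `t` the infiltrator is in cell 1
        have hx1' : x.1 t = 1 := by omega
        obtain ⟨ihh, ihv⟩ := ih1 hx1'
        rcases Nat.lt_or_ge (x.1 (t + 1)) 2 with hy | hy
        · -- he stays there
          have hy1' : x.1 (t + 1) = 1 := by omega
          refine ⟨h + 1, fun _ => ⟨?_, ?_⟩, fun h' => by omega⟩
          · intro k hk
            rw [hhit k t (by omega), ihh k (by omega)]
          · rw [hgahead (t + 1) (by omega), Finset.sum_range_succ]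
            have h2 : g t t = (1 - s) * s ^ t * lam ^ h := by simp only [hg]; rw [ihh t le_rfl]
            rw [h2]
            have h3 : lam * (∑ k ∈ Finset.range t, g k t + (1 - s) * s ^ t * lam ^ h)
                + v * (lam ^ (h + 1) * s ^ (t + 1))
                = lam * ∑ k ∈ Finset.range t, g k t
                  + (lam * (1 - s) + lam * s * v) * (lam ^ h * s ^ t) := by ring
            rw [h3, ← hv1]
            exact ihv
        · -- he moves to cell 2
          have hy2 : x.1 (t + 1) = 2 := by omega
          refine ⟨h, fun h' => by omega, fun _ => ?_⟩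
          rw [hy2]
          have e1 : t + 1 + 1 - 2 = t := by omega
          rw [e1]
          have hgt : g t (t + 1) = lam * (1 - s) * (lam ^ h * s ^ t) := by
            simp only [hg]
            rw [hhit t t (by omega), ihh t le_rfl]
            ring
          refine ⟨?_, ?_, ?_⟩
          · intro k hk
            rw [hmiss k t (by omega), ihh k (by omega)]
          · intro m hm1 hm2
            rw [hgahead t (by omega), hgt]
            have h2 := hF 2 m le_rfl hm1 hm2
            have h3 : 0 ≤ lam ^ h * s ^ t := by positivity
            have h4 := mul_le_mul_of_nonneg_right h2 h3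
            have e2 : n + 1 - 2 = n - 1 := by omega
            rw [e2, ← hv2] at h4
            calc _ = lam * ∑ k ∈ Finset.range t, g k t
                  + (lam ^ (m - 2 + 2) * (1 - s) + s * K m) * (lam ^ h * s ^ t) := by ring
              _ ≤ lam * ∑ k ∈ Finset.range t, g k t + v * (lam ^ h * s ^ t) := by linarith
              _ ≤ v := ihv
          · rw [hgahead t (by omega), hgt]
            have e2 : lam ^ (n - 1) = lam ^ (n - 2) * lam := by
              rw [← pow_succ]; congr 1; omega
            calc _ = lam * ∑ k ∈ Finset.range t, g k t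
                  + (lam ^ (n - 1) * (1 - s) + s) * (lam ^ h * s ^ t) := by rw [e2]; ring
              _ ≤ v := by rw [← hv2]; exact ihv
      · -- at time `t` the infiltrator is in a cell `j ≥ 2`
        obtain ⟨ihh, ihm, ihd⟩ := ih2 hx
        set j := x.1 t with hj
        set i := t + 1 - j with hi
        set A := ∑ k ∈ Finset.range i, g k t with hA
        have hKj : lam ^ (n + 1 - j) * (1 - s) + s ≤ K j := by
          rcases Nat.lt_or_ge j 3 with h3 | h3
          · have : j = 2 := by omega
            rw [this, hK2]
            have e2 : n + 1 - 2 = n - 1 := by omega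
            rw [e2, ← hv2]
          · exact hR j h3 (by omega)
        have ihj := ihm j le_rfl (by omega)
        simp only [Nat.sub_self, zero_add, pow_one] at ihj
        have hΓ0 : 0 ≤ lam ^ h * s ^ (i + 1) := by positivity
        have hgi1 : g (i + 1) t = (1 - s) * (lam ^ h * s ^ (i + 1)) := by
          simp only [hg]; rw [ihh (i + 1) (by omega)]; ring
        rcases Nat.lt_trichotomy (x.1 (t + 1)) j with hy | hy | hy
        · -- one cell back
          have hy' : x.1 (t + 1) = j - 1 := by omega
          have hsum : ∑ k ∈ Finset.range (i + 2), g k (t + 1)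
              = A + g i t + (1 - s) * (lam ^ h * s ^ (i + 1)) := by
            rw [hgahead (i + 2) (by omega), Finset.sum_range_succ, Finset.sum_range_succ, hgi1]
          rcases Nat.lt_or_ge j 3 with h3 | h3
          · have hj2 : j = 2 := by omega
            have hit : i + 1 = t := by omega
            refine ⟨h + 1, fun _ => ⟨?_, ?_⟩, fun h' => by omega⟩
            · intro k hk
              rw [hhit k t (by omega), ihh k (by omega)]
            · have e1 : t + 1 = i + 2 := by omega
              rw [e1] at hsum ⊢
              rw [hsum]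
              rw [hj2, hK2] at ihj
              calc lam * (A + g i t + (1 - s) * (lam ^ h * s ^ (i + 1)))
                    + v * (lam ^ (h + 1) * s ^ (i + 2))
                  = lam * A + lam * g i t
                    + (lam * (1 - s) + lam * s * v) * (lam ^ h * s ^ (i + 1)) := by ring
                _ ≤ v := by rw [← hv1]; exact ihj
          · refine ⟨h, fun h' => by omega, fun _ => ?_⟩
            have e1 : t + 1 + 1 - x.1 (t + 1) = i + 2 := by omega
            rw [e1, hsum]
            have hg2 : g (i + 2) (t + 1) = lam * (1 - s) * s * (lam ^ h * s ^ (i + 1)) := by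
              simp only [hg]
              rw [hhit (i + 2) t (by omega), ihh (i + 2) (by omega)]
              ring
            rw [hg2]
            have hBj := hB j h3 (by omega)
            refine ⟨?_, ?_, ?_⟩
            · intro k hk
              rw [hmiss k t (by omega), ihh k (by omega)]
            · intro m hm1 hm2
              rw [hy'] at hm1 ⊢
              have h2 := hF (j - 1) m (by omega) hm1 hm2
              have e2 : n + 1 - (j - 1) = n + 2 - j := by omega
              rw [e2] at h2
              have h4 := mul_le_mul_of_nonneg_right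
                (mul_le_mul_of_nonneg_left h2 hs0.le) hΓ0
              have h5 := mul_le_mul_of_nonneg_right hBj hΓ0
              calc _ = lam * A + lam * g i t + lam * (1 - s) * (lam ^ h * s ^ (i + 1))
                    + s * (lam ^ (m - (j - 1) + 2) * (1 - s) + s * K m)
                      * (lam ^ h * s ^ (i + 1)) := by ring
                _ ≤ lam * A + lam * g i t + lam * (1 - s) * (lam ^ h * s ^ (i + 1))
                    + s * (lam ^ (n + 2 - j) * (1 - s) + s) * (lam ^ h * s ^ (i + 1)) := by
                    linarith
                _ = lam * A + lam * g i t + (lam * (1 - s)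
                    + s * (lam ^ (n + 2 - j) * (1 - s) + s)) * (lam ^ h * s ^ (i + 1)) := by ring
                _ ≤ lam * A + lam * g i t + K j * (lam ^ h * s ^ (i + 1)) := by linarith
                _ ≤ v := ihj
            · rw [hy']
              have h5 := mul_le_mul_of_nonneg_right hBj hΓ0
              have e2 : lam ^ (n + 2 - j) = lam ^ (n - (j - 1)) * lam := by
                rw [← pow_succ]; congr 1; omega
              calc _ = lam * A + lam * g i t + (lam * (1 - s)
                    + s * (lam ^ (n + 2 - j) * (1 - s) + s)) * (lam ^ h * s ^ (i + 1)) := by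
                    rw [e2]; ring
                _ ≤ lam * A + lam * g i t + K j * (lam ^ h * s ^ (i + 1)) := by linarith
                _ ≤ v := ihj
        · -- he stays
          have hsum : ∑ k ∈ Finset.range (i + 1), g k (t + 1) = A + g i t := by
            rw [hgahead (i + 1) (by omega), Finset.sum_range_succ]
          refine ⟨h, fun h' => by omega, fun _ => ?_⟩
          have e1 : t + 1 + 1 - x.1 (t + 1) = i + 1 := by omega
          rw [e1, hsum]
          have hg2 : g (i + 1) (t + 1) = lam * (1 - s) * (lam ^ h * s ^ (i + 1)) := by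
            simp only [hg]
            rw [hhit (i + 1) t (by omega), ihh (i + 1) (by omega)]
            ring
          rw [hg2]
          have h5 := mul_le_mul_of_nonneg_right hKj hΓ0
          refine ⟨?_, ?_, ?_⟩
          · intro k hk
            rw [hmiss k t (by omega), ihh k (by omega)]
          · intro m hm1 hm2
            rw [hy] at hm1 ⊢
            have h2 := hF j m hx hm1 hm2
            have h4 := mul_le_mul_of_nonneg_right h2 hΓ0
            calc _ = lam * A + lam * g i t
                  + (lam ^ (m - j + 2) * (1 - s) + s * K m) * (lam ^ h * s ^ (i + 1)) := by ring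
              _ ≤ lam * A + lam * g i t + K j * (lam ^ h * s ^ (i + 1)) := by linarith
              _ ≤ v := ihj
          · rw [hy]
            have e2 : lam ^ (n + 1 - j) = lam ^ (n - j) * lam := by
              rw [← pow_succ]; congr 1; omega
            calc _ = lam * A + lam * g i t + (lam ^ (n + 1 - j) * (1 - s) + s)
                    * (lam ^ h * s ^ (i + 1)) := by rw [e2]; ring
              _ ≤ lam * A + lam * g i t + K j * (lam ^ h * s ^ (i + 1)) := by linarith
              _ ≤ v := ihj
        · -- one cell forward
          have hy' : x.1 (t + 1) = j + 1 := by omega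
          refine ⟨h, fun h' => by omega, fun _ => ?_⟩
          have e1 : t + 1 + 1 - x.1 (t + 1) = i := by omega
          rw [e1, hgahead i (by omega)]
          have hg2 : g i (t + 1) = lam * g i t := by
            simp only [hg]
            rw [hhit i t (by omega)]
            ring
          rw [hg2, hy']
          refine ⟨?_, ?_, ?_⟩
          · intro k hk
            rw [hmiss k t (by omega), ihh k (by omega)]
          · intro m hm1 hm2
            have h2 := ihm m (by omega) hm2
            have e2 : lam ^ (m - j + 1) = lam ^ (m - (j + 1) + 1) * lam := by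
              rw [← pow_succ]; congr 1; omega
            rw [e2] at h2
            calc _ = lam * A + lam ^ (m - (j + 1) + 1) * lam * g i t
                  + K m * (lam ^ h * s ^ (i + 1)) := by ring
              _ ≤ v := h2
          · have e2 : lam ^ (n - j) = lam ^ (n - (j + 1)) * lam := by
              rw [← pow_succ]; congr 1; omega
            rw [e2] at ihd
            calc _ = lam * A + lam ^ (n - (j + 1)) * lam * g i t
                  + lam ^ h * s ^ (i + 1) := by ring
              _ ≤ v := ihd
  -- conclusion at time `τ`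
  obtain ⟨t, ht⟩ : ∃ t, τ = t + 1 := ⟨τ - 1, by omega⟩
  obtain ⟨h, _, hinv⟩ := inv t (by omega)
  have hxt := hlt t (by omega)
  rw [ht] at hτn
  obtain ⟨_, hst1, hst2⟩ := x.2.2 t
  have hxt' : x.1 t = n - 1 := by omega
  have hlet := inf_le_time x t
  obtain ⟨hh, _, hd⟩ := hinv (by omega)
  set i := t + 1 - x.1 t with hi
  have hle : ∀ k, winGiven lam x (sweep n w (by omega) hw k) ≤ lam ^ c k (t + 1) := by
    intro k
    apply winGiven_le_of_not_arrived h0.le h1.le
    intro u hu
    rcases Nat.lt_or_ge u τ with h' | h'
    · have := hlt u h'; omega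
    · have : u = t + 1 := by omega
      rw [this, hτn]; omega
  have hgs : HasSum (fun k : ℕ => (1 - s) * s ^ k) 1 := hasSum_geom hs0.le hs1
  have hsumm : Summable (fun k : ℕ => g k (t + 1)) := by
    refine Summable.of_nonneg_of_le (fun k => ?_) (fun k => ?_) hgs.summable
    · simp only [hg]; positivity
    · simp only [hg]
      have h2 : lam ^ c k (t + 1) ≤ 1 := pow_le_one₀ h0.le h1.le
      have h3 : 0 ≤ (1 - s) * s ^ k := by positivity
      nlinarith
  have hsumm2 : Summable (fun k : ℕ =>
      ((1 - s) * s ^ k) * winGiven lam x (sweep n w (by omega) hw k)) := by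
    refine Summable.of_nonneg_of_le (fun k => ?_) (fun k => ?_) hsumm
    · have := winGiven_nonneg h0.le x (sweep n w (by omega) hw k)
      positivity
    · simp only [hg]
      have h3 : 0 ≤ (1 - s) * s ^ k := by positivity
      exact mul_le_mul_of_nonneg_left (hle k) h3
  have hbound : ∑' k : ℕ, ((1 - s) * s ^ k) * winGiven lam x (sweep n w (by omega) hw k)
      ≤ ∑' k, g k (t + 1) := by
    refine Summable.tsum_le_tsum (fun k => ?_) hsumm2 hsumm
    simp only [hg]
    have h3 : 0 ≤ (1 - s) * s ^ k := by positivity
    exact mul_le_mul_of_nonneg_left (hle k) h3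
  refine le_trans hbound ?_
  rw [← hsumm.sum_add_tsum_nat_add (i + 1)]
  have hfirst : ∑ k ∈ Finset.range (i + 1), g k (t + 1)
      = lam * ∑ k ∈ Finset.range (i + 1), g k t := by
    rw [Finset.mul_sum]
    refine Finset.sum_congr rfl (fun k hk => ?_)
    rw [Finset.mem_range] at hk
    simp only [hg]
    rw [hhit k t (by omega)]
    ring
  have hrest : ∀ k, g (k + (i + 1)) (t + 1) = lam ^ h * ((1 - s) * s ^ (k + (i + 1))) := by
    intro k
    simp only [hg]
    rw [hmiss _ t (by omega), hh _ (by omega)]
    ring
  rw [hfirst, Finset.sum_range_succ]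
  simp only [hrest]
  rw [tsum_mul_left, tsum_geom_tail hs0.le hs1]
  have e3 : n - x.1 t = 1 := by omega
  rw [e3, pow_one] at hd
  linarith

end Upper

end Pool.Agent.MP_90dd8d_pr
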