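import Pool.Agent.Lib.MP_90dd8d_pr.Three
import Pool.Agent.Lib.MP_90dd8d_pr.FirstOrderDefs

/-!
# MP_90dd8d_pr: random monotone paths with prescribed distribution functions

Given numbers `F t j`, to be thought of as the probability that the path is in one of the cells
`1, …, j` at time `t`, and a uniform random number `u`, the path is at time `t` in cell
`1 + #{j : F t j ≤ u}`.
-/

set_option autoImplicit false

open MeasureTheory

namespace Pool.Agent.MP_90dd8d_pr

/-- The properties of the distribution functions that make the paths admissible, for speed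
`w`. -/
structure IsCdf (w : ℕ) (F : ℕ → ℕ → ℝ) : Prop where
  start : ∀ j, 1 ≤ j → F 0 j = 1
  mono : ∀ t j, F t j ≤ F t (j + 1)
  anti : ∀ t j, F (t + 1) j ≤ F t j
  step : ∀ t j, F t j ≤ F (t + 1) (j + w)

theorem IsCdf.mono' {w : ℕ} {F : ℕ → ℕ → ℝ} (h : IsCdf w F) (t : ℕ) {i j : ℕ} (hij : i ≤ j) :
    F t i ≤ F t j := monotone_nat_of_le_succ (h.mono t) hij

variable {n w N : ℕ} {F : ℕ → ℕ → ℝ}

theorem qpos_zero (h : IsCdf w F) (u : ℝ) : qpos N F u 0 = 1 := by
  unfold qpos
  rw [Finset.card_eq_zero.2, add_zero]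
  rw [Finset.filter_eq_empty_iff]
  intro j hj hcon
  rw [Finset.mem_Icc] at hj
  rw [h.start j hj.1] at hcon
  linarith [hcon.1, hcon.2]

theorem qpos_pos (u : ℝ) (t : ℕ) : 1 ≤ qpos N F u t := by
  unfold qpos; omega

theorem qpos_le (u : ℝ) (t : ℕ) : qpos N F u t ≤ N + 1 := by
  unfold qpos
  have : ((Finset.Icc 1 N).filter (fun j => F t j ≤ u ∧ u < 1)).card ≤ (Finset.Icc 1 N).card :=
    Finset.card_filter_le _ _
  rw [Nat.card_Icc] at this
  omega

theorem qpos_mono (h : IsCdf w F) (u : ℝ) (t : ℕ) : qpos N F u t ≤ qpos N F u (t + 1) := by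
  unfold qpos
  apply Nat.add_le_add_left
  apply Finset.card_le_card
  intro j hj
  rw [Finset.mem_filter] at hj ⊢
  exact ⟨hj.1, le_trans (h.anti t j) hj.2.1, hj.2.2⟩

theorem qpos_step (h : IsCdf w F) (u : ℝ) (t : ℕ) : qpos N F u (t + 1) ≤ qpos N F u t + w := by
  unfold qpos
  have : (Finset.Icc 1 N).filter (fun j => F (t + 1) j ≤ u ∧ u < 1)
      ⊆ Finset.Icc 1 w
        ∪ (((Finset.Icc 1 N).filter (fun j => F t j ≤ u ∧ u < 1)).image (· + w)) := by
    intro j hj
    rw [Finset.mem_filter, Finset.mem_Icc] at hj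
    rw [Finset.mem_union]
    rcases Nat.lt_or_ge w j with h2 | h2
    · right
      rw [Finset.mem_image]
      refine ⟨j - w, ?_, by omega⟩
      rw [Finset.mem_filter, Finset.mem_Icc]
      refine ⟨⟨by omega, by omega⟩, ?_, hj.2.2⟩
      have h3 := h.step t (j - w)
      rw [Nat.sub_add_cancel (by omega)] at h3
      exact le_trans h3 hj.2.1
    · left
      rw [Finset.mem_Icc]
      omega
  have h2 := Finset.card_le_card this
  have h3 := Finset.card_union_le (Finset.Icc 1 w)
    (((Finset.Icc 1 N).filter (fun j => F t j ≤ u ∧ u < 1)).image (· + w))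
  have h4 := Finset.card_image_le (s := (Finset.Icc 1 N).filter (fun j => F t j ≤ u ∧ u < 1))
    (f := (· + w))
  rw [Nat.card_Icc] at h3
  omega

/-- For `0 ≤ u < 1`, the position is at most `j` exactly if `u < F t j`. -/
theorem qpos_le_iff (h : IsCdf w F) {u : ℝ} (hu : u < 1) (t : ℕ) {j : ℕ} (hj : 1 ≤ j)
    (hjN : j ≤ N) : qpos N F u t ≤ j ↔ u < F t j := by
  constructor
  · intro hle
    by_contra hcon
    push Not at hcon
    have : Finset.Icc 1 j ⊆ (Finset.Icc 1 N).filter (fun j => F t j ≤ u ∧ u < 1) := by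
      intro i hi
      rw [Finset.mem_Icc] at hi
      rw [Finset.mem_filter, Finset.mem_Icc]
      exact ⟨⟨hi.1, by omega⟩, le_trans (h.mono' t hi.2) hcon, hu⟩
    have h2 := Finset.card_le_card this
    rw [Nat.card_Icc] at h2
    unfold qpos at hle
    omega
  · intro hlt
    have : (Finset.Icc 1 N).filter (fun j => F t j ≤ u ∧ u < 1) ⊆ Finset.Icc 1 (j - 1) := by
      intro i hi
      rw [Finset.mem_filter, Finset.mem_Icc] at hi
      rw [Finset.mem_Icc]
      refine ⟨hi.1.1, ?_⟩
      by_contra hcon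
      have h3 := h.mono' t (show j ≤ i by omega)
      linarith [hi.2.1]
    have h2 := Finset.card_le_card this
    rw [Nat.card_Icc] at h2
    unfold qpos
    omega

/-- The infiltrator's path with parameter `u`. -/
noncomputable def qInf (h : IsCdf 1 F) (n : ℕ) (u : ℝ) : InfPath n :=
  ⟨qpos n F u, qpos_zero h u, fun k => ⟨⟨qpos_pos u (k + 1), qpos_le u (k + 1)⟩,
    qpos_step h u k, le_trans (qpos_mono h u k) (Nat.le_succ _)⟩⟩

/-- The searcher's path with parameter `u`. -/
noncomputable def qSearch (h : IsCdf w F) (n : ℕ) (hn : 1 ≤ n) (u : ℝ) :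
    SearchPath n w :=
  ⟨qpos (n - 1) F u, qpos_zero h u, fun k =>
    ⟨⟨qpos_pos u (k + 1), by have := qpos_le (N := n - 1) (F := F) u (k + 1); omega⟩,
      by have := qpos_step (N := n - 1) h u k; omega,
      by have := qpos_mono (N := n - 1) h u k; omega⟩⟩

theorem measurable_qpos (t : ℕ) : Measurable (fun u : ℝ => qpos N F u t) := by
  unfold qpos
  apply Measurable.const_add
  simp only [Finset.card_filter]
  refine Finset.measurable_sum _ (fun j _ => ?_)
  refine Measurable.ite ?_ measurable_const measurable_const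
  exact (measurableSet_Ici (a := F t j)).inter (measurableSet_Iio (a := (1 : ℝ)))

theorem measurable_qInf (h : IsCdf 1 F) (n : ℕ) : Measurable (qInf h n) := by
  apply Measurable.subtype_mk
  rw [measurable_pi_iff]
  intro t
  exact measurable_qpos t

theorem measurable_qSearch (h : IsCdf w F) (n : ℕ) (hn : 1 ≤ n) :
    Measurable (qSearch h n hn) := by
  apply Measurable.subtype_mk
  rw [measurable_pi_iff]
  intro t
  exact measurable_qpos t

instance : IsProbabilityMeasure unif := by
  constructor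
  unfold unif
  rw [Measure.restrict_apply MeasurableSet.univ, Set.univ_inter, Real.volume_Ioo]
  norm_num

theorem unif_ae : ∀ᵐ u ∂unif, 0 < u ∧ u < 1 := by
  unfold unif
  rw [ae_restrict_iff' measurableSet_Ioo]
  exact Filter.Eventually.of_forall (fun u hu => hu)

/-- The probability of a position. -/
theorem unif_qpos_eq (h : IsCdf w F) (h0 : ∀ t j, 0 ≤ F t j) (h1 : ∀ t j, F t j ≤ 1)
    (hz : ∀ t, F t 0 = 0) (t : ℕ) {j : ℕ} (hj : 1 ≤ j) (hjN : j ≤ N) :
    unif {u | qpos N F u t = j} = ENNReal.ofReal (F t j - F t (j - 1)) := by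
  unfold unif
  have hm : MeasurableSet {u | qpos N F u t = j} :=
    (measurable_qpos t) (measurableSet_singleton j)
  rw [Measure.restrict_apply hm]
  have h2 : Set.Ioo (F t (j - 1)) (F t j) ⊆ {u | qpos N F u t = j} ∩ Set.Ioo 0 1 := by
    intro u hu
    have hu0 : 0 < u := lt_of_le_of_lt (h0 t (j - 1)) hu.1
    have hu1 : u < 1 := lt_of_lt_of_le hu.2 (h1 t j)
    refine ⟨?_, hu0, hu1⟩
    rw [Set.mem_ofPred_eq]
    have h3 := (qpos_le_iff h hu1 t hj hjN).2 hu.2
    have h4 : ¬ qpos N F u t ≤ j - 1 := by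
      rcases Nat.lt_or_ge j 2 with h5 | h5
      · have := qpos_pos (N := N) (F := F) u t
        omega
      · rw [qpos_le_iff h hu1 t (show 1 ≤ j - 1 by omega) (by omega)]
        exact not_lt.2 hu.1.le
    omega
  have h3 : {u | qpos N F u t = j} ∩ Set.Ioo 0 1 ⊆ Set.Ico (F t (j - 1)) (F t j) := by
    rintro u ⟨hu, hu0, hu1⟩
    rw [Set.mem_ofPred_eq] at hu
    refine ⟨?_, (qpos_le_iff h hu1 t hj hjN).1 hu.le⟩
    rcases Nat.lt_or_ge j 2 with h5 | h5
    · have : j - 1 = 0 := by omega
      rw [this, hz]; exact hu0.le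
    · by_contra hcon
      push Not at hcon
      have := (qpos_le_iff (N := N) h hu1 t (show 1 ≤ j - 1 by omega)
        (show j - 1 ≤ N by omega)).2 hcon
      omega
  apply le_antisymm
  · refine le_trans (measure_mono h3) ?_
    rw [Real.volume_Ico]
  · refine le_trans ?_ (measure_mono h2)
    rw [Real.volume_Ioo]

/-- The probability of the last cell. -/
theorem unif_qpos_top (h : IsCdf w F) (h0 : ∀ t j, 0 ≤ F t j)
    (hz : ∀ t, F t 0 = 0) (t : ℕ) :
    unif {u | qpos N F u t = N + 1} = ENNReal.ofReal (1 - F t N) := by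
  unfold unif
  have hm : MeasurableSet {u | qpos N F u t = N + 1} :=
    (measurable_qpos t) (measurableSet_singleton (N + 1))
  rw [Measure.restrict_apply hm]
  have h2 : Set.Ioo (F t N) 1 ⊆ {u | qpos N F u t = N + 1} ∩ Set.Ioo 0 1 := by
    intro u hu
    have hu0 : 0 < u := lt_of_le_of_lt (h0 t N) hu.1
    refine ⟨?_, hu0, hu.2⟩
    rw [Set.mem_ofPred_eq]
    have h3 := qpos_le (N := N) (F := F) u t
    have h4 : ¬ qpos N F u t ≤ N := by
      rcases Nat.eq_zero_or_pos N with h5 | h5
      · have := qpos_pos (N := N) (F := F) u t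
        omega
      · rw [qpos_le_iff h hu.2 t (show 1 ≤ N by omega) le_rfl]
        exact not_lt.2 hu.1.le
    omega
  have h3 : {u | qpos N F u t = N + 1} ∩ Set.Ioo 0 1 ⊆ Set.Ico (F t N) 1 := by
    rintro u ⟨hu, hu0, hu1⟩
    rw [Set.mem_ofPred_eq] at hu
    refine ⟨?_, hu1⟩
    rcases Nat.eq_zero_or_pos N with h5 | h5
    · rw [h5, hz]; exact hu0.le
    · by_contra hcon
      push Not at hcon
      have := (qpos_le_iff h hu1 t h5 le_rfl).2 hcon
      omega
  apply le_antisymm
  · refine le_trans (measure_mono h3) ?_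
    rw [Real.volume_Ico]
  · refine le_trans ?_ (measure_mono h2)
    rw [Real.volume_Ioo]

end Pool.Agent.MP_90dd8d_pr
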