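import Pool.Agent.Lib.MP_90dd8d_pr.Lower

/-!
# MP_90dd8d_pr: the root of the quadratic, and the solution for speed one
-/

set_option autoImplicit false

open MeasureTheory

namespace Pool.Agent.MP_90dd8d_pr

variable {n : ℕ} {lam : ℝ}

theorem pow_lt_self (h0 : 0 < lam) (h1 : lam < 1) (hn : 3 ≤ n) : lam ^ (n - 1) < lam := by
  calc lam ^ (n - 1) ≤ lam ^ 2 := pow_le_pow_of_le_one h0.le h1.le (by omega)
    _ < lam := by nlinarith

theorem root_props (h0 : 0 < lam) (h1 : lam < 1) (hn : 3 ≤ n) :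
    lam * rootVal n lam ^ 2 - (1 + lam - (1 - lam) * lam ^ (n - 1)) * rootVal n lam + lam = 0 ∧
    0 < rootVal n lam ∧ rootVal n lam < lam := by
  set B := 1 + lam - (1 - lam) * lam ^ (n - 1) with hB
  have hp := pow_lt_self h0 h1 hn
  have hp0 : 0 < lam ^ (n - 1) := by positivity
  have hB2 : 2 * lam < B := by rw [hB]; nlinarith
  have hB3 : 1 + lam ^ 2 < B := by rw [hB]; nlinarith
  have hD : 0 < B ^ 2 - 4 * lam ^ 2 := by nlinarith
  set D := Real.sqrt (B ^ 2 - 4 * lam ^ 2) with hDef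
  have hD0 : 0 < D := Real.sqrt_pos.2 hD
  have hDsq : D ^ 2 = B ^ 2 - 4 * lam ^ 2 := Real.sq_sqrt hD.le
  have hv : rootVal n lam = (B - D) / (2 * lam) := rfl
  have hDB : D < B := by
    by_contra hcon
    push Not at hcon
    nlinarith
  refine ⟨?_, ?_, ?_⟩
  · rw [hv]
    field_simp
    nlinarith
  · rw [hv]
    apply div_pos <;> linarith
  · rw [hv, div_lt_iff₀ (by linarith)]
    by_contra hcon
    push Not at hcon
    -- `D ≤ B - 2 lam ^ 2`
    have h2 : D ≤ B - 2 * lam ^ 2 := by nlinarith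
    have h3 : D ^ 2 ≤ (B - 2 * lam ^ 2) ^ 2 := by
      apply pow_le_pow_left₀ hD0.le h2
    rw [hDsq] at h3
    have h4 : 0 < lam ^ 2 * (B - 1 - lam ^ 2) := by
      apply mul_pos (by positivity); linarith
    nlinarith

/-- A criterion for `x ≤ rootVal n lam`. -/
theorem le_root (h0 : 0 < lam) (h1 : lam < 1) (hn : 3 ≤ n) {x : ℝ} (hx1 : x < 1)
    (hf : 0 ≤ lam * x ^ 2 - (1 + lam - (1 - lam) * lam ^ (n - 1)) * x + lam) :
    x ≤ rootVal n lam := by
  obtain ⟨hq, hv0, hvl⟩ := root_props h0 h1 hn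
  set B := 1 + lam - (1 - lam) * lam ^ (n - 1) with hB
  set v := rootVal n lam with hv
  -- `v * f x = lam (x - v) (v x - 1)`
  have h2 : v * (lam * x ^ 2 - B * x + lam) = lam * ((x - v) * (v * x - 1)) := by
    have h3 : B * v = lam * v ^ 2 + lam := by linarith
    calc v * (lam * x ^ 2 - B * x + lam) = lam * v * x ^ 2 - (B * v) * x + lam * v := by ring
      _ = lam * v * x ^ 2 - (lam * v ^ 2 + lam) * x + lam * v := by rw [h3]
      _ = lam * ((x - v) * (v * x - 1)) := by ring
  have h3 : 0 ≤ lam * ((x - v) * (v * x - 1)) := by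
    rw [← h2]; exact mul_nonneg hv0.le hf
  by_contra hcon
  push Not at hcon
  have h4 : v * x < 1 := by nlinarith
  have h5 : (x - v) * (v * x - 1) < 0 := mul_neg_of_pos_of_neg (by linarith) (by linarith)
  nlinarith

theorem inf_ratio_props (h0 : 0 < lam) (h1 : lam < 1) (hn : 3 ≤ n) :
    0 < infRatio n lam ∧ infRatio n lam < 1 ∧
    rootVal n lam = (1 - infRatio n lam) + lam * infRatio n lam * rootVal n lam ∧
    rootVal n lam = lam ^ (n - 1) * (1 - infRatio n lam) + lam * infRatio n lam := by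
  obtain ⟨hq, hv0, hvl⟩ := root_props h0 h1 hn
  unfold infRatio
  set v := rootVal n lam with hv
  have hd : 0 < 1 - lam * v := by nlinarith
  have hdne : 1 - lam * v ≠ 0 := hd.ne'
  refine ⟨?_, ?_, ?_, ?_⟩
  · apply div_pos _ hd; linarith
  · rw [div_lt_one hd]; nlinarith
  · have h2 : 1 - (1 - v) / (1 - lam * v) = v * (1 - lam) / (1 - lam * v) := by
      rw [eq_div_iff hdne, sub_mul, div_mul_cancel₀ _ hdne]; ring
    rw [h2, ← sub_eq_zero]
    have h3 : v - (v * (1 - lam) / (1 - lam * v) + lam * ((1 - v) / (1 - lam * v)) * v)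
        = (v * (1 - lam * v) - (v * (1 - lam) + lam * (1 - v) * v)) / (1 - lam * v) := by
      rw [eq_div_iff hdne, sub_mul, add_mul, div_mul_cancel₀ _ hdne]
      rw [show lam * ((1 - v) / (1 - lam * v)) * v * (1 - lam * v)
        = lam * v * ((1 - v) / (1 - lam * v) * (1 - lam * v)) by ring, div_mul_cancel₀ _ hdne]
      ring
    rw [h3]
    have h4 : v * (1 - lam * v) - (v * (1 - lam) + lam * (1 - v) * v) = 0 := by ring
    rw [h4, zero_div]
  · have h2 : 1 - (1 - v) / (1 - lam * v) = v * (1 - lam) / (1 - lam * v) := by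
      rw [eq_div_iff hdne, sub_mul, div_mul_cancel₀ _ hdne]; ring
    rw [h2]
    have h3 : lam ^ (n - 1) * (v * (1 - lam) / (1 - lam * v)) + lam * ((1 - v) / (1 - lam * v))
        = (lam ^ (n - 1) * (v * (1 - lam)) + lam * (1 - v)) / (1 - lam * v) := by ring
    rw [h3, eq_div_iff hdne]
    linarith

theorem search_ratio_props (h0 : 0 < lam) (h1 : lam < 1) (hn : 3 ≤ n) :
    0 < searchRatio n lam ∧ searchRatio n lam < 1 ∧
    rootVal n lam = lam * (1 - searchRatio n lam) + lam * searchRatio n lam * rootVal n lam ∧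
    rootVal n lam = lam ^ (n - 1) * (1 - searchRatio n lam) + searchRatio n lam := by
  obtain ⟨hq, hv0, hvl⟩ := root_props h0 h1 hn
  unfold searchRatio
  set v := rootVal n lam with hv
  have hd : 0 < 1 - v := by linarith
  have hd' : 0 < lam * (1 - v) := by positivity
  refine ⟨?_, ?_, ?_, ?_⟩
  · apply div_pos _ hd'; linarith
  · rw [div_lt_one hd']; nlinarith
  · field_simp
    ring
  · field_simp
    nlinarith

/-- The solution for speed one, given the two conditions. -/
theorem isSolution_root (h0 : 0 < lam) (h1 : lam < 1) (hn : 3 ≤ n)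
    (hr : infRatio n lam ≤ lam ^ (n - 3)) (K : ℕ → ℝ)
    (hK2 : K 2 = rootVal n lam)
    (hR : ∀ m, 3 ≤ m → m ≤ n - 1 →
      lam ^ (n + 1 - m) * (1 - searchRatio n lam) + searchRatio n lam ≤ K m)
    (hB : ∀ m, 3 ≤ m → m ≤ n - 1 →
      lam * (1 - searchRatio n lam) + searchRatio n lam *
        (lam ^ (n + 2 - m) * (1 - searchRatio n lam) + searchRatio n lam) ≤ K m)
    (hF : ∀ j m, 2 ≤ j → j ≤ m → m ≤ n - 1 →
      lam ^ (m - j + 2) * (1 - searchRatio n lam) + searchRatio n lam * K m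
        ≤ lam ^ (n + 1 - j) * (1 - searchRatio n lam) + searchRatio n lam) :
    IsSolution n 1 lam (rootVal n lam) (geomDash n (infRatio n lam))
      (geomSweep n 1 (by omega) le_rfl (searchRatio n lam)) := by
  obtain ⟨hq, hv0, hvl⟩ := root_props h0 h1 hn
  obtain ⟨hr0, hr1, hrv1, hrv2⟩ := inf_ratio_props h0 h1 hn
  obtain ⟨hs0, hs1, hsv1, hsv2⟩ := search_ratio_props h0 h1 hn
  have hpr : ∀ d : ℕ, 0 ≤ (1 - infRatio n lam) * infRatio n lam ^ d := by
    intro d
    have : 0 < 1 - infRatio n lam := by linarith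
    positivity
  have hps : ∀ d : ℕ, 0 ≤ (1 - searchRatio n lam) * searchRatio n lam ^ d := by
    intro d
    have : 0 < 1 - searchRatio n lam := by linarith
    positivity
  refine ⟨isProbabilityMeasure_mix hpr (hasSum_geom hr0.le hr1) _,
    isProbabilityMeasure_mix hps (hasSum_geom hs0.le hs1) _, ?_, ?_⟩
  · intro ν' hν'
    have hl : ∀ y : SearchPath n 1, rootVal n lam
        ≤ ∑' d : ℕ, ((1 - infRatio n lam) * infRatio n lam ^ d) * winGiven lam (dash n d) y :=
      fun y => lower_pointwise (by omega) h0 h1 hr0 hr1 hv0.le hrv1 hrv2 hr y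
    exact le_winProb_mix h0.le h1.le hpr (hasSum_geom hr0.le hr1) (dash n) hl ν'
  · intro μ' hμ'
    have hu : ∀ x : InfPath n, ∑' k : ℕ, ((1 - searchRatio n lam) * searchRatio n lam ^ k)
        * winGiven lam x (sweep n 1 (by omega) le_rfl k) ≤ rootVal n lam :=
      fun x => upper_pointwise hn le_rfl h0 h1 hs0 hs1 hv0.le hsv1 hsv2 hK2 hR hB hF x
    exact winProb_mix_le h0.le h1.le hps (hasSum_geom hs0.le hs1) (sweep n 1 (by omega) le_rfl)
      hu μ'

/-- The case `n = 3`, `w = 1`. -/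
theorem isSolution_three_one (h0 : 0 < lam) (h1 : lam < 1) :
    IsSolution 3 1 lam (rootVal 3 lam) (geomDash 3 (infRatio 3 lam))
      (geomSweep 3 1 (by omega) le_rfl (searchRatio 3 lam)) := by
  obtain ⟨hq, hv0, hvl⟩ := root_props h0 h1 (le_refl 3)
  obtain ⟨hr0, hr1, hrv1, hrv2⟩ := inf_ratio_props h0 h1 (le_refl 3)
  obtain ⟨hs0, hs1, hsv1, hsv2⟩ := search_ratio_props h0 h1 (le_refl 3)
  refine isSolution_root h0 h1 le_rfl (by simpa using hr1.le) (fun _ => rootVal 3 lam) rfl
    (fun m h2 h3 => by omega) (fun m h2 h3 => by omega) ?_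
  intro j m hj hjm hm
  have h2 : j = 2 := by omega
  have h3 : m = 2 := by omega
  subst h2 h3
  norm_num
  nlinarith

/-- The case `n = 4`, `w = 1`. -/
theorem isSolution_four_one (h0 : 0 < lam) (h1 : lam < 1)
    (hlam : 1 ≤ lam ^ 2 + 2 * lam ^ 3 - lam ^ 5) :
    IsSolution 4 1 lam (rootVal 4 lam) (geomDash 4 (infRatio 4 lam))
      (geomSweep 4 1 (by omega) le_rfl (searchRatio 4 lam)) := by
  obtain ⟨hq, hv0, hvl⟩ := root_props h0 h1 (by norm_num : 3 ≤ 4)
  obtain ⟨hr0, hr1, hrv1, hrv2⟩ := inf_ratio_props h0 h1 (by norm_num : 3 ≤ 4)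
  obtain ⟨hs0, hs1, hsv1, hsv2⟩ := search_ratio_props h0 h1 (by norm_num : 3 ≤ 4)
  -- `lam ^ 2 ≤ v`
  have hv2 : lam ^ 2 ≤ rootVal 4 lam := by
    apply le_root h0 h1 (by norm_num) (by nlinarith)
    have : lam * (lam ^ 2) ^ 2 - (1 + lam - (1 - lam) * lam ^ (4 - 1)) * lam ^ 2 + lam
        = lam * ((1 - lam) ^ 2 * (1 + lam - lam ^ 3)) := by norm_num; ring
    rw [this]
    have h3 : lam ^ 3 < 1 := pow_lt_one₀ h0.le h1 (by norm_num)
    have h4 : 0 ≤ 1 + lam - lam ^ 3 := by linarith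
    positivity
  -- `1 / (1 + lam) ≤ v`
  have hv3 : 1 / (1 + lam) ≤ rootVal 4 lam := by
    apply le_root h0 h1 (by norm_num)
    · rw [div_lt_one (by linarith)]; linarith
    · have : lam * (1 / (1 + lam)) ^ 2 - (1 + lam - (1 - lam) * lam ^ (4 - 1)) * (1 / (1 + lam))
          + lam = (lam ^ 2 + 2 * lam ^ 3 - lam ^ 5 - 1) / (1 + lam) ^ 2 := by
        field_simp; norm_num; ring
      rw [this]
      apply div_nonneg _ (by positivity)
      linarith
  have hr : infRatio 4 lam ≤ lam ^ (4 - 3) := by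
    norm_num
    unfold infRatio
    rw [div_le_iff₀ (by nlinarith)]
    rw [div_le_iff₀ (by linarith)] at hv3
    nlinarith
  set s := searchRatio 4 lam with hs
  set v := rootVal 4 lam with hv
  refine isSolution_root h0 h1 (by norm_num) hr (fun m => if m = 2 then v else 1) (by simp [hv])
    ?_ ?_ ?_
  · intro m h2 h3
    have : m = 3 := by omega
    subst this
    norm_num
    rw [← hs]
    nlinarith
  · intro m h2 h3
    have : m = 3 := by omega
    subst this
    norm_num
    rw [← hs]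
    norm_num at hsv2
    have h4 : lam ^ 3 * (1 - s) + s ≤ 1 := by rw [← hsv2]; linarith
    nlinarith
  · intro j m hj hjm hm
    rw [← hs]
    norm_num at hsv2
    have h3 : 0 < 1 - s := by linarith
    interval_cases m <;> interval_cases j <;> norm_num
    rw [← hsv2]
    nlinarith

end Pool.Agent.MP_90dd8d_pr
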