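import Pool.Agent.Lib.MP_90dd8d_pr.FromCdfUpper

/-!
# MP_90dd8d_pr: the distribution functions used by both players for speed one
-/

set_option autoImplicit false

open MeasureTheory Filter

namespace Pool.Agent.MP_90dd8d_pr

variable {k : ℕ} {r : ℝ}

theorem thr_of_le {t j : ℕ} (h : k ≤ j) : thr k r t j = r ^ (t + 1 - j) := by
  unfold thr; rw [if_neg (by omega)]

/-- The early phase. -/
theorem thr_early {t j : ℕ} (ht : t + 1 ≤ k) (hj : j ≤ t + 1) :
    thr k r t j = (j : ℝ) / (t + 1) := by
  unfold thr
  have e1 : t + 1 - k = 0 := by omega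
  have e2 : min (t + 1) k = t + 1 := by omega
  have h0 : (0 : ℝ) < (t : ℝ) + 1 := by positivity
  split_ifs with h
  · rw [e1, e2, pow_zero, one_mul]
    push_cast
    apply min_eq_right
    rw [div_le_one h0]
    exact_mod_cast hj
  · have e3 : j = t + 1 := by omega
    subst e3
    rw [Nat.sub_self, pow_zero]
    push_cast
    rw [div_self h0.ne']

/-- The late phase, home cells. -/
theorem thr_late {t j : ℕ} (hk : 1 ≤ k) (ht : k ≤ t + 1) (hj : j ≤ k) :
    thr k r t j = r ^ (t + 1 - k) * ((j : ℝ) / k) := by
  unfold thr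
  have e2 : min (t + 1) k = k := by omega
  have h0 : (0 : ℝ) < (k : ℝ) := by exact_mod_cast hk
  split_ifs with h
  · rw [e2]
    congr 1
    apply min_eq_right
    rw [div_le_one h0]
    exact_mod_cast hj
  · have e3 : j = k := by omega
    subst e3
    rw [div_self h0.ne', mul_one]

theorem thr_nonneg (h0 : 0 ≤ r) (t j : ℕ) : 0 ≤ thr k r t j := by
  unfold thr
  split_ifs
  · apply mul_nonneg (pow_nonneg h0 _)
    apply le_min zero_le_one
    positivity
  · exact pow_nonneg h0 _

theorem thr_le_one (h0 : 0 ≤ r) (h1 : r ≤ 1) (t j : ℕ) : thr k r t j ≤ 1 := by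
  unfold thr
  split_ifs
  · calc r ^ (t + 1 - k) * min 1 ((j : ℝ) / ((min (t + 1) k : ℕ) : ℝ)) ≤ 1 * 1 := by
          apply mul_le_mul (pow_le_one₀ h0 h1) (min_le_left _ _) _ zero_le_one
          apply le_min zero_le_one
          positivity
      _ = 1 := one_mul 1
  · exact pow_le_one₀ h0 h1

theorem thr_zero (hk : 1 ≤ k) (t : ℕ) : thr k r t 0 = 0 := by
  unfold thr
  rw [if_pos (by omega)]
  simp

theorem isCdf_thr (hk : 1 ≤ k) (h0 : 0 ≤ r) (h1 : r ≤ 1) (hr : ((k : ℝ) - 1) * (1 - r) ≤ r) :
    IsCdf 1 (thr k r) := by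
  have hk0 : (0 : ℝ) < (k : ℝ) := by exact_mod_cast hk
  refine ⟨?_, ?_, ?_, ?_⟩
  · intro j hj
    unfold thr
    split_ifs with h
    · have e1 : 0 + 1 - k = 0 := by omega
      have e2 : min (0 + 1) k = 1 := by omega
      rw [e1, e2, pow_zero, one_mul]
      apply min_eq_left
      push_cast
      rw [div_one]
      exact_mod_cast hj
    · have e1 : 0 + 1 - j = 0 := by omega
      rw [e1, pow_zero]
  · intro t j
    unfold thr
    by_cases h : j < k
    · rw [if_pos h]
      by_cases h' : j + 1 < k
      · rw [if_pos h']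
        apply mul_le_mul_of_nonneg_left _ (pow_nonneg h0 _)
        apply min_le_min_left
        apply div_le_div_of_nonneg_right _ (by positivity)
        push_cast
        linarith
      · rw [if_neg h']
        have e : j + 1 = k := by omega
        rw [e]
        calc r ^ (t + 1 - k) * min 1 ((j : ℝ) / ((min (t + 1) k : ℕ) : ℝ))
            ≤ r ^ (t + 1 - k) * 1 :=
              mul_le_mul_of_nonneg_left (min_le_left _ _) (pow_nonneg h0 _)
          _ = r ^ (t + 1 - k) := mul_one _
    · rw [if_neg h, if_neg (by omega)]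
      apply pow_le_pow_of_le_one h0 h1
      omega
  · intro t j
    unfold thr
    by_cases h : j < k
    · rw [if_pos h, if_pos h]
      apply mul_le_mul (pow_le_pow_of_le_one h0 h1 (by omega)) _ _ (pow_nonneg h0 _)
      · apply min_le_min_left
        apply div_le_div_of_nonneg_left (by positivity)
        · exact_mod_cast (show 0 < min (t + 1) k by omega)
        · exact_mod_cast (show min (t + 1) k ≤ min (t + 1 + 1) k by omega)
      · apply le_min zero_le_one
        positivity
    · rw [if_neg h, if_neg h]
      apply pow_le_pow_of_le_one h0 h1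
      omega
  · intro t j
    by_cases h : j < k
    · by_cases ht : t + 1 < k
      · -- early
        rcases Nat.lt_or_ge (t + 1) j with hj | hj
        · -- both are one
          have e1 : thr k r (t + 1) (j + 1) = 1 := by
            unfold thr
            split_ifs with h'
            · have e1 : t + 1 + 1 - k = 0 := by omega
              have e2 : min (t + 1 + 1) k = t + 1 + 1 := by omega
              rw [e1, e2, pow_zero, one_mul]
              apply min_eq_left
              rw [le_div_iff₀ (by positivity), one_mul]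
              exact_mod_cast (show t + 1 + 1 ≤ j + 1 by omega)
            · have e1 : t + 1 + 1 - (j + 1) = 0 := by omega
              rw [e1, pow_zero]
          rw [e1]
          exact thr_le_one h0 h1 _ _
        · rw [thr_early (by omega) hj, thr_early (by omega) (by omega)]
          push_cast
          rw [div_le_div_iff₀ (by positivity) (by positivity)]
          have : (j : ℝ) ≤ t + 1 := by exact_mod_cast hj
          nlinarith
      · rw [thr_late hk (by omega) h.le, thr_late hk (by omega) (by omega)]
        have e : t + 1 + 1 - k = (t + 1 - k) + 1 := by omega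
        rw [e, pow_succ, mul_assoc]
        apply mul_le_mul_of_nonneg_left _ (pow_nonneg h0 _)
        push_cast
        have hj : (j : ℝ) + 1 ≤ k := by exact_mod_cast h
        have hj0 : (0 : ℝ) ≤ j := Nat.cast_nonneg j
        rw [← mul_div_assoc]
        apply div_le_div_of_nonneg_right _ hk0.le
        nlinarith
    · rw [thr_of_le (by omega), thr_of_le (by omega)]
      have e : t + 1 + 1 - (j + 1) = t + 1 - j := by omega
      rw [e]

/-- Masses in the early phase. -/
theorem mass_early {t j : ℕ} (ht : t + 1 ≤ k) (hj1 : 1 ≤ j) (hj : j ≤ t + 1) :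
    thr k r t j - thr k r t (j - 1) = 1 / (t + 1) := by
  rw [thr_early ht hj, thr_early ht (by omega)]
  have : ((j - 1 : ℕ) : ℝ) = (j : ℝ) - 1 := by
    rw [Nat.cast_sub hj1]; simp
  rw [this]
  have h0 : (0 : ℝ) < (t : ℝ) + 1 := by positivity
  field_simp
  ring

/-- Masses of home cells in the late phase. -/
theorem mass_late {t j : ℕ} (hk : 1 ≤ k) (ht : k ≤ t + 1) (hj1 : 1 ≤ j) (hj : j ≤ k) :
    thr k r t j - thr k r t (j - 1) = r ^ (t + 1 - k) / k := by
  rw [thr_late hk ht hj, thr_late hk ht (by omega)]
  have : ((j - 1 : ℕ) : ℝ) = (j : ℝ) - 1 := by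
    rw [Nat.cast_sub hj1]; simp
  rw [this]
  have h0 : (0 : ℝ) < (k : ℝ) := by exact_mod_cast hk
  field_simp
  ring

/-- Masses of the outer cells. -/
theorem mass_outer {t j : ℕ} (hj : k < j) (ht : j ≤ t + 1) :
    thr k r t j - thr k r t (j - 1) = (1 - r) * r ^ (t + 1 - j) := by
  rw [thr_of_le (by omega), thr_of_le (by omega)]
  have e : t + 1 - (j - 1) = (t + 1 - j) + 1 := by omega
  rw [e, pow_succ]
  ring

end Pool.Agent.MP_90dd8d_pr
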