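import Pool.Agent.Lib.MP_90dd8d_pr.Thr

/-!
# MP_90dd8d_pr: the infiltrator's potential for speed one
-/

set_option autoImplicit false

open MeasureTheory Filter

namespace Pool.Agent.MP_90dd8d_pr

/-- The expected number of meetings in the remaining part of the early phase. -/
noncomputable def early (k t : ℕ) : ℝ := ∑ u ∈ Finset.Ico (t + 1) k, 1 / ((u : ℝ) + 1)

theorem early_nonneg (k t : ℕ) : 0 ≤ early k t :=
  Finset.sum_nonneg (fun u _ => by positivity)

theorem early_step {k t : ℕ} (h : t + 2 ≤ k) : early k t = 1 / ((t : ℝ) + 2) + early k (t + 1) := by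
  unfold early
  rw [Finset.sum_eq_sum_Ico_succ_bot (by omega)]
  push_cast
  congr 2
  ring

theorem early_zero {k t : ℕ} (h : k ≤ t + 1) : early k t = 0 := by
  unfold early
  rw [Finset.Ico_eq_empty (by omega), Finset.sum_empty]

variable {n k : ℕ} {r z : ℝ}

/-- An upper bound for the expected number of future meetings of a searcher in cell `j` at time
`t`. -/
noncomputable def phiI (n k : ℕ) (r z : ℝ) (t j : ℕ) : ℝ :=
  if j ≤ k then early k t + r ^ (t + 1 - k) * (z / k)
  else r ^ (t + 1 - j) * (((n : ℝ) - j) * (1 - r) + r)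

theorem phiI_nonneg (h0 : 0 ≤ r) (h1 : r ≤ 1) (hz : 0 ≤ z) {t j : ℕ} (hj : j ≤ n) :
    0 ≤ phiI n k r z t j := by
  unfold phiI
  split_ifs
  · have := early_nonneg k t
    positivity
  · have h2 : (j : ℝ) ≤ n := by exact_mod_cast hj
    apply mul_nonneg (pow_nonneg h0 _)
    have := mul_nonneg (sub_nonneg.2 h2) (sub_nonneg.2 h1)
    linarith

theorem phiI_step (hk : 1 ≤ k) (h0 : 0 ≤ r) (h1 : r ≤ 1) (hrz : r * (1 + z) = z)
    (hzk : z / k = ((n : ℝ) - k) * (1 - r) + r) {t j j' : ℕ}
    (hj1 : 1 ≤ j) (hjt : j ≤ t + 1) (hj1' : 1 ≤ j') (hjn' : j' ≤ n) (hjn : j ≤ n)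
    (hu : j' ≤ j + 1) (hd : j ≤ j' + 1) :
    thr k r (t + 1) j' - thr k r (t + 1) (j' - 1) + phiI n k r z (t + 1) j'
      ≤ phiI n k r z t j := by
  have hk0 : (0 : ℝ) < k := by exact_mod_cast hk
  have hu1 : 0 ≤ 1 - r := by linarith
  by_cases ht : t + 2 ≤ k
  · -- early phase
    rw [mass_early (by omega) hj1' (by omega)]
    unfold phiI
    rw [if_pos (by omega), if_pos (by omega), early_step ht]
    have e1 : t + 1 + 1 - k = 0 := by omega
    have e2 : t + 1 - k = 0 := by omega
    rw [e1, e2]
    push_cast
    apply le_of_eq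
    ring
  · have ht' : k ≤ t + 1 := by omega
    by_cases hj' : j' ≤ k
    · rw [mass_late hk (by omega) hj1' hj']
      -- mass and potential at home
      have e : t + 1 + 1 - k = (t + 1 - k) + 1 := by omega
      have key : r ^ (t + 1 + 1 - k) / k + phiI n k r z (t + 1) j' = r ^ (t + 1 - k) * (z / k) := by
        unfold phiI
        rw [if_pos hj', early_zero (by omega), e, pow_succ]
        have h3 : r / k + r * (z / k) = z / k := by
          rw [← mul_div_assoc, ← add_div]
          congr 1
          linarith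
        calc r ^ (t + 1 - k) * r / k + (0 + r ^ (t + 1 - k) * r * (z / k))
            = r ^ (t + 1 - k) * (r / k + r * (z / k)) := by ring
          _ = _ := by rw [h3]
      rw [key]
      unfold phiI
      by_cases hj : j ≤ k
      · rw [if_pos hj, early_zero ht', zero_add]
      · -- coming back home
        rw [if_neg hj]
        have hj2 : j = k + 1 := by omega
        subst hj2
        have e2 : t + 1 - k = (t + 1 - (k + 1)) + 1 := by omega
        rw [e2, pow_succ, mul_assoc]
        apply mul_le_mul_of_nonneg_left _ (pow_nonneg h0 _)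
        rw [hzk]
        push_cast
        have hm : (k : ℝ) + 1 ≤ n := by exact_mod_cast hjn
        have h4 : 0 ≤ ((n : ℝ) - (k + 1)) * (1 - r) * (1 - r) :=
          mul_nonneg (mul_nonneg (by linarith) hu1) hu1
        nlinarith
    · rw [mass_outer (by omega) (by omega)]
      by_cases hj : j ≤ k
      · -- leaving home
        have hj2 : j' = k + 1 := by omega
        subst hj2
        unfold phiI
        rw [if_neg (by omega), if_pos hj, early_zero ht', zero_add]
        have e : t + 1 + 1 - (k + 1) = t + 1 - k := by omega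
        rw [e, hzk]
        push_cast
        apply le_of_eq
        ring
      · unfold phiI
        rw [if_neg hj', if_neg hj]
        have hm : (j : ℝ) ≤ n := by exact_mod_cast hjn
        rcases Nat.lt_trichotomy j' j with h | h | h
        · -- back
          have hj2 : j = j' + 1 := by omega
          subst hj2
          have e2 : t + 1 + 1 - j' = (t + 1 - (j' + 1)) + 2 := by omega
          rw [e2, pow_add]
          simp only [Nat.cast_add, Nat.cast_one] at hm ⊢
          have h5 : 0 ≤ r ^ (t + 1 - (j' + 1)) := pow_nonneg h0 _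
          have h6 : (1 - r) * r ^ 2 + r ^ 2 * (((n : ℝ) - j') * (1 - r) + r)
              ≤ ((n : ℝ) - (j' + 1)) * (1 - r) + r := by
            have h7 : 0 ≤ (n : ℝ) - (j' + 1) := by linarith
            have h8 : 0 ≤ 1 - r ^ 2 := by nlinarith
            have h9 : 0 ≤ ((n : ℝ) - (j' + 1)) * (1 - r) * (1 - r ^ 2) :=
              mul_nonneg (mul_nonneg h7 hu1) h8
            have h10 : 0 ≤ r * (1 - r) * (1 - r) := mul_nonneg (mul_nonneg h0 hu1) hu1
            nlinarith
          calc (1 - r) * (r ^ (t + 1 - (j' + 1)) * r ^ 2)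
                + r ^ (t + 1 - (j' + 1)) * r ^ 2 * (((n : ℝ) - j') * (1 - r) + r)
              = r ^ (t + 1 - (j' + 1))
                * ((1 - r) * r ^ 2 + r ^ 2 * (((n : ℝ) - j') * (1 - r) + r)) := by ring
            _ ≤ r ^ (t + 1 - (j' + 1)) * (((n : ℝ) - (j' + 1)) * (1 - r) + r) :=
              mul_le_mul_of_nonneg_left h6 h5
        · -- stay
          subst h
          have e2 : t + 1 + 1 - j' = (t + 1 - j') + 1 := by omega
          rw [e2, pow_succ]
          have h5 : 0 ≤ r ^ (t + 1 - j') := pow_nonneg h0 _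
          have h6 : (1 - r) * r + r * (((n : ℝ) - j') * (1 - r) + r)
              ≤ ((n : ℝ) - j') * (1 - r) + r := by
            have h7 : 0 ≤ ((n : ℝ) - j') * (1 - r) * (1 - r) :=
              mul_nonneg (mul_nonneg (by linarith) hu1) hu1
            nlinarith
          calc (1 - r) * (r ^ (t + 1 - j') * r)
                + r ^ (t + 1 - j') * r * (((n : ℝ) - j') * (1 - r) + r)
              = r ^ (t + 1 - j') * ((1 - r) * r + r * (((n : ℝ) - j') * (1 - r) + r)) := by ring
            _ ≤ r ^ (t + 1 - j') * (((n : ℝ) - j') * (1 - r) + r) :=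
              mul_le_mul_of_nonneg_left h6 h5
        · -- forward
          have hj2 : j' = j + 1 := by omega
          subst hj2
          have e2 : t + 1 + 1 - (j + 1) = t + 1 - j := by omega
          rw [e2]
          push_cast
          apply le_of_eq
          ring

/-- The expected number of meetings is at most the initial potential. -/
theorem sum_mass_le (hn : 1 ≤ n) (hk : 1 ≤ k) (h0 : 0 ≤ r) (h1 : r ≤ 1) (hrz : r * (1 + z) = z)
    (hz0 : 0 ≤ z) (hzk : z / k = ((n : ℝ) - k) * (1 - r) + r) (y : SearchPath n 1) (T : ℕ) :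
    ∑ t ∈ Finset.Ico 1 T, (thr k r t (y.1 t) - thr k r t (y.1 t - 1))
      ≤ early k 0 + z / k := by
  have key : ∀ S : ℕ, ∑ t ∈ Finset.Ico 1 (S + 1), (thr k r t (y.1 t) - thr k r t (y.1 t - 1))
      + phiI n k r z S (y.1 S) ≤ early k 0 + z / k := by
    intro S
    induction S with
    | zero =>
      rw [y.2.1]
      unfold phiI
      rw [if_pos hk]
      have e : 0 + 1 - k = 0 := by omega
      rw [e]
      simp
    | succ S ih =>
      rw [Finset.sum_Ico_succ_top (by omega)]
      have h2 := phiI_step (n := n) (z := z) hk h0 h1 hrz hzk (t := S) (j := y.1 S)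
        (j' := y.1 (S + 1)) (search_pos y S) (search_le_time y S) (search_pos y (S + 1))
        (search_le hn y (S + 1)) (search_le hn y S) (y.2.2 S).2.1 (y.2.2 S).2.2
      linarith
  rcases Nat.eq_zero_or_pos T with h | h
  · subst h
    have := key 0
    have h2 := phiI_nonneg (n := n) (k := k) h0 h1 hz0 (t := 0) (search_le hn y 0)
    simp at this ⊢
    linarith
  · have h2 := key (T - 1)
    rw [Nat.sub_add_cancel h] at h2
    have h3 := phiI_nonneg (n := n) (k := k) h0 h1 hz0 (t := T - 1) (search_le hn y (T - 1))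
    linarith

end Pool.Agent.MP_90dd8d_pr
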