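import Pool.Agent.Lib.MP_90dd8d_pr.ThrLower

/-!
# MP_90dd8d_pr: the searcher's potential for speed one
-/

set_option autoImplicit false

open MeasureTheory Filter

namespace Pool.Agent.MP_90dd8d_pr

variable {n k : ℕ} {s τ : ℝ}

/-- A lower bound for the expected number of future meetings, up to the first visit to cell `n`,
of an infiltrator in cell `j` at time `t`. -/
noncomputable def psiS (n k : ℕ) (s τ : ℝ) (t j : ℕ) : ℝ :=
  if j ≤ k then early k t + ((n : ℝ) - k - 1) * τ * s ^ (t + 1 - k) + 1 - s ^ (t + 1 - k + 1)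
  else ((n : ℝ) - 1 - j) * τ * s ^ (t + 1 - j) + 1 - s ^ (t + 1 - j + 1)

/-- One step between cells below `n`. -/
theorem psiS_step (hk : 1 ≤ k) (hkn : k + 1 ≤ n) (h0 : 0 ≤ s) (hτ0 : 0 ≤ τ) (hsτ : s = 1 - τ)
    (heq : s / k + s * τ = ((n : ℝ) - k - 1) * τ ^ 2) (hcond : ((n : ℝ) - k) * τ ≤ 2)
    {t j j' : ℕ}
    (hj1 : 1 ≤ j) (hjt : j ≤ t + 1) (hj1' : 1 ≤ j') (hjn' : j' < n) (hjn : j < n)
    (hu : j' ≤ j + 1) (hd : j ≤ j' + 1) :
    psiS n k s τ t j ≤ smass n (thr k s) (t + 1) j' + psiS n k s τ (t + 1) j' := by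
  have hk0 : (0 : ℝ) < k := by exact_mod_cast hk
  have hs1 : s ≤ 1 := by linarith
  have hτ1 : τ ≤ 1 := by linarith
  have hkn' : (k : ℝ) + 1 ≤ n := by exact_mod_cast hkn
  unfold smass
  rw [if_pos hjn']
  by_cases ht : t + 2 ≤ k
  · rw [mass_early (by omega) hj1' (by omega)]
    unfold psiS
    rw [if_pos (by omega), if_pos (by omega), early_step ht]
    have e1 : t + 1 + 1 - k = 0 := by omega
    have e2 : t + 1 - k = 0 := by omega
    rw [e1, e2]
    push_cast
    apply le_of_eq
    ring
  · have ht' : k ≤ t + 1 := by omega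
    by_cases hj' : j' ≤ k
    · rw [mass_late hk (by omega) hj1' hj']
      have e : t + 1 + 1 - k = (t + 1 - k) + 1 := by omega
      have key : s ^ (t + 1 + 1 - k) / k + psiS n k s τ (t + 1) j'
          = ((n : ℝ) - k - 1) * τ * s ^ (t + 1 - k) + 1 - s ^ (t + 1 - k + 1) := by
        unfold psiS
        rw [if_pos hj', early_zero (by omega), e]
        have h3 : s / k + ((n : ℝ) - k - 1) * τ * s - s ^ 2
            = ((n : ℝ) - k - 1) * τ - s := by
          have h4 : s ^ 2 = s - s * τ := by rw [hsτ]; ring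
          have h5 : ((n : ℝ) - k - 1) * τ * s
              = ((n : ℝ) - k - 1) * τ - ((n : ℝ) - k - 1) * τ ^ 2 := by rw [hsτ]; ring
          rw [h4, h5, ← heq]
          ring
        calc s ^ (t + 1 - k + 1) / k + (0 + ((n : ℝ) - k - 1) * τ * s ^ (t + 1 - k + 1) + 1
              - s ^ (t + 1 - k + 1 + 1))
            = s ^ (t + 1 - k) * (s / k + ((n : ℝ) - k - 1) * τ * s - s ^ 2) + 1 := by
              rw [pow_succ (n := t + 1 - k + 1), pow_succ (n := t + 1 - k)]; ring
          _ = s ^ (t + 1 - k) * (((n : ℝ) - k - 1) * τ - s) + 1 := by rw [h3]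
          _ = _ := by rw [pow_succ]; ring
      rw [key]
      unfold psiS
      by_cases hj : j ≤ k
      · rw [if_pos hj, early_zero ht', zero_add]
      · rw [if_neg hj]
        have hj2 : j = k + 1 := by omega
        subst hj2
        have e2 : t + 1 - k = (t + 1 - (k + 1)) + 1 := by omega
        rw [e2, pow_succ (n := t + 1 - (k + 1) + 1), pow_succ (n := t + 1 - (k + 1))]
        have h5 : 0 ≤ s ^ (t + 1 - (k + 1)) := pow_nonneg h0 _
        simp only [Nat.cast_add, Nat.cast_one]
        have h6 : ((n : ℝ) - 1 - (k + 1)) * τ - s ≤ ((n : ℝ) - k - 1) * τ * s - s * s := by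
          have h7 : 0 ≤ τ * (2 - ((n : ℝ) - k) * τ) := mul_nonneg hτ0 (by linarith)
          rw [hsτ]
          nlinarith
        calc ((n : ℝ) - 1 - (k + 1)) * τ * s ^ (t + 1 - (k + 1)) + 1
              - s ^ (t + 1 - (k + 1)) * s
            = s ^ (t + 1 - (k + 1)) * (((n : ℝ) - 1 - (k + 1)) * τ - s) + 1 := by ring
          _ ≤ s ^ (t + 1 - (k + 1)) * (((n : ℝ) - k - 1) * τ * s - s * s) + 1 := by
              have := mul_le_mul_of_nonneg_left h6 h5
              linarith
          _ = _ := by ring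
    · rw [mass_outer (by omega) (by omega)]
      by_cases hj : j ≤ k
      · have hj2 : j' = k + 1 := by omega
        subst hj2
        unfold psiS
        rw [if_pos hj, if_neg hj', early_zero ht', zero_add]
        have e : t + 1 + 1 - (k + 1) = t + 1 - k := by omega
        rw [e, hsτ]
        push_cast
        apply le_of_eq
        ring
      · unfold psiS
        rw [if_neg hj', if_neg hj]
        have hjk : (k : ℝ) + 1 ≤ j := by exact_mod_cast (show k + 1 ≤ j by omega)
        rcases Nat.lt_trichotomy j' j with h | h | h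
        · have hj2 : j = j' + 1 := by omega
          subst hj2
          have e2 : t + 1 + 1 - j' = (t + 1 - (j' + 1)) + 2 := by omega
          rw [e2]
          simp only [Nat.cast_add, Nat.cast_one] at hjk ⊢
          have h5 : 0 ≤ s ^ (t + 1 - (j' + 1)) := pow_nonneg h0 _
          have hjk' : (k : ℝ) + 1 ≤ j' := by exact_mod_cast (show k + 1 ≤ j' by omega)
          have h6 : ((n : ℝ) - 1 - (j' + 1)) * τ - s
              ≤ (1 - s) * s ^ 2 + ((n : ℝ) - 1 - j') * τ * s ^ 2 - s ^ 3 := by
            have h7 : ((n : ℝ) - 1 - (j' + 1)) * τ ≤ 2 - 3 * τ := by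
              have : ((n : ℝ) - 1 - (j' + 1)) * τ ≤ ((n : ℝ) - k - 3) * τ :=
                mul_le_mul_of_nonneg_right (by linarith) hτ0
              linarith
            -- put `q τ` for the left side
            set q : ℝ := (n : ℝ) - 1 - (j' + 1) with hq
            have h8 : (n : ℝ) - 1 - j' = q + 1 := by rw [hq]; ring
            rw [h8]
            have h9 : 0 ≤ (2 - 3 * τ - q * τ) * (τ * (2 - τ)) :=
              mul_nonneg (by linarith) (mul_nonneg hτ0 (by linarith))
            have h10 : 0 ≤ τ * τ := mul_nonneg hτ0 hτ0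
            rw [hsτ]
            nlinarith
          calc ((n : ℝ) - 1 - (j' + 1)) * τ * s ^ (t + 1 - (j' + 1)) + 1
                - s ^ (t + 1 - (j' + 1) + 1)
              = s ^ (t + 1 - (j' + 1)) * (((n : ℝ) - 1 - (j' + 1)) * τ - s) + 1 := by
                rw [pow_succ]; ring
            _ ≤ s ^ (t + 1 - (j' + 1))
                * ((1 - s) * s ^ 2 + ((n : ℝ) - 1 - j') * τ * s ^ 2 - s ^ 3) + 1 := by
                have := mul_le_mul_of_nonneg_left h6 h5
                linarith
            _ = _ := by rw [pow_add, pow_add, pow_add]; ring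
        · subst h
          have e2 : t + 1 + 1 - j' = (t + 1 - j') + 1 := by omega
          rw [e2]
          have h5 : 0 ≤ s ^ (t + 1 - j') := pow_nonneg h0 _
          have h6 : ((n : ℝ) - 1 - j') * τ - s
              ≤ (1 - s) * s + ((n : ℝ) - 1 - j') * τ * s - s ^ 2 := by
            have h7 : ((n : ℝ) - 1 - j') * τ ≤ 2 - 2 * τ := by
              have : ((n : ℝ) - 1 - j') * τ ≤ ((n : ℝ) - k - 2) * τ :=
                mul_le_mul_of_nonneg_right (by linarith) hτ0
              linarith
            have h8 : 0 ≤ τ * (2 - 2 * τ - ((n : ℝ) - 1 - j') * τ) :=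
              mul_nonneg hτ0 (by linarith)
            rw [hsτ]
            nlinarith
          calc ((n : ℝ) - 1 - j') * τ * s ^ (t + 1 - j') + 1 - s ^ (t + 1 - j' + 1)
              = s ^ (t + 1 - j') * (((n : ℝ) - 1 - j') * τ - s) + 1 := by
                rw [pow_succ]; ring
            _ ≤ s ^ (t + 1 - j')
                * ((1 - s) * s + ((n : ℝ) - 1 - j') * τ * s - s ^ 2) + 1 := by
                have := mul_le_mul_of_nonneg_left h6 h5
                linarith
            _ = _ := by rw [pow_succ, pow_succ]; ring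
        · have hj2 : j' = j + 1 := by omega
          subst hj2
          have e2 : t + 1 + 1 - (j + 1) = t + 1 - j := by omega
          rw [e2, hsτ]
          push_cast
          apply le_of_eq
          ring

/-- The step to cell `n`. -/
theorem psiS_last (hkn : k + 1 ≤ n) {t : ℕ} (hjt : n - 1 ≤ t + 1) :
    psiS n k s τ t (n - 1) ≤ smass n (thr k s) (t + 1) n := by
  unfold smass
  rw [if_neg (lt_irrefl n), thr_of_le (by omega)]
  have hn : ((n - 1 : ℕ) : ℝ) = (n : ℝ) - 1 := by
    rw [Nat.cast_sub (by omega)]; simp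
  have e : t + 1 + 1 - (n - 1) = t + 1 - (n - 1) + 1 := by omega
  unfold psiS
  split_ifs with h
  · have h2 : k = n - 1 := by omega
    have h3 : (k : ℝ) = (n : ℝ) - 1 := by rw [h2, hn]
    rw [early_zero (by omega), h2, hn, e]
    apply le_of_eq
    ring
  · rw [hn, e]
    apply le_of_eq
    ring

/-- Up to the first visit to cell `n`, the expected number of meetings is at least the initial
potential. -/
theorem le_sum_smass (hk : 1 ≤ k) (hkn : k + 1 ≤ n) (h0 : 0 ≤ s) (hτ0 : 0 ≤ τ) (hsτ : s = 1 - τ)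
    (heq : s / k + s * τ = ((n : ℝ) - k - 1) * τ ^ 2) (hcond : ((n : ℝ) - k) * τ ≤ 2)
    (x : InfPath n) (T : ℕ) (hT : x.1 T = n) (hlt : ∀ u, u < T → x.1 u < n) :
    early k 0 + ((n : ℝ) - k) * τ ≤ ∑ t ∈ Finset.Ico 1 (T + 1), smass n (thr k s) t (x.1 t) := by
  have hn2 : 2 ≤ n := by omega
  have hT1 : 1 ≤ T := by
    rcases Nat.eq_zero_or_pos T with h | h
    · rw [h, x.2.1] at hT; omega
    · exact h
  have key : ∀ S : ℕ, S < T → early k 0 + ((n : ℝ) - k) * τ
      ≤ ∑ t ∈ Finset.Ico 1 (S + 1), smass n (thr k s) t (x.1 t) + psiS n k s τ S (x.1 S) := by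
    intro S
    induction S with
    | zero =>
      intro _
      rw [x.2.1]
      unfold psiS
      rw [if_pos hk]
      have e : 0 + 1 - k = 0 := by omega
      rw [e, hsτ]
      apply le_of_eq
      simp
      ring
    | succ S ih =>
      intro hS
      have h1 := ih (by omega)
      rw [Finset.sum_Ico_succ_top (by omega)]
      have h2 := psiS_step hk hkn h0 hτ0 hsτ heq hcond (t := S) (j := x.1 S) (j' := x.1 (S + 1))
        (inf_pos x S) (inf_le_time x S) (inf_pos x (S + 1)) (hlt (S + 1) hS) (hlt S (by omega))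
        (x.2.2 S).2.1 (x.2.2 S).2.2
      linarith
  have h1 := key (T - 1) (by omega)
  rw [Nat.sub_add_cancel hT1] at h1
  rw [Finset.sum_Ico_succ_top hT1]
  have h3 : x.1 (T - 1) = n - 1 := by
    have h4 := (x.2.2 (T - 1)).2.1
    rw [Nat.sub_add_cancel hT1, hT] at h4
    have h5 := hlt (T - 1) (by omega)
    omega
  have h4 := inf_le_time x (T - 1)
  rw [h3] at h1 h4
  have h5 := psiS_last (k := k) (s := s) (τ := τ) hkn (t := T - 1) h4
  rw [Nat.sub_add_cancel hT1] at h5
  rw [hT]
  linarith

end Pool.Agent.MP_90dd8d_pr
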