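import Pool.Agent.Lib.MP_90dd8d_pr.Defs

/-!
# MP_90dd8d_pr: optimal strategies on three cells against a fast searcher, definitions
-/

set_option autoImplicit false

open MeasureTheory

namespace Pool.Agent.MP_90dd8d_pr

/-- The searcher (of speed at least `2`, on three cells) searches cell `c + 1` in the first time
unit, where `c` is `0` or `1`, and cell `3` ever after. -/
def ambush (w : ℕ) (hw : 2 ≤ w) (c : Fin 2) : SearchPath 3 w :=
  ⟨fun t => if t = 0 then 1 else if t = 1 then c + 1 else 3, by
    have hc := c.2
    refine ⟨by simp, fun k => ?_⟩
    rcases Nat.eq_zero_or_pos k with h | h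
    · subst h; simp; omega
    · simp only [Nat.add_eq_zero_iff, one_ne_zero, and_false, if_false]
      split_ifs <;> omega⟩

/-- The infiltrator's optimal strategy on three cells against a searcher of speed at least `2`:
a dash with delay `0` or `1`, each with probability `1 / 2`. -/
noncomputable def twoDash : Measure (InfPath 3) :=
  mix (fun _ : Fin 2 => (1 / 2 : ℝ)) (fun d => dash 3 d)

/-- The optimal strategy of a searcher of speed at least `2` on three cells: search cell `1` or
cell `2`, each with probability `1 / 2`, in the first time unit, and cell `3` ever after. -/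
noncomputable def twoAmbush (w : ℕ) (hw : 2 ≤ w) : Measure (SearchPath 3 w) :=
  mix (fun _ : Fin 2 => (1 / 2 : ℝ)) (ambush w hw)

end Pool.Agent.MP_90dd8d_pr
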