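import Pool.Agent.Lib.MP_90dd8d_pr.Root
import Pool.Agent.Lib.MP_90dd8d_pr.ThreeDefs

/-!
# MP_90dd8d_pr: three cells and a searcher of speed at least two
-/

set_option autoImplicit false

open MeasureTheory

namespace Pool.Agent.MP_90dd8d_pr

variable {n w : ℕ}

theorem hasSum_half : HasSum (fun _ : Fin 2 => (1 / 2 : ℝ)) 1 := by
  have := hasSum_fintype (fun _ : Fin 2 => (1 / 2 : ℝ))
  rw [Fin.sum_univ_two] at this
  norm_num at this ⊢
  exact this

/-- An infiltrator who reaches the target was in cell `n` before. -/
theorem exists_first (hn : 2 ≤ n) (x : InfPath n) (h : ∃ T, x.1 T = n + 1) :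
    ∃ τ, x.1 τ = n ∧ (∀ t, t < τ → x.1 t < n) ∧ n - 1 ≤ τ := by
  classical
  have hreach : ∃ τ, x.1 τ = n := by
    by_contra hcon
    push Not at hcon
    have hlt : ∀ t, x.1 t < n := by
      intro t
      induction t with
      | zero => rw [x.2.1]; omega
      | succ t ih =>
        have h2 := (x.2.2 t).2.1
        have h3 := hcon (t + 1)
        omega
    obtain ⟨T, hT⟩ := h
    have := hlt T
    omega
  refine ⟨Nat.find hreach, Nat.find_spec hreach, ?_, ?_⟩
  · intro t
    induction t with
    | zero => intro _; rw [x.2.1]; omega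
    | succ t ih =>
      intro ht
      have h1 := ih (by omega)
      have h2 := (x.2.2 t).2.1
      have h3 := Nat.find_min hreach ht
      omega
  · have h1 := inf_le_time x (Nat.find hreach)
    have h2 := Nat.find_spec hreach
    omega

theorem isSolution_three_fast {lam : ℝ} (h0 : 0 < lam) (h1 : lam < 1) (hw : 2 ≤ w) :
    IsSolution 3 w lam (lam * (1 + lam) / 2) twoDash (twoAmbush w hw) := by
  have hp : ∀ _i : Fin 2, (0 : ℝ) ≤ 1 / 2 := fun _ => by norm_num
  refine ⟨isProbabilityMeasure_mix hp hasSum_half _, isProbabilityMeasure_mix hp hasSum_half _,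
    ?_, ?_⟩
  · intro ν' hν'
    refine le_winProb_mix h0.le h1.le hp hasSum_half _ (fun y => ?_) ν'
    rw [tsum_fintype, Fin.sum_univ_two]
    have e0 : winGiven lam (dash 3 ((0 : Fin 2) : ℕ)) y
        = lam ^ ((if y.1 1 = 2 then 1 else 0) + (if y.1 2 = 3 then 1 else 0)) := by
      rw [winGiven_dash (by norm_num), meetings_eq_sum]
      congr 1
      have e : ((0 : Fin 2) : ℕ) + 3 = 3 := rfl
      rw [e]
      simp only [Finset.sum_range_succ, Finset.sum_range_zero]
      simp [dash_val, eq_comm]
    have e1 : winGiven lam (dash 3 ((1 : Fin 2) : ℕ)) y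
        = lam ^ ((if y.1 1 = 1 then 1 else 0) + (if y.1 2 = 2 then 1 else 0)
          + (if y.1 3 = 3 then 1 else 0)) := by
      rw [winGiven_dash (by norm_num), meetings_eq_sum]
      congr 1
      have e : ((1 : Fin 2) : ℕ) + 3 = 4 := rfl
      rw [e]
      simp only [Finset.sum_range_succ, Finset.sum_range_zero]
      simp [dash_val, eq_comm]
    rw [e0, e1]
    have hl2 : lam ^ 2 < lam := by nlinarith
    have hl3 : lam ^ 3 < lam ^ 2 := by nlinarith [sq_nonneg lam, mul_pos h0 h0]
    have hl4 : 0 < lam ^ 3 := by positivity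
    -- `(1 - lam) (1 - lam ^ 2) ≥ 0`
    have hl5 : lam + lam ^ 2 ≤ 1 + lam ^ 3 := by nlinarith [mul_pos h0 h0]
    have hc1 : ¬ (y.1 1 = 2 ∧ y.1 1 = 1) := by omega
    have hc2 : ¬ (y.1 2 = 3 ∧ y.1 2 = 2) := by omega
    split_ifs <;> simp_all <;> nlinarith
  · intro μ' hμ'
    refine winProb_mix_le h0.le h1.le hp hasSum_half _ (fun x => ?_) μ'
    rw [tsum_fintype, Fin.sum_univ_two]
    by_cases hr : ∃ T, x.1 T = 3 + 1
    swap
    · have h2 : ∀ c, winGiven lam x (ambush w hw c) = 0 := by
        intro c
        unfold winGiven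
        rw [dif_neg hr]
      rw [h2, h2]
      nlinarith
    obtain ⟨τ, hτ, hlt, hτ2⟩ := exists_first (by norm_num) x hr
    have hx1 : x.1 1 = 1 ∨ x.1 1 = 2 := by
      have := inf_le_time x 1
      have := inf_pos x 1
      omega
    have key : ∀ c : Fin 2, winGiven lam x (ambush w hw c)
        ≤ lam ^ ((if x.1 1 = c + 1 then 1 else 0) + 1) := by
      intro c
      refine le_trans (winGiven_le_of_not_arrived h0.le h1.le x (ambush w hw c) (T := τ + 1) ?_) ?_
      · intro k hk
        rcases Nat.lt_or_ge k τ with h | h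
        · have := hlt k h; omega
        · have : k = τ := by omega
          rw [this, hτ]; norm_num
      · apply pow_le_pow_of_le_one h0.le h1.le
        rw [meetings_succ_hit (by omega)]
        · have h3 : meetings x.1 (ambush w hw c).1 2 ≤ meetings x.1 (ambush w hw c).1 τ :=
            meetings_mono _ _ (by omega)
          have h4 : meetings x.1 (ambush w hw c).1 2
              = if x.1 1 = c + 1 then 1 else 0 := by
            rw [meetings_eq_sum]
            simp [Finset.sum_range_succ, ambush]
          omega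
        · rw [hτ]
          simp only [ambush]
          rw [if_neg (by omega), if_neg (by omega)]
    have k0 := key 0
    have k1 := key 1
    rcases hx1 with h | h
    · simp only [h] at k0 k1
      norm_num at k0 k1
      nlinarith
    · simp only [h] at k0 k1
      norm_num at k0 k1
      nlinarith

end Pool.Agent.MP_90dd8d_pr
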